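import Pool.Agent.P.MP_3540e7_al.T7.Iface

/-! Step BD1. -/

set_option autoImplicit false
set_option linter.unusedSectionVars false

namespace Pool.Agent.P.MP_3540e7_al.T7

open Subgroup T5
open scoped commutatorElement

namespace BD1x

theorem key {G : Type} [Group G] {W Γ : Subgroup G} [hW : W.Normal] (h : LP W) {E : Set G}
    (hE : E.Finite) (hEW : E ⊆ W) (hn : ∀ e ∈ E, Noeth (closure (orb Γ {e}))) :
    Noeth (closure (orb Γ E)) := by
  choose! T h1 h2 h3 using fun e he => exists_finite_closure (hn e he).fg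
  refine (h (⋃ e ∈ E, T e) (hE.biUnion h1) (Set.iUnion₂_subset fun e he t ht => ?_)).le
    ((closure_le _).2 ?_)
  · obtain ⟨g, -, _, rfl, rfl⟩ := h2 e he ht
    exact hW.conj_mem _ (hEW he) g
  · rintro _ ⟨g, hg, e, he, rfl⟩
    refine closure_mono (Set.subset_biUnion_of_mem (u := T) he) ?_
    rw [h3 e he]
    exact subset_closure ⟨g, hg, e, rfl, rfl⟩

end BD1x

theorem p_BD1 :
    S_BD1 := by
  intro G _ W Γ _ h
  refine ⟨fun S hS hn v hv => ?_, fun hb E hE hEW => BD1x.key h hE hEW fun e he => hb e (hEW he)⟩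
  have hle : closure S ≤ W := (closure_le _).2 hS
  induction hv using closure_induction with
  | mem x hx => exact hn x hx
  | one =>
    refine (BD1x.key (Γ := Γ) h Set.finite_empty (Set.empty_subset _) fun _ he => he.elim).le
      ((closure_le _).2 ?_)
    rintro _ ⟨g, -, _, rfl, rfl⟩
    rw [mul_one, mul_inv_cancel]
    exact one_mem _
  | mul x y hx hy ix iy =>
    refine (BD1x.key (Γ := Γ) h (Set.toFinite {x, y}) ?_ ?_).le ((closure_le _).2 ?_)
    · rintro _ (rfl | rfl)
      exacts [hle hx, hle hy]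
    · rintro _ (rfl | rfl)
      exacts [ix, iy]
    · rintro _ ⟨g, hg, _, rfl, rfl⟩
      rw [show g * (x * y) * g⁻¹ = g * x * g⁻¹ * (g * y * g⁻¹) by group]
      exact mul_mem (subset_closure ⟨g, hg, x, Or.inl rfl, rfl⟩)
        (subset_closure ⟨g, hg, y, Or.inr rfl, rfl⟩)
  | inv x hx ix =>
    refine ix.le ((closure_le _).2 ?_)
    rintro _ ⟨g, hg, _, rfl, rfl⟩
    rw [show g * x⁻¹ * g⁻¹ = (g * x * g⁻¹)⁻¹ by group]
    exact inv_mem (subset_closure ⟨g, hg, x, rfl, rfl⟩)

end Pool.Agent.P.MP_3540e7_al.T7
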