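import Pool.Agent.P.MP_3540e7_al.T7.Iface

/-! Step BD2. -/

set_option autoImplicit false
set_option linter.unusedSectionVars false

namespace Pool.Agent.P.MP_3540e7_al.T7

open Subgroup T5
open scoped commutatorElement

theorem p_BD2 (hBD1 : S_BD1) :
    S_BD2 := by
  intro G _ W H Γ hW lp bd hi v hv
  obtain ⟨T, hT, -, h⟩ := relIndex_ne_zero_iff.1 hi
  refine ((hBD1 G W H lp).2 bd _ (hT.image fun t => t⁻¹ * v * t) ?_).le (closure_mono ?_)
  · rintro _ ⟨t, -, rfl⟩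
    exact hW.conj_mem' v hv t
  · rintro _ ⟨g, hg, _, rfl, rfl⟩
    obtain ⟨t, ht, e⟩ := h _ (inv_mem hg)
    exact ⟨_, inv_mem e, _, ⟨t, ht, rfl⟩, by group⟩

end Pool.Agent.P.MP_3540e7_al.T7
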