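import Pool.Agent.P.MP_3540e7_al.T7.Iface

/-! Step C1. -/

set_option autoImplicit false
set_option linter.unusedSectionVars false

namespace Pool.Agent.P.MP_3540e7_al.T7

open Subgroup T5
open scoped commutatorElement

theorem p_C1 (hC1A : S_C1A) :
    S_C1 := by
  intro G _ K _ V _ _ a T U y e H hM hE h0
  obtain ⟨m₀, hm⟩ := hC1A G K V a T U y e H hM hE
  have hfix : ∀ u ∈ U ⊓ Wn H 1 m₀, ∀ j, a u (e j) = e j := fun u hu j =>
    sub_eq_zero.1 (h0 _ fun S hS hne => hm S hS hne u hu j)
  obtain ⟨x, hx, hfd⟩ := hM.kil 0 m₀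
  rw [mem_Wn] at hx
  have hu : x⁻¹ * (y * x * y⁻¹) ∈ U ⊓ Wn H 1 m₀ := by
    refine ⟨?_, mem_Wn.2 fun k h1 h2 => ?_⟩
    · have := hM.cm (commutator_mem_commutator (mem_top x⁻¹) (mem_top y))
      simpa [commutatorElement_def, mul_assoc] using this
    · have h3 := (hM.hsh (k - 1) x).1 (hx (k - 1) (by omega) (by omega))
      rw [sub_add_cancel] at h3
      exact mul_mem (inv_mem (hx k (by omega) h2)) h3
  have hz : ∀ j, a x (e (j + 1)) = a y (a x (e j)) := by
    intro j
    have h1 := congrArg (a x) (hfix _ hu (j + 1))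
    rw [← a_mul, mul_inv_cancel_left, a_mul, a_mul] at h1
    rw [← h1, ← hM.sh j, a_inv_apply]
  have hall : ∀ j, a x (e j) = e j := by
    intro j
    induction j using Int.induction_on with
    | zero => exact hM.fix 0 x (hx 0 le_rfl (by omega))
    | succ i ih => rw [hz, ih, hM.sh]
    | pred i ih =>
      have h1 := hz (-(i : ℤ) - 1)
      rw [sub_add_cancel, ih] at h1
      have h2 := hM.sh (-(i : ℤ) - 1)
      rw [sub_add_cancel, h1] at h2
      have h3 := congrArg (a y⁻¹) h2
      rw [a_inv_apply, a_inv_apply] at h3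
      exact h3.symm
  let e' : ℤ → LinearMap.ker (a x - 1) := fun j => ⟨e j, by simp [LinearMap.mem_ker, hall j]⟩
  have hli : LinearIndependent K e' :=
    LinearIndependent.of_comp (LinearMap.ker (a x - 1)).subtype hM.li
  have := hli.finite
  exact not_finite ℤ

end Pool.Agent.P.MP_3540e7_al.T7
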