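import Pool.Agent.P.MP_3540e7_al.T7.Iface

/-! Step C1A. -/

set_option autoImplicit false
set_option linter.unusedSectionVars false

namespace Pool.Agent.P.MP_3540e7_al.T7

open Subgroup T5
open scoped commutatorElement

namespace C1Ax

variable {G : Type} [Group G] {K : Type} [Field K] {V : Type} [AddCommGroup V] [Module K V]

/-- the elements that fix all `e j` modulo `S` -/
def Fix (a : G →* Module.End K V) (e : ℤ → V) (S : Submodule K V) (hS : Iv a ⊤ S) :
    Subgroup G where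
  carrier := {g | ∀ j, a g (e j) - e j ∈ S}
  one_mem' j := by simp
  mul_mem' {g h} hg hh j := by
    have := S.add_mem (hS g (mem_top g) _ (hh j)) (hg j)
    rwa [map_sub, sub_add_sub_cancel, ← a_mul] at this
  inv_mem' {g} hg j := by
    have := S.neg_mem (hS g⁻¹ (mem_top _) _ (hg j))
    rwa [map_sub, a_inv_apply, neg_sub] at this

theorem conj_wn {H : ℤ → Subgroup G} {y : G} (hsh : ∀ j g, g ∈ H j ↔ y * g * y⁻¹ ∈ H (j + 1))
    (i j : ℤ) (g : G) : g ∈ Wn H i j ↔ y * g * y⁻¹ ∈ Wn H (i + 1) (j + 1) := by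
  simp only [mem_Wn]
  refine ⟨fun h k h1 h2 => ?_, fun h k h1 h2 => (hsh k g).2 (h (k + 1) (by omega) (by omega))⟩
  have := (hsh (k - 1) g).1 (h (k - 1) (by omega) (by omega))
  rwa [sub_add_cancel] at this

theorem conj_fix {a : G →* Module.End K V} {e : ℤ → V} {S : Submodule K V} (hS : Iv a ⊤ S)
    {y : G} (sh : ∀ j, a y (e j) = e (j + 1)) (g : G) :
    g ∈ Fix a e S hS ↔ y * g * y⁻¹ ∈ Fix a e S hS := by
  have e1 : ∀ j, a (y * g * y⁻¹) (e (j + 1)) - e (j + 1) = a y (a g (e j) - e j) := fun j => by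
    rw [← sh, a_mul, a_inv_apply, a_mul, map_sub]
  refine ⟨fun h j => ?_, fun h j => ?_⟩
  · have := hS y (mem_top y) _ (h (j - 1))
    rwa [← e1, sub_add_cancel] at this
  · have := hS y⁻¹ (mem_top _) _ (h (j + 1))
    rwa [e1, a_inv_apply] at this

end C1Ax

open C1Ax in
theorem p_C1A (hWIN : S_WIN) (hUPW : S_UPW) :
    S_C1A := by
  intro G _ K _ V _ _ a T U y e H hM hE
  obtain ⟨m₀, hm₀⟩ := hM.tidy
  have hU : U.Normal := normal_of_cm hM.cm
  refine ⟨m₀, fun S hS hne => ?_⟩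
  obtain ⟨n, hn⟩ := hWIN K V (a y) (a y⁻¹) e S hM.li hM.sh
    (fun j => by rw [← hM.sh, a_inv_apply]) (hS y (mem_top _)) (hS y⁻¹ (mem_top _)) (hE S hS hne)
  have base : ∀ m : ℕ, n ≤ m → Wn H 0 m ≤ Fix a e S hS := by
    intro m hm g hg j
    obtain ⟨s, hs, l, hl, hsl⟩ := Submodule.mem_sup.1 (hn j)
    have hfix : a g l = l := by
      have : Submodule.span K (e '' Set.Icc 0 n) ≤ LinearMap.eqLocus (a g) LinearMap.id := by
        refine Submodule.span_le.2 ?_
        rintro _ ⟨k, hk, rfl⟩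
        exact hM.fix k g (mem_Wn.1 hg k hk.1 (hk.2.trans (by exact_mod_cast hm)))
      exact this hl
    rw [← hsl, map_add, hfix, add_sub_add_right_eq_sub]
    exact S.sub_mem (hS g (mem_top g) s hs) hs
  have up : ∀ m : ℤ, U ⊓ Wn H 0 m ≤ Fix a e S hS → U ⊓ Wn H 1 (m + 1) ≤ Fix a e S hS := by
    intro m h u hu
    have e1 : y * (y⁻¹ * u * y) * y⁻¹ = u := by group
    have h1 : y⁻¹ * u * y ∈ Wn H 0 m := by
      rw [conj_wn hM.hsh, e1, zero_add]; exact hu.2
    have h2 := (conj_fix hS hM.sh _).1 (h ⟨hU.conj_mem' u hu.1 y, h1⟩)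
    rwa [e1] at h2
  have down : ∀ m : ℤ, U ⊓ Wn H 1 (m + 1) ≤ Fix a e S hS → U ⊓ Wn H 0 m ≤ Fix a e S hS := by
    intro m h u hu
    have h1 := (conj_wn hM.hsh 0 m u).1 hu.2
    rw [zero_add] at h1
    exact (conj_fix hS hM.sh _).2 (h ⟨hU.conj_mem u hu.1 y, h1⟩)
  have step : ∀ m : ℕ, m₀ ≤ m → U ⊓ Wn H 0 m ≤ Fix a e S hS → U ⊓ Wn H 1 m ≤ Fix a e S hS := by
    intro m hm h u hu j
    obtain ⟨k, hk, hku⟩ := hm₀ m hm u hu
    obtain ⟨N, hN⟩ := hM.uni u hu.1 (e j)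
    have h1 := sup_le h (up m h) hku j
    rw [map_pow] at h1
    exact hUPW K V (a u) S (e j) N k (hS u (mem_top u)) hN hk h1
  have key : ∀ d : ℕ, U ⊓ Wn H 0 (m₀ + d : ℕ) ≤ Fix a e S hS → U ⊓ Wn H 0 m₀ ≤ Fix a e S hS := by
    intro d
    induction d with
    | zero => exact id
    | succ d ih =>
      intro h
      refine ih (down _ ?_)
      have := step (m₀ + (d + 1)) (by omega) h
      rwa [← add_assoc, Nat.cast_succ] at this
  exact fun u hu => step m₀ le_rfl (key n (inf_le_right.trans (base _ (by omega)))) hu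

end Pool.Agent.P.MP_3540e7_al.T7
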