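import Pool.Agent.P.MP_3540e7_al.T7.Iface

/-! Step CFQ. -/

set_option autoImplicit false
set_option linter.unusedSectionVars false

namespace Pool.Agent.P.MP_3540e7_al.T7

open Subgroup T5
open scoped commutatorElement

theorem p_CFQ (hQ0C : T5.S_Q0C) :
    S_CFQ := by
  intro G _ _ N₁ N P _ hP h
  obtain ⟨q1, q2⟩ := hQ0C G P hP
  set π := QuotientGroup.mk' P with hπd
  have hπ : Function.Surjective π := QuotientGroup.mk'_surjective _
  have cm : ∀ E : Set G, (centralizer E).map π ≤ centralizer (π '' E) := by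
    rintro E _ ⟨g, hg, rfl⟩ _ ⟨e, he, rfl⟩
    rw [← map_mul, hg e he, map_mul]
  have lift : ∀ F : Set (G ⧸ P), F.Finite → ¬ Noeth (centralizer F) →
      ∃ E : Set G, E.Finite ∧ π '' E = F ∧ ¬ Noeth (centralizer E) := by
    intro F hF hn
    obtain ⟨E, h1, -, h3⟩ := T5.exists_lift π (R := ⊤) hF
      (by rw [map_top_of_surjective π hπ]; exact Set.subset_univ _)
    exact ⟨E, h1, h3, fun c => hn (h3 ▸ q2 E h1 c)⟩
  refine ⟨q1 h.hc, fun c => h.nn (noeth_of_quot hP c), map_mono h.le, ?_, ?_, ?_, ?_⟩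
  · rw [← map_commutator]; exact map_mono h.cm
  · intro K hK hn
    have e := map_comap_inf π K N₁ hK
    have h1 : Noeth (K.comap π ⊓ N₁) := Noeth.of_map π
      (hP.le (by rw [hπd, QuotientGroup.ker_mk']; exact inf_le_left)) (by rwa [e])
    have := h.pn _ inf_le_right h1
    rw [← e]
    exact Group.nilpotent_of_surjective (π.subgroupMap _) (π.subgroupMap_surjective _)
  · intro F hF hn
    obtain ⟨E, h1, rfl, h3⟩ := lift F hF hn
    have h4 : ((centralizer E ⊔ N).map π).FiniteIndex :=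
      ⟨ne_zero_of_dvd_ne_zero (h.fi E h1 h3).index_ne_zero (index_map_dvd _ hπ)⟩
    refine finiteIndex_of_le (H := (centralizer E ⊔ N).map π) ?_
    rw [Subgroup.map_sup]
    exact sup_le_sup_right (cm E) _
  · intro F hF hn
    obtain ⟨E, h1, rfl, h3⟩ := lift F hF hn
    obtain ⟨x, hx, h4⟩ := h.kx E h1 h3
    refine ⟨π x, ⟨cm E ⟨x, hx.1, rfl⟩, ⟨x, hx.2, rfl⟩⟩, ?_⟩
    have := q2 {x} (Set.finite_singleton x) h4
    rwa [Set.image_singleton] at this

end Pool.Agent.P.MP_3540e7_al.T7
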