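import Pool.Agent.P.MP_3540e7_al.T7.Iface

/-! Step CL. -/

set_option autoImplicit false
set_option linter.unusedSectionVars false

namespace Pool.Agent.P.MP_3540e7_al.T7

open Subgroup T5
open scoped commutatorElement

namespace CLx

theorem prime_step {G : Type} [Group G] (L ρ : Subgroup G) (b : G) (hb : b ∈ L) (hn : b ∉ ρ) :
    ∀ n : ℕ, 0 < n → b ^ n ∈ ρ → ∃ g ∈ L, ∃ p : ℕ, p.Prime ∧ g ^ p ∈ ρ ∧ g ∉ ρ := by
  intro n
  induction n using Nat.strong_induction_on with
  | _ n ih =>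
    intro h0 h1
    by_cases hn1 : n = 1
    · subst hn1
      exact absurd (by simpa using h1) hn
    obtain ⟨p, hp, m, rfl⟩ := Nat.exists_prime_and_dvd hn1
    have hm : 0 < m := Nat.pos_of_mul_pos_left h0
    by_cases hbm : b ^ m ∈ ρ
    · exact ih m (by nlinarith [hp.two_le]) hm hbm
    · exact ⟨b ^ m, pow_mem hb m, p, hp, by rwa [← pow_mul, mul_comm], hbm⟩

end CLx

theorem p_CL (hCT : S_CT) (hCFQ : S_CFQ) (hRED : S_RED) (hLPX : S_LPX) (hRHO : S_RHO) :
    S_CL := by
  intro G _ _ N₁ N L _ _ _ hcf hL hpc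
  obtain ⟨ρ, hρn, hρ, hρpc, hmax⟩ := hRHO G
  by_cases htf : Tf L (ρ ⊓ L)
  · have hcm : ⁅L, L⁆ ≤ ρ ⊓ L := le_inf (hmax _ hpc) (commutator_le_left L L)
    exact hRED G N₁ N L (ρ ⊓ L) hcf hL
      ⟨inf_le_right, hcm, hρpc.mono inf_le_left, hLPX G L ⁅L, L⁆ le_rfl hpc, hcf.pn.mono hL⟩
      (Or.inr htf)
  · exfalso
    unfold Tf at htf
    push Not at htf
    obtain ⟨b, hb, n, hn, h1, h2⟩ := htf
    obtain ⟨g, hg, p, hp, h3, h4⟩ :=
      CLx.prime_step L ρ b hb (fun h => h2 ⟨h, hb⟩) n hn h1.1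
    have hP : Noeth (normalClosure {g ^ p}) := (hρ _).1 h3
    have hs := QuotientGroup.mk'_surjective (normalClosure {g ^ p})
    have := Normal.map (inferInstance : N₁.Normal) _ hs
    have := Normal.map (inferInstance : N.Normal) _ hs
    have := Normal.map (inferInstance : L.Normal) _ hs
    have h5 := hCT (G ⧸ normalClosure {g ^ p}) _ _
      (L.map (QuotientGroup.mk' (normalClosure {g ^ p})))
      (QuotientGroup.mk' (normalClosure {g ^ p}) g) p
      (hCFQ G N₁ N _ hP hcf) (map_mono hL)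
      (by rw [← map_commutator]; exact hpc.map _ hs) (mem_map_of_mem _ hg) hp
      (by
        rw [← map_pow, QuotientGroup.mk'_apply, QuotientGroup.eq_one_iff]
        exact subset_normalClosure rfl)
    refine h4 ((hρ g).2 (Noeth.of_map (QuotientGroup.mk' (normalClosure {g ^ p})) ?_ ?_))
    · refine hP.le (inf_le_left.trans ?_)
      rw [QuotientGroup.ker_mk']
    · rw [map_normalClosure _ _ hs, Set.image_singleton]
      exact h5

end Pool.Agent.P.MP_3540e7_al.T7
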