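import Pool.Agent.P.MP_3540e7_al.T7.Iface

/-! Step COK. -/

set_option autoImplicit false
set_option linter.unusedSectionVars false

namespace Pool.Agent.P.MP_3540e7_al.T7

open Subgroup T5
open scoped commutatorElement

theorem p_COK :
    S_COK := by
  intro K _ V _ _ φ h0 hk
  have hW : ∀ U : Submodule K V, FiniteDimensional K U →
      ∃ W : Submodule K V, U ≤ W ∧ FiniteDimensional K W ∧ ∀ w ∈ W, φ w ∈ W := by
    intro U hU
    refine Submodule.fg_induction (motive := fun U _ => ∃ W : Submodule K V, U ≤ W ∧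
      FiniteDimensional K W ∧ ∀ w ∈ W, φ w ∈ W) (fun v => ?_) ?_ U (Module.Finite.iff_fg.1 hU)
    · obtain ⟨S, h1, h2, h3⟩ := h0 v
      exact ⟨S, (Submodule.span_singleton_le_iff_mem _ _).2 h2, h1, h3⟩
    · rintro A B _ _ ⟨S, h1, h2, h3⟩ ⟨T, k1, k2, k3⟩
      refine ⟨S ⊔ T, sup_le_sup h1 k1, inferInstance, fun w hw => ?_⟩
      obtain ⟨a, ha, b, hb, rfl⟩ := Submodule.mem_sup.1 hw
      rw [map_add]
      exact Submodule.add_mem_sup (h3 a ha) (k3 b hb)
  obtain ⟨q, hq⟩ := Submodule.exists_isCompl (LinearMap.range φ)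
  refine ⟨q, ?_, by rw [sup_comm]; exact hq.sup_eq_top⟩
  have key : ∀ U : Submodule K V, FiniteDimensional K U → U ≤ q →
      Module.finrank K U ≤ Module.finrank K (LinearMap.ker φ) := by
    intro U hU hUq
    obtain ⟨W, h1, h2, h3⟩ := hW U hU
    have h4 := LinearMap.finrank_range_add_finrank_ker (φ.domRestrict W)
    rw [LinearMap.range_domRestrict] at h4
    have h5 : Module.finrank K (LinearMap.ker (φ.domRestrict W)) ≤
        Module.finrank K (LinearMap.ker φ) := by
      rw [← Submodule.finrank_map_subtype_eq]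
      refine Submodule.finrank_mono ?_
      rintro _ ⟨x, hx, rfl⟩
      exact hx
    have h6 := Submodule.finrank_sup_add_finrank_inf_eq U (W.map φ)
    have h7 : U ⊓ W.map φ = ⊥ :=
      (hq.symm.disjoint.mono hUq LinearMap.map_le_range).eq_bot
    have h8 : Module.finrank K ↥(U ⊔ W.map φ) ≤ Module.finrank K W :=
      Submodule.finrank_mono (sup_le h1 (by rintro _ ⟨x, hx, rfl⟩; exact h3 x hx))
    rw [h7, finrank_bot] at h6
    omega
  refine Module.rank_lt_aleph0_iff.1 ((rank_le (n := Module.finrank K (LinearMap.ker φ))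
    fun s hs => ?_).trans_lt Cardinal.natCast_lt_aleph0)
  have h1 := key ((Submodule.span K (s : Set q)).map q.subtype) inferInstance
    (Submodule.map_subtype_le _ _)
  rwa [Submodule.finrank_map_subtype_eq, finrank_span_finset_eq_card hs] at h1

end Pool.Agent.P.MP_3540e7_al.T7
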