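import Pool.Agent.P.MP_3540e7_al.T7.Iface

/-! Step CORE. -/

set_option autoImplicit false
set_option linter.unusedSectionVars false

namespace Pool.Agent.P.MP_3540e7_al.T7

open Subgroup T5
open scoped commutatorElement

theorem p_CORE (hCL : S_CL) (hB : T5.S_B) :
    S_CORE := by
  intro G _ _ N₁ N _ _ h
  obtain ⟨d, hd⟩ := exists_der_eq_bot N₁
  have top : PC (der N₁ d) := by
    rw [hd]
    exact fun F _ hF => RN.of_le (normalClosure_le_normal hF)
  have pc : PC (der N₁ 0) := Nat.decreasingInduction (motive := fun k _ => PC (der N₁ k))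
    (fun k _ ih => hCL G N₁ N (der N₁ k) h (der_le N₁ k) ih) top (Nat.zero_le d)
  have e : centralizer (∅ : Set G) = ⊤ := by
    ext
    simp [mem_centralizer_iff]
  obtain ⟨x, hx, hn⟩ := h.kx ∅ Set.finite_empty (e ▸ h.nn)
  exact h.nn (hB G N₁ N h.hc h.cm pc {x} (Set.finite_singleton x)
    (Set.singleton_subset_iff.2 hx.2) hn)

end Pool.Agent.P.MP_3540e7_al.T7
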