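import Pool.Agent.P.MP_3540e7_al.T7.Iface

/-! Step CT. -/

set_option autoImplicit false
set_option linter.unusedSectionVars false

namespace Pool.Agent.P.MP_3540e7_al.T7

open Subgroup T5
open scoped commutatorElement

theorem p_CT (hRED : S_RED) (hLPX : S_LPX) (hTORL : S_TORL) :
    S_CT := by
  intro G _ _ N₁ N L _ _ _ g p hC hL hP hg hp hgp
  have h1 : normalClosure {g} ≤ L := normalClosure_le_normal (Set.singleton_subset_iff.2 hg)
  have h2 : PC ⁅normalClosure ({g} : Set G), normalClosure {g}⁆ := hP.mono (commutator_mono h1 h1)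
  have h3 : LP (normalClosure ({g} : Set G)) := hLPX G _ _ le_rfl h2
  have h4 : PN (normalClosure ({g} : Set G)) := hC.pn.mono (h1.trans hL)
  have h5 : ∀ s ∈ orb ⊤ ({g} : Set G), s ^ p = 1 := by
    rintro _ ⟨x, -, _, rfl, rfl⟩
    rw [conj_pow, hgp, mul_one, mul_inv_cancel]
  refine hRED G N₁ N _ _ hC (h1.trans hL) ⟨commutator_le_left _ _, le_rfl, h2, h3, h4⟩
    (Or.inl ⟨p, hp, fun b hb => ?_, fun b hb => ?_⟩) {g} (Set.finite_singleton g)
    subset_normalClosure
  · have := hTORL G _ (orb ⊤ {g}) h3 h4 (orb_subset _ subset_normalClosure)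
      (fun s hs => isOfFinOrder_iff_pow_eq_one.2 ⟨p, hp.pos, h5 s hs⟩) b
      (by rwa [closure_orb_top])
    obtain ⟨n, hn, e⟩ := isOfFinOrder_iff_pow_eq_one.1 this
    exact ⟨n, hn, mem_bot.2 e⟩
  · rw [← QuotientGroup.eq_one_iff, QuotientGroup.mk_pow]
    rw [← closure_orb_top] at hb
    induction hb using closure_induction with
    | mem x hx => rw [← QuotientGroup.mk_pow, h5 x hx, QuotientGroup.mk_one]
    | one => rw [QuotientGroup.mk_one, one_pow]
    | mul x y hx hy ihx ihy =>
      rw [closure_orb_top] at hx hy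
      have c : Commute (x : G ⧸ ⁅normalClosure ({g} : Set G), normalClosure {g}⁆) y := by
        rw [← commutatorElement_eq_one_iff_commute]
        exact (QuotientGroup.eq_one_iff _).2 (commutator_mem_commutator hx hy)
      rw [QuotientGroup.mk_mul, c.mul_pow, ihx, ihy, mul_one]
    | inv x _ ih => rw [QuotientGroup.mk_inv, inv_pow, ih, inv_one]

end Pool.Agent.P.MP_3540e7_al.T7
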