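import Pool.Agent.P.MP_3540e7_al.T7.Iface

/-! Step CWS. -/

set_option autoImplicit false
set_option linter.unusedSectionVars false

namespace Pool.Agent.P.MP_3540e7_al.T7

open Subgroup T5
open scoped commutatorElement

namespace CWSx

variable {G : Type} [Group G]

theorem cm_sub {A B : Subgroup G} (h : ⁅A, A⁆ ≤ B) (X : Subgroup G) :
    ⁅A.subgroupOf X, A.subgroupOf X⁆ ≤ B.subgroupOf X := by
  rw [commutator_le]
  intro a ha b hb
  have := h (commutator_mem_commutator (mem_subgroupOf.1 ha) (mem_subgroupOf.1 hb))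
  rw [mem_subgroupOf]
  simpa [commutatorElement_def] using this

theorem map_orb {Γ X : Subgroup G} (h : Γ ≤ X) (v : X) :
    (closure (orb (Γ.subgroupOf X) {v})).map X.subtype = closure (orb Γ {(v : G)}) := by
  rw [MonoidHom.map_closure]
  congr 1
  ext g
  constructor
  · rintro ⟨_, ⟨a, ha, _, rfl, rfl⟩, rfl⟩
    exact ⟨a, ha, _, rfl, rfl⟩
  · rintro ⟨a, ha, _, rfl, rfl⟩
    exact ⟨_, ⟨⟨a, h ha⟩, ha, _, rfl, rfl⟩, rfl⟩

theorem noeth_map {X : Subgroup G} {K : Subgroup X} : Noeth (K.map X.subtype) ↔ Noeth K := by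
  refine ⟨fun h => ?_, fun h => h.map _⟩
  have h1 : Noeth ((K.map X.subtype).subgroupOf X) := noeth_subgroupOf.2 (h.le inf_le_right)
  rwa [subgroupOf, comap_map_eq_self_of_injective X.subtype_injective] at h1

theorem cen {X : Subgroup G} (v : X) :
    centralizer {v} = (centralizer {(v : G)}).subgroupOf X := by
  rw [centralizer_subgroupOf, Set.image_singleton]

theorem inf_sub (A B X : Subgroup G) :
    A.subgroupOf X ⊓ B.subgroupOf X = (A ⊓ B).subgroupOf X := (comap_inf A B X.subtype).symm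

end CWSx

theorem p_CWS :
    S_CWS := by
  intro G _ N₁ N W R J X w hJ hW h
  refine ⟨⟨comap_mono h.ly.le, CWSx.cm_sub h.ly.cm X, h.ly.pc.subgroupOf X, h.ly.lp.subgroupOf X,
    h.ly.pn.subgroupOf X⟩, comap_mono h.wle, comap_mono h.le, CWSx.cm_sub h.cm X,
    h.pn.subgroupOf X, h.mem, ?_, ?_, ?_, ?_, ?_⟩
  · intro hn
    exact h.nn (CWSx.map_orb hJ w ▸ CWSx.noeth_map.2 hn)
  · exact fg_subgroupOf (by rw [inf_eq_right.2 hJ]; exact h.fg)
  · intro v hv
    rw [CWSx.cen, CWSx.inf_sub, ← CWSx.noeth_map, CWSx.map_orb (inf_le_left.trans hJ)]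
    exact h.bd v hv
  · rw [CWSx.cen, CWSx.inf_sub, CWSx.inf_sub,
      ← subgroupOf_sup (inf_le_left.trans hJ) (inf_le_left.trans hJ), relIndex_subgroupOf hJ]
    exact h.fi
  · intro F hF hFW
    obtain ⟨x, hx, hn⟩ := h.kx ((↑) '' F) (hF.image _) (by rintro _ ⟨a, ha, rfl⟩; exact hFW ha)
    refine ⟨⟨x, hJ hx.1.1⟩, ⟨⟨hx.1.1, hx.1.2⟩, ?_⟩, ?_⟩
    · rw [centralizer_subgroupOf]
      exact hx.2
    · rw [CWSx.cen]
      exact noeth_subgroupOf.2 (hn.le inf_le_right)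

end Pool.Agent.P.MP_3540e7_al.T7
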