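import Pool.Agent.P.MP_3540e7_al.T7.Iface

/-! Step CYC. -/

set_option autoImplicit false
set_option linter.unusedSectionVars false

namespace Pool.Agent.P.MP_3540e7_al.T7

open Subgroup T5
open scoped commutatorElement

theorem p_CYC :
    S_CYC := by
  intro G _ T y hy
  have hz : zpowers y ≤ normalizer (T : Set G) := (zpowers_le).2 hy
  rw [sup_comm, commutator_le]
  intro a ha b hb
  obtain ⟨x, hx, m, hm, rfl⟩ := (mem_sup_norm hz).1 ha
  obtain ⟨x', hx', m', hm', rfl⟩ := (mem_sup_norm hz).1 hb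
  have hc : x * x' * x⁻¹ = x' := by
    obtain ⟨i, rfl⟩ := hx
    obtain ⟨j, rfl⟩ := hx'
    simp only
    group
  have h1 := (mem_normalizer_iff.1 (hz hx) m).1 hm
  have h2 := (mem_normalizer_iff.1 (hz (mul_mem hx hx')) _).1 (mul_mem hm' (inv_mem hm))
  have h3 := (mem_normalizer_iff.1 (hz hx') _).1 (inv_mem hm')
  have e : ⁅x * m, x' * m'⁆ = x * m * x⁻¹ * (x * x' * (m' * m⁻¹) * (x * x')⁻¹) *
      (x * x' * x⁻¹ * m'⁻¹ * x'⁻¹) := by
    rw [commutatorElement_def]; group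
  rw [e, hc]
  exact mul_mem (mul_mem h1 h2) h3

end Pool.Agent.P.MP_3540e7_al.T7
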