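import Pool.Agent.P.MP_3540e7_al.T7.Iface

/-! Step END. -/

set_option autoImplicit false
set_option linter.unusedSectionVars false

namespace Pool.Agent.P.MP_3540e7_al.T7

open Subgroup T5
open scoped commutatorElement

theorem p_END (hY : S_Y) (hLFDT : S_LFDT) (hUNI : S_UNI) (hFRK : S_FRK) (hREL1 : S_REL1) (hREL2 : S_REL2) (hMT : S_MT) (hCYC : S_CYC) (hWND : S_WND) :
    S_END := by
  intro G _ _ K _ V _ _ a ι N₁ N W R J _ _ _ _ w hC hR hF hL hT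
  obtain ⟨y, hy, T, hTle, hLB, hyn, hcen, hnb⟩ := hY G N₁ N W R J w hC
  obtain ⟨w₀, hw₀, hnn⟩ : ∃ v ∈ W, ¬ Noeth (closure (orb (zpowers y) {v})) := by
    by_contra h
    exact hnb fun v hv => by_contra fun h' => h ⟨v, hv, h'⟩
  obtain ⟨H, h1, h2, h3, h4, h5⟩ := hWND G N₁ N W R J T w w₀ y _ hC hT hw₀ hy hTle hyn hcen
  have hm : ∀ j, cj y j w₀ ∈ W := fun j => cj_mem y j hw₀
  have hD : T ⊔ zpowers y ≤ N := sup_le (hTle.trans inf_le_right) (zpowers_le.2 hy.2)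
  refine hMT G K V a (T ⊔ zpowers y) T (T ⊓ N₁) y (fun j => ι (cj y j w₀)) H
    ⟨inf_le_left, le_sup_left, mem_sup_right (mem_zpowers y),
      le_inf (hCYC G T y hyn) ((commutator_mono hD hD).trans hC.cm),
      hLFDT G K V a ι W R T hR hLB,
      hUNI G K V a ι W R N₁ _ hR hC.wle inf_le_right hC.pn (hLB.mono inf_le_left),
      fun j => ?_, ?_, h1, h2, fun j g hg => ?_, fun i j => ?_, h5⟩
  · rw [cj_succ, hR.conj y _ (hm j)]
  · by_contra h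
    obtain ⟨i, j, hij, e1, e2⟩ := hREL2 K V _ h
    have key : ∀ (I : Set ℤ) (l : ℤ),
        ι (cj y l w₀) ∈ Submodule.span K ((fun j => ι (cj y j w₀)) '' I) →
        ∃ k : ℕ, (k : K) ≠ 0 ∧ cj y l w₀ ^ k ∈ closure ((fun l => cj y l w₀) '' I) ⊔ R :=
      fun I l e => hREL1 G K V a ι W R _ _ hR (by rintro _ ⟨l, -, rfl⟩; exact hm l) (hm l)
        (by rwa [Set.image_image])
    obtain ⟨k, hk, f1⟩ := key _ _ e1
    obtain ⟨k', hk', f2⟩ := key _ _ e2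
    exact hnn (hL y w₀ hw₀ i j k k' hk hk' ⟨hij, f1, f2⟩)
  · rw [← hR.conj g _ (hm j), ← mem_centralizer_iff.1 (h3 j hg) _ rfl, mul_inv_cancel_right]
  · obtain ⟨x, hx, hn⟩ := h4 i j
    exact ⟨x, hx, hFRK G K V a ι W R hR hC.ly.le hF x hn⟩

end Pool.Agent.P.MP_3540e7_al.T7
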