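import Pool.Agent.P.MP_3540e7_al.T7.Iface

/-! Step EQ. -/

set_option autoImplicit false
set_option linter.unusedSectionVars false

namespace Pool.Agent.P.MP_3540e7_al.T7

open Subgroup T5
open scoped commutatorElement

theorem p_EQ (hFLAG : S_FLAG) :
    S_EQ := by
  intro G _ _ K _ V _ _ a T U X _ S g g' hU hL hXT hS hg hg' hu hI s hs hfix
  have hΓ : closure ({g, g'} : Set G) ≤ X := (closure_le _).2 (by
    rintro x (rfl | rfl)
    · exact hg
    · exact hg')
  have hgΓ : g ∈ closure ({g, g'} : Set G) := subset_closure (Or.inl rfl)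
  have hg'Γ : g' ∈ closure ({g, g'} : Set G) := subset_closure (Or.inr rfl)
  obtain ⟨S₁, hfd, hs₁, hI₁⟩ := hL {g, g'} (Set.toFinite _)
    (fun x hx => hXT (hΓ (subset_closure hx))) s
  have hfd' : FiniteDimensional K (S₁ ⊓ S : Submodule K V) :=
    Submodule.finiteDimensional_inf_left S₁ S
  obtain ⟨n, M, h0, hn, hle, hiv, hfl⟩ := hFLAG G K V a U (closure {g, g'}) (S₁ ⊓ S) hU hfd'
    (hI₁.inf (hS.mono hΓ))
  have step : ∀ i, s ∈ M (i + 1) → s ∈ M i := by
    intro i hi
    have h1 : a (g⁻¹ * g') s - s ∈ M i := hfl i _ (mem_inf.2 ⟨hu, mul_mem (inv_mem hgΓ) hg'Γ⟩) s hi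
    have h2 : a g s - s ∈ M i := by
      have e : a g s - s = - a g (a (g⁻¹ * g') s - s) := by
        rw [map_sub, ← a_mul, mul_inv_cancel_left, hfix, neg_sub]
      rw [e]
      exact neg_mem (hiv i g hgΓ _ h1)
    have : FiniteDimensional K (M i) := Submodule.finiteDimensional_of_le (hle i)
    let f : M i →ₗ[K] M i := (a g - 1).restrict fun v hv => sub_mem (hiv i g hgΓ v hv) hv
    have hf : Function.Injective f := by
      rw [injective_iff_map_eq_zero]
      intro v hv
      have h3 : a g v - v = 0 := congrArg Subtype.val hv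
      exact Subtype.ext (hI v (hle i v.2).2 (sub_eq_zero.1 h3))
    obtain ⟨m, hm⟩ := LinearMap.injective_iff_surjective.1 hf ⟨_, h2⟩
    have h4 : a g m - m = a g s - s := congrArg Subtype.val hm
    have h5 : s - m = 0 := hI _ (sub_mem hs (hle i m.2).2) (by
      rw [map_sub]; linear_combination (norm := abel) -h4)
    rw [sub_eq_zero.1 h5]
    exact m.2
  have desc : ∀ i, s ∈ M i → s ∈ M 0 := by
    intro i
    induction i with
    | zero => exact id
    | succ i ih => exact fun h => ih (step i h)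
  have := desc n (hn ▸ ⟨hs₁, hs⟩)
  rwa [h0, Submodule.mem_bot] at this

end Pool.Agent.P.MP_3540e7_al.T7
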