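import Pool.Agent.P.MP_3540e7_al.T7.Iface

/-! Step FLAG. -/

set_option autoImplicit false
set_option linter.unusedSectionVars false

namespace Pool.Agent.P.MP_3540e7_al.T7

open Subgroup T5
open scoped commutatorElement

namespace FLAGx

variable {G : Type} [Group G] {K : Type} [Field K] {V : Type} [AddCommGroup V] [Module K V]

/-- the next term of the flag -/
def nx (a : G →* Module.End K V) (U : Subgroup G) (S M : Submodule K V) : Submodule K V where
  carrier := {v | v ∈ S ∧ ∀ u ∈ U, a u v - v ∈ M}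
  add_mem' := fun {v w} hv hw => ⟨S.add_mem hv.1 hw.1, fun u hu => by
    rw [map_add, add_sub_add_comm]
    exact M.add_mem (hv.2 u hu) (hw.2 u hu)⟩
  zero_mem' := ⟨S.zero_mem, fun u _ => by simp⟩
  smul_mem' := fun c v hv => ⟨S.smul_mem c hv.1, fun u hu => by
    rw [map_smul, ← smul_sub]
    exact M.smul_mem c (hv.2 u hu)⟩

/-- the flag -/
def fl (a : G →* Module.End K V) (U : Subgroup G) (S : Submodule K V) : ℕ → Submodule K V
  | 0 => ⊥
  | i + 1 => nx a U S (fl a U S i)

end FLAGx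

open FLAGx in
theorem p_FLAG (hSU : S_SU) :
    S_FLAG := by
  intro G _ _ K _ V _ _ a U Γ hU S hu hS hI
  have le : ∀ i, fl a (U ⊓ Γ) S i ≤ S := fun i => by
    cases i with
    | zero => exact bot_le
    | succ i => exact fun v hv => hv.1
  have iv : ∀ i, Iv a Γ (fl a (U ⊓ Γ) S i) := fun i => by
    induction i with
    | zero =>
      intro g _ v hv
      rw [(Submodule.mem_bot K).1 hv, map_zero]
      exact zero_mem _
    | succ i ih =>
      intro g hg v hv
      refine ⟨hI g hg v hv.1, fun u hu => ?_⟩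
      have h1 : g⁻¹ * u * g ∈ U ⊓ Γ :=
        ⟨by simpa using hU.conj_mem u hu.1 g⁻¹, Γ.mul_mem (Γ.mul_mem (Γ.inv_mem hg) hu.2) hg⟩
      have h2 := ih g hg _ (hv.2 _ h1)
      rwa [map_sub, a_mul, a_mul, a_apply_inv] at h2
  have mo : ∀ i, fl a (U ⊓ Γ) S i ≤ fl a (U ⊓ Γ) S (i + 1) := fun i v hv =>
    ⟨le i hv, fun u hu => sub_mem (iv i u hu.2 v hv) hv⟩
  have key : ∀ i, fl a (U ⊓ Γ) S i = S ∨ i ≤ Module.finrank K (fl a (U ⊓ Γ) S i) := fun i => by
    induction i with
    | zero => exact Or.inr (Nat.zero_le _)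
    | succ i ih =>
      by_cases h : fl a (U ⊓ Γ) S i = S
      · exact Or.inl (le_antisymm (le _) (h.ge.trans (mo i)))
      · obtain ⟨s, hs, hs', h3⟩ := hSU G K V a (U ⊓ Γ) _ S (fun u hu' => hu u hu'.1) (le i) h hS
          ((iv i).mono inf_le_right) (hI.mono inf_le_right)
        have := Submodule.finiteDimensional_of_le (le (i + 1))
        have h4 : fl a (U ⊓ Γ) S i < fl a (U ⊓ Γ) S (i + 1) :=
          lt_of_le_of_ne (mo i) fun e => hs' (e ▸ (⟨hs, h3⟩ : s ∈ fl a (U ⊓ Γ) S (i + 1)))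
        exact Or.inr ((Nat.succ_le_succ (ih.resolve_left h)).trans
          (Submodule.finrank_lt_finrank_of_lt h4))
  refine ⟨Module.finrank K S, fl a (U ⊓ Γ) S, rfl, ?_, le, iv, fun i u hu v hv => hv.2 u hu⟩
  rcases key (Module.finrank K S) with h | h
  · exact h
  · exact Submodule.eq_of_le_of_finrank_le (le _) h

end Pool.Agent.P.MP_3540e7_al.T7
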