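import Pool.Agent.P.MP_3540e7_al.T7.Iface

/-! Step FREE. -/

set_option autoImplicit false
set_option linter.unusedSectionVars false

namespace Pool.Agent.P.MP_3540e7_al.T7

open Subgroup T5
open scoped commutatorElement

theorem p_FREE :
    S_FREE := by
  classical
  intro K _ V _ _ φ e S he hφ hS hinv
  obtain ⟨r, hr⟩ := (Finsupp.linearCombination K e).exists_leftInverse_of_injective
    (LinearMap.ker_eq_bot.2 he)
  obtain ⟨t, ht⟩ : (S.map r).FG := (Module.Finite.iff_fg.1 hS).map r
  have hF : S.map r ≤ Finsupp.supported K K (t.biUnion Finsupp.support : Finset ℤ) := by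
    rw [← ht, Submodule.span_le]
    intro x hx
    exact (Finsupp.mem_supported K x).2 (Finset.coe_subset.2 (Finset.subset_biUnion_of_mem _ hx))
  have hsh : ∀ l : ℤ →₀ K, φ (Finsupp.linearCombination K e l) =
      Finsupp.linearCombination K e (l.mapDomain fun j => j + 1) := fun l => by
    rw [Finsupp.apply_linearCombination, Finsupp.linearCombination_mapDomain]
    exact congrArg (fun f => Finsupp.linearCombination K f l) (funext hφ)
  rw [eq_bot_iff]
  rintro v ⟨hv, hv'⟩
  rw [← Finsupp.range_linearCombination] at hv'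
  obtain ⟨l, rfl⟩ := hv'
  by_contra h0
  have hl : l ≠ 0 := fun h => h0 (by rw [h, map_zero]; exact Submodule.zero_mem _)
  obtain ⟨j, hj⟩ := Finsupp.support_nonempty_iff.2 hl
  have key : ∀ n : ℕ, ∃ l' : ℤ →₀ K, Finsupp.linearCombination K e l' ∈ S ∧ l' (j + n) ≠ 0 := by
    intro n
    induction n with
    | zero => exact ⟨l, hv, by simpa using hj⟩
    | succ n ih =>
      obtain ⟨l', h1, h2⟩ := ih
      refine ⟨l'.mapDomain fun j => j + 1, hsh l' ▸ hinv _ h1, ?_⟩
      rw [Nat.cast_succ, ← add_assoc,
        Finsupp.mapDomain_apply (f := fun j : ℤ => j + 1) (add_left_injective 1)]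
      exact h2
  refine Set.infinite_of_injective_forall_mem (f := fun n : ℕ => j + n)
    (fun a b h => by simpa using h) (fun n => ?_) (t.biUnion Finsupp.support).finite_toSet
  obtain ⟨l', h1, h2⟩ := key n
  have h3 : l' ∈ S.map r := ⟨_, h1, LinearMap.congr_fun hr l'⟩
  exact (Finsupp.mem_supported K l').1 (hF h3) (Finsupp.mem_support_iff.2 h2)

end Pool.Agent.P.MP_3540e7_al.T7
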