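import Pool.Agent.P.MP_3540e7_al.T7.Iface

/-! Step FRK. -/

set_option autoImplicit false
set_option linter.unusedSectionVars false

namespace Pool.Agent.P.MP_3540e7_al.T7

open Subgroup T5
open scoped commutatorElement

theorem p_FRK :
    S_FRK := by
  intro G _ K _ V _ _ a ι W R hW _ h hR hF x hx
  obtain ⟨T, hT, hTW, H⟩ := hF x hx
  have := FiniteDimensional.span_of_finite K (hT.image ι)
  refine Submodule.finiteDimensional_of_le (S₂ := Submodule.span K (ι '' T)) fun v hv => ?_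
  obtain ⟨n, hn, b, hb, e⟩ := h.span v
  have hv' : a x v = v := sub_eq_zero.1 (LinearMap.mem_ker.1 hv)
  have h1 := hW.conj_mem b hb x
  have h2 : ⁅x, b⁆ ∈ R := by
    rw [commutatorElement_def, ← h.ker _ (mul_mem h1 (inv_mem hb)), h.add _ h1 _ (inv_mem hb),
      h.conj x b hb, h.inv hb, ← e, map_smul, hv', add_neg_cancel]
  obtain ⟨k, hk, h3⟩ := H b hb h2
  obtain ⟨t, ht, r, hr, e'⟩ := (mem_sup_norm le_norm_top).1 h3
  refine mem_of_smul_mem hn (e ▸ mem_of_smul_mem hk ?_)
  rw [← h.pow hb, ← e', h.add t ((closure_le _).2 hTW ht) r (hR hr), (h.ker r (hR hr)).2 hr,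
    add_zero]
  exact h.mem_span hTW ht

end Pool.Agent.P.MP_3540e7_al.T7
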