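import Pool.Agent.P.MP_3540e7_al.T7.Iface

/-! Step FRP. -/

set_option autoImplicit false
set_option linter.unusedSectionVars false

namespace Pool.Agent.P.MP_3540e7_al.T7

open Subgroup T5
open scoped commutatorElement

theorem p_FRP (hCNT : T5.S_CNT) (hFIN : T5.S_FIN) :
    S_FRP := by
  intro G _ _ W R _ _ ok hL hP h1 x hx
  have fin : ∀ P : Subgroup G, P ≤ W → Noeth P → Finite P := fun P hW hn => by
    have := hFIN G ⊥ P hn fun g hg => hP g (hW hg)
    rw [relIndex_bot_left] at this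
    exact Nat.finite_of_card_ne_zero this
  have hc := hCNT G R x
    (fun F hF hR => fin _ ((normalClosure_le_normal hR).trans hL.le) (hL.pc F hF hR))
    (fin _ (inf_le_right.trans hL.le) (hx.le inf_le_left))
  have hs : (centralizer {x} ⊔ R).relIndex (W ⊓ CM R x) ≠ 0 :=
    fun e => hc (relIndex_eq_zero_of_le_right inf_le_right e)
  obtain ⟨T, hT, hTS, h⟩ := relIndex_ne_zero_iff.1 hs
  have hf : Finite ↥(centralizer {x} ⊓ W) := fin _ inf_le_right (hx.le inf_le_left)
  refine ⟨T ∪ (centralizer {x} ⊓ W : Subgroup G), hT.union (Set.toFinite _),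
    Set.union_subset (fun t ht => (hTS ht).1) fun t ht => ht.2, fun b hb hxb => ⟨1, h1, ?_⟩⟩
  obtain ⟨t, ht, hm⟩ := h b ⟨hb, mem_CM.2 hxb⟩
  obtain ⟨c, hc', r, hr, e⟩ := (mem_sup_norm (le_normalizer_of_normal)).1 hm
  have hcW : c ∈ W := by
    have : c = t⁻¹ * b * r⁻¹ := by rw [← e]; group
    rw [this]
    exact mul_mem (mul_mem (inv_mem (hTS ht).1) hb) (inv_mem (hL.le hr))
  have : b = t * c * r := by rw [mul_assoc, e]; group
  rw [pow_one, this]
  exact mul_mem (mem_sup_left (mul_mem (subset_closure (Or.inl ht))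
    (subset_closure (Or.inr ⟨hc', hcW⟩)))) (mem_sup_right hr)

end Pool.Agent.P.MP_3540e7_al.T7
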