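import Pool.Agent.P.MP_3540e7_al.T7.Iface

/-! Step HF. -/

set_option autoImplicit false
set_option linter.unusedSectionVars false

namespace Pool.Agent.P.MP_3540e7_al.T7

open Subgroup T5
open scoped commutatorElement

namespace HFx

variable {G : Type} [Group G]

theorem gam_eq (L : Subgroup G) : ∀ j, gam L j = L.lowerCentralSeries j
  | 0 => rfl
  | j + 1 => by rw [gam_succ, Subgroup.lowerCentralSeries_succ, gam_eq L j]

theorem hl_sub {K X : Subgroup G} (h : K ≤ X) : hl (K.subgroupOf X) = hl K := by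
  rw [← hl_map_injective X.subtype_injective, map_subgroupOf_eq_of_le h]

end HFx

theorem p_HF (hHF0 : S_HF0) :
    S_HF := by
  intro G _ _ Q P hP x hPQ hQ hn hx
  have hX : Q ≤ normalizer (Q : Set G) := le_normalizer
  have xm : x ∈ normalizer (Q : Set G) := mem_normalizer_iff.2 fun h =>
    ⟨fun e => by simpa [commutatorElement_def] using Q.mul_mem (hPQ (hx h e)) e, fun e => by
      have := Q.mul_mem (hPQ (hP.conj_mem _ (P.inv_mem (hx _ e)) x⁻¹)) e
      rwa [show x⁻¹ * ⁅x, x * h * x⁻¹⁆⁻¹ * x⁻¹⁻¹ * (x * h * x⁻¹) = h by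
        rw [commutatorElement_def]; group] at this⟩
  obtain ⟨c, hc⟩ := (isNilpotent_iff_lowerCentralSeries Q).1 hn
  have := hP.subgroupOf (normalizer (Q : Set G))
  have key := hHF0 (normalizer (Q : Set G)) (Q.subgroupOf _) (P.subgroupOf _) ⟨x, xm⟩ c
    (comap_mono hPQ) (noeth_subgroupOf.2 (hQ.le inf_le_right))
    (by
      rw [← map_subtype_inj, gam_map, map_subgroupOf_eq_of_le hX, HFx.gam_eq, hc, Subgroup.map_bot])
    fun g hg => hx g hg
  rw [centralizer_subgroupOf, Set.image_singleton] at key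
  rw [← HFx.hl_sub hX, ← HFx.hl_sub (hPQ.trans hX), ← HFx.hl_sub (inf_le_left.trans hX)]
  exact key

end Pool.Agent.P.MP_3540e7_al.T7
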