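import Pool.Agent.P.MP_3540e7_al.T7.Iface

/-! Step HF0. -/

set_option autoImplicit false
set_option linter.unusedSectionVars false

namespace Pool.Agent.P.MP_3540e7_al.T7

open Subgroup T5
open scoped commutatorElement

namespace HF0x

theorem step {G : Type} [Group G] [Group.IsSolvable G] {Q P : Subgroup G} [Q.Normal] [P.Normal]
    (hPQ : P ≤ Q) (hQ : Noeth Q) (x : G) : ∀ j,
    hl (Q ⊓ CM (P ⊓ gam Q 0) x : Subgroup G) + hl (P ⊓ gam Q j : Subgroup G) ≤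
      hl (Q ⊓ CM (P ⊓ gam Q j) x : Subgroup G) + hl (P ⊓ gam Q 0 : Subgroup G)
  | 0 => le_rfl
  | j + 1 => by
    have ih := step hPQ hQ x j
    have hb : ∀ X ≤ Q, Bdd X := fun X hX => hQ.bdd.le hX
    let Z := P ⊓ gam Q j
    let Z' := P ⊓ gam Q (j + 1)
    change _ + hl Z ≤ hl (Q ⊓ CM Z x) + _ at ih
    change _ + hl Z' ≤ hl (Q ⊓ CM Z' x) + _
    have hd : ∀ g ∈ Q ⊓ CM Z x, ∀ g' ∈ Q ⊓ CM Z x, ⁅g, ⁅x, g'⁆⁆ ∈ Z' := by
      intro g hg g' hg'
      have h1 := mem_CM.1 hg'.2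
      refine ⟨comm_mem_right h1.1 g, ?_⟩
      rw [SetLike.mem_coe, gam_succ, commutator_comm]
      exact commutator_mem_commutator hg.1 h1.2
    have hZ : Z ≤ Q := inf_le_left.trans hPQ
    have h1 := hl_add' (delta Z' _ x hd) (hb _ inf_le_left)
    rw [delta_ker] at h1
    have h2 : hl (Q ⊓ CM Z x ⊓ CM Z' x) ≤ hl (Q ⊓ CM Z' x) :=
      hl_mono (hb _ inf_le_left) (inf_le_inf_right _ inf_le_left)
    have h3 : hl (delta Z' _ x hd).range ≤ hl (Z.map (QuotientGroup.mk' Z')) :=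
      hl_mono ((hb _ hZ).map _) (delta_range Z' _ x hd fun g hg => mem_CM.1 hg.2)
    have h4 := hl_add (QuotientGroup.mk' Z') (hb Z hZ)
    have h5 : hl Z' ≤ hl ((QuotientGroup.mk' Z').ker ⊓ Z) := by
      refine hl_mono (hb _ (inf_le_right.trans hZ)) ?_
      rw [QuotientGroup.ker_mk']
      exact le_inf le_rfl (inf_le_inf_left _ (gam_succ_le Q j))
    omega

end HF0x

theorem p_HF0 :
    S_HF0 := by
  intro G _ _ Q P _ _ x c hPQ hQ hc hx
  have hb : ∀ X ≤ Q, Bdd X := fun X hX => hQ.bdd.le hX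
  have h1 := HF0x.step hPQ hQ x c
  have h2 : hl Q ≤ hl (Q ⊓ CM (P ⊓ gam Q 0) x : Subgroup G) :=
    hl_mono (hb _ inf_le_left) fun g hg => ⟨hg, mem_CM.2 ⟨hx g hg, comm_mem_right (B := Q) hg x⟩⟩
  have h3 : hl (Q ⊓ CM (P ⊓ gam Q c) x : Subgroup G) ≤ hl (Q ⊓ centralizer {x} : Subgroup G) := by
    refine hl_mono (hb _ inf_le_left) fun g hg => ⟨hg.1, ?_⟩
    have := (mem_CM.1 hg.2).2
    rw [hc] at this
    exact mem_centralizer_singleton_iff.2 (commutatorElement_eq_one_iff_mul_comm.1 this).symm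
  have h4 : hl (P ⊓ gam Q 0 : Subgroup G) ≤ hl P := hl_mono (hb _ hPQ) inf_le_left
  omega

end Pool.Agent.P.MP_3540e7_al.T7
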