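import Pool.Agent.P.MP_3540e7_al.T7.Iface

/-! Step KIL. -/

set_option autoImplicit false
set_option linter.unusedSectionVars false

namespace Pool.Agent.P.MP_3540e7_al.T7

open Subgroup T5
open scoped commutatorElement

theorem p_KIL :
    S_KIL := by
  intro G _ _ N₁ N H _ _ h1 h2 h3 h4 h5
  by_contra hc
  push Not at hc
  apply h5
  have : Group.FG H := (Group.fg_iff_subgroup_fg H).2 h4
  have a1 : RN (N.subgroupOf H) ⊤ := by
    have := RN.comap H.subtype (by rw [range_subtype]; exact inf_le_right)
      (h3.inf_right' H le_top)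
    refine this.mono (fun x hx => hx.1) fun x _ => ⟨trivial, x.2⟩
  have a2 : N₁.subgroupOf H ≤ N.subgroupOf H := fun x hx => h1 hx
  have a3 : RN (N₁.subgroupOf H) (N.subgroupOf H) := by
    refine rn_of_finite_orbits (H := ⊤) a1 a2 (commutator_le.2 fun x hx y hy => ?_) le_norm_top
      fun y hy => ?_
    · rw [mem_subgroupOf]
      exact h2 (commutator_mem_commutator (g₁ := (x : G)) (g₂ := (y : G)) hx hy)
    · have k := hc y ⟨y.2, hy⟩
      have : (CM N₁ (y : G)).FiniteIndex := by
        refine finiteIndex_of_le (H := centralizer {(y : G)} ⊔ N) (sup_le ?_ fun g hg => ?_)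
        · rw [← CM_bot]
          exact CM_mono bot_le _
        · exact mem_CM.2 (h2 (commutator_mem_commutator hy hg))
      refine ⟨(CM N₁ (y : G)).subgroupOf H, inferInstance, fun g hg => ?_⟩
      rw [mem_subgroupOf]
      exact mem_CM'.1 hg
  have a4 := (a3.trans' a1 a2 le_top).map H.subtype le_top
  rwa [subgroupOf_map_subtype, ← MonoidHom.range_eq_map, range_subtype] at a4

end Pool.Agent.P.MP_3540e7_al.T7
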