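import Pool.Agent.P.MP_3540e7_al.T7.Iface

/-! Step LA. -/

set_option autoImplicit false
set_option linter.unusedSectionVars false

namespace Pool.Agent.P.MP_3540e7_al.T7

open Subgroup T5
open scoped commutatorElement

theorem p_LA :
    S_LA := by
  intro D _ X _ c A hA h
  refine ⟨⟨fun S => (subset_act A S).trans (h.ext _), fun S T hST => h.idem _ _ ?_, fun S x hx => ?_,
    fun g S x hx => h.smul_mem ?_ hx⟩, fun a ha x => h.ext _ (mem_act ha rfl), fun Γ hΓ x => ?_⟩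
  · rintro _ ⟨a, ha, s, hs, rfl⟩
    refine h.smul_mem (S := act (A : Set D) T) ?_ (hST hs)
    rintro _ ⟨b, hb, t, ht, rfl⟩
    rw [← mul_smul]
    exact h.ext _ (mem_act (A.mul_mem ha hb) ht)
  · obtain ⟨F, h1, h2, h3⟩ := h.fin _ x hx
    have h4 : ∀ y ∈ F, ∃ s ∈ S, ∃ a ∈ (A : Set D), y = a • s := fun y hy => by
      obtain ⟨a, ha, s, hs, e⟩ := h2 hy
      exact ⟨s, hs, a, ha, e⟩
    choose! s hs ha using h4
    refine ⟨s '' F, h1.image _, ?_, h.mono (fun y hy => ?_) h3⟩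
    · rintro _ ⟨y, hy, rfl⟩
      exact hs y hy
    · obtain ⟨a, haA, e⟩ := ha y hy
      exact ⟨a, haA, s y, ⟨y, hy, rfl⟩, e⟩
  · rintro _ ⟨a, ha, s, hs, rfl⟩
    refine h.ext _ ⟨g * a * g⁻¹, hA.conj_mem a ha g, g • s, mem_act rfl hs, ?_⟩
    rw [mul_smul, mul_smul, inv_smul_smul]
  · obtain ⟨F, h1, h2⟩ := hΓ x
    exact ⟨F, h1, fun g hg => h.mono (subset_act A F) (h2 g hg)⟩

end Pool.Agent.P.MP_3540e7_al.T7
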