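import Pool.Agent.P.MP_3540e7_al.T7.Iface

/-! Step LB0. -/

set_option autoImplicit false
set_option linter.unusedSectionVars false

namespace Pool.Agent.P.MP_3540e7_al.T7

open Subgroup T5
open scoped commutatorElement

theorem p_LB0 :
    S_LB0 := by
  intro D _ hfg X _ c A _ F₀ F h hF₀ hF h0 hA
  obtain ⟨Δ, hΔ, hΔf⟩ := Group.fg_iff.1 hfg
  obtain ⟨t, ht, htA, hsub⟩ := h.fin_act (A := (A : Set D)) (S := F)
    (hF₀.union (act_finite (hΔf.union hΔf.inv) hF)) (by rw [hA]; exact Set.subset_univ _)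
  refine ⟨t, ht, htA, ?_⟩
  have hZ : c (act t F) ⊆ c (act (normalClosure t : Set D) F) :=
    h.mono (act_mono subset_normalClosure le_rfl)
  have hN : ∀ n ∈ normalClosure t, ∀ x ∈ c (act (normalClosure t : Set D) F),
      n • x ∈ c (act (normalClosure t : Set D) F) := by
    intro n hn x hx
    refine h.smul_mem ?_ hx
    rintro _ ⟨a, ha, f, hf, rfl⟩
    rw [smul_smul]
    exact h.ext _ (mem_act (mul_mem hn ha) hf)
  have hd : ∀ d ∈ Δ ∪ Δ⁻¹, ∀ x ∈ c (act (normalClosure t : Set D) F),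
      d • x ∈ c (act (normalClosure t : Set D) F) := by
    intro d hd x hx
    refine h.smul_mem ?_ hx
    rintro _ ⟨a, ha, f, hf, rfl⟩
    have e : d • a • f = (d * a * d⁻¹) • d • f := by
      rw [smul_smul, smul_smul, inv_mul_cancel_right]
    rw [e]
    exact hN _ (normalClosure_normal.conj_mem a ha d) _ (hZ (hsub (Or.inr (mem_act hd hf))))
  have hg : ∀ g ∈ closure Δ, (∀ x ∈ c (act (normalClosure t : Set D) F),
      g • x ∈ c (act (normalClosure t : Set D) F)) ∧ ∀ x ∈ c (act (normalClosure t : Set D) F),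
      g⁻¹ • x ∈ c (act (normalClosure t : Set D) F) := by
    intro g hg
    induction hg using closure_induction with
    | mem d hd' => exact ⟨hd d (Or.inl hd'), hd d⁻¹ (Or.inr (Set.inv_mem_inv.2 hd'))⟩
    | one => simp only [inv_one, one_smul]; exact ⟨fun _ hx => hx, fun _ hx => hx⟩
    | mul a b _ _ iha ihb =>
      refine ⟨fun x hx => ?_, fun x hx => ?_⟩
      · rw [mul_smul]; exact iha.1 _ (ihb.1 x hx)
      · rw [mul_inv_rev, mul_smul]; exact ihb.2 _ (iha.2 x hx)
    | inv a _ ih => rw [inv_inv]; exact ⟨ih.2, ih.1⟩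
  refine Set.eq_univ_of_univ_subset ?_
  rw [← h0]
  refine h.idem _ _ ?_
  rintro _ ⟨g, -, f, hf, rfl⟩
  exact (hg g (hΔ ▸ mem_top g)).1 f (hZ (hsub (Or.inl hf)))

end Pool.Agent.P.MP_3540e7_al.T7
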