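import Pool.Agent.P.MP_3540e7_al.T7.Iface

/-! Step LB2. -/

set_option autoImplicit false
set_option linter.unusedSectionVars false

namespace Pool.Agent.P.MP_3540e7_al.T7

open Subgroup T5
open scoped commutatorElement

theorem p_LB2 (hLEMG : S_LEMG) :
    S_LB2 := by
  intro G _ _ W Γ M _ hW hn h1 h2 Y hY hYs
  have h : ∀ y ∈ Y, ∃ x ∈ Γ, ∃ m ∈ M, x * m = y := fun y hy => (mem_sup_norm hn).1 (hYs hy)
  choose! g hg m hm e using h
  have a1 : g '' Y ⊆ Γ := by rintro _ ⟨y, hy, rfl⟩; exact hg y hy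
  have a2 : m '' Y ⊆ M := by rintro _ ⟨y, hy, rfl⟩; exact hm y hy
  have a3 : closure (g '' Y ∪ m '' Y) ≤ normalizer (M : Set G) :=
    (closure_le _).2 (Set.union_subset (a1.trans hn) (a2.trans le_normalizer))
  refine (hLEMG G W (closure (g '' Y ∪ m '' Y)) (closure (g '' Y))
    (closure (g '' Y ∪ m '' Y) ⊓ M) hW ((fg_iff _).2 ⟨_, rfl, (hY.image g).union (hY.image m)⟩)
    (closure_mono Set.subset_union_left) inf_le_left
    (le_normalizer_of_conj fun x hx j hj => ⟨Subgroup.mul_mem _ (Subgroup.mul_mem _ hx hj.1)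
      (Subgroup.inv_mem _ hx),
      (mem_normalizer_iff.1 (a3 hx) j).1 hj.2⟩)
    ((closure_le _).2 (Set.union_subset (fun x hx => mem_sup_left (subset_closure hx))
      fun x hx => mem_sup_right ⟨subset_closure (Or.inr hx), a2 hx⟩))
    (h1 _ (hY.image g) a1) (h2.mono inf_le_right)).mono ((closure_le _).2 fun y hy => ?_)
  rw [← e y hy]
  exact mul_mem (subset_closure (Or.inl ⟨y, hy, rfl⟩)) (subset_closure (Or.inr ⟨y, hy, rfl⟩))

end Pool.Agent.P.MP_3540e7_al.T7
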