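import Pool.Agent.P.MP_3540e7_al.T7.Iface

/-! Step LEM. -/

set_option autoImplicit false
set_option linter.unusedSectionVars false

namespace Pool.Agent.P.MP_3540e7_al.T7

open Subgroup T5
open scoped commutatorElement

namespace LEMx

variable {D : Type} [Group D] {X : Type} [MulAction D X] {c : Set X → Set X}

theorem fin_of_cb (h : Clo D c) {Γ : Subgroup D} (hΓ : CB c Γ) {E : Set X} (hE : E.Finite)
    (hu : c (act (Γ : Set D) E) = Set.univ) : ∃ F : Set X, F.Finite ∧ c F = Set.univ := by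
  obtain ⟨F, hF, h1⟩ := hΓ.fin h hE
  refine ⟨F, hF, Set.eq_univ_of_univ_subset ?_⟩
  rw [← hu]
  refine h.idem _ _ ?_
  rintro _ ⟨g, hg, x, hx, rfl⟩
  exact h1 g hg x hx

theorem base (H N : Subgroup D) [N.Normal] (hHN : H ⊔ N = ⊤) (h : Clo D c) {F₀ : Set X}
    (hF₀ : F₀.Finite) (hu : c (act (Set.univ : Set D) F₀) = Set.univ) (hP : Pres c N)
    (hH : CB c H) : ∃ F : Set X, F.Finite ∧ c F = Set.univ := by
  refine fin_of_cb h hH hF₀ (Set.eq_univ_of_univ_subset ?_)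
  rw [← hu]
  refine h.idem _ _ ?_
  rintro _ ⟨d, -, x, hx, rfl⟩
  have hd : d ∈ H ⊔ N := hHN ▸ mem_top d
  obtain ⟨g, hg, n, hn, rfl⟩ := (mem_sup_norm le_norm_top).1 hd
  rw [mul_smul]
  refine h.smul_mem (S := {x}) ?_ (hP n hn x)
  rintro s rfl
  exact h.ext _ (mem_act hg hx)

end LEMx

theorem p_LEM (hLA : S_LA) (hLB0 : S_LB0) (hLX1 : S_LX1) (hLX2 : S_LX2) (hLX3 : S_LX3) (hLX4 : S_LX4) :
    S_LEM := by
  intro D _ _ H N _ hHN e
  induction e with
  | zero =>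
    intro X _ c F₀ h hF₀ hu hP hH _
    exact LEMx.base H N hHN h hF₀ hu hP hH
  | succ e ih =>
    intro X _ c F₀ h hF₀ hu hP hH hY
    obtain ⟨h1, h2, h3⟩ := hLA D X c (der N e) h
    have hu1 : c (act (der N e : Set D) (act (Set.univ : Set D) F₀)) = Set.univ :=
      Set.eq_univ_of_univ_subset (hu ▸ h.mono (subset_act _ _))
    obtain ⟨F, hF, hFu⟩ := ih X (fun S => c (act (der N e : Set D) S)) F₀ h1 hF₀ hu1 h2 (h3 H hH)
      (fun Y hf hs => h3 _ (hY Y hf hs))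
    obtain ⟨Y, hYf, hYs, hYu⟩ := hLB0 D X c (der N e) F₀ F h hF₀ hF hu hFu
    obtain ⟨h4, h5⟩ := hLX2 D X c F (der N e) Y hYs
    obtain ⟨F', hF', hF'u⟩ := ih (XT D) (ct c F (der N e) (normalClosure Y))
      (XT.l '' Y ∪ {XT.r 1}) (hLX1 D X c F (der N e) (normalClosure Y) h)
      ((hYf.image _).union (Set.finite_singleton _)) h4 h5
      (hLX3 D X c F (der N e) (normalClosure Y) H h hF hYu hH)
      (fun Z hf hs => hLX3 D X c F (der N e) (normalClosure Y) _ h hF hYu (hY Z hf hs))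
    obtain ⟨t, ht, hts, htu⟩ := hLX4 D X c F (der N e) (normalClosure Y) F' h hF
      (normalClosure_le_normal hYs) hP hYu hF' hF'u
    exact LEMx.fin_of_cb h (hY t ht (hts.trans (der_le N e))) hF htu

end Pool.Agent.P.MP_3540e7_al.T7
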