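import Pool.Agent.P.MP_3540e7_al.T7.Iface

/-! Step LEMG. -/

set_option autoImplicit false
set_option linter.unusedSectionVars false

namespace Pool.Agent.P.MP_3540e7_al.T7

open Subgroup T5
open scoped commutatorElement

namespace LEMGx

variable {G : Type} [Group G] {D K W : Subgroup G}

/-- conjugation on a normalised subgroup -/
@[reducible] def cact (h : D ≤ normalizer (K : Set G)) : MulAction D K where
  smul d x := ⟨d * x * (d : G)⁻¹, (mem_normalizer_iff.1 (h d.2) x).1 x.2⟩
  one_smul x := Subtype.ext (show ((1 : D) : G) * x * ((1 : D) : G)⁻¹ = x by simp)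
  mul_smul a b x := Subtype.ext (show ((a * b : D) : G) * x * ((a * b : D) : G)⁻¹ =
    a * (b * x * (b : G)⁻¹) * (a : G)⁻¹ by rw [coe_mul]; group)

/-- the generated subgroup -/
def cl (K : Subgroup G) (S : Set K) : Set K := {x | (x : G) ∈ closure (Subtype.val '' S)}

theorem fin_mem {S : Set G} {u : G} (hu : u ∈ closure S) :
    ∃ T : Set G, T.Finite ∧ T ⊆ S ∧ u ∈ closure T := by
  induction hu using closure_induction with
  | mem x hx => exact ⟨{x}, Set.finite_singleton x, by simpa using hx, subset_closure rfl⟩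
  | one => exact ⟨∅, Set.finite_empty, Set.empty_subset _, one_mem _⟩
  | mul x y _ _ hx hy =>
    obtain ⟨T, h1, h2, h3⟩ := hx
    obtain ⟨T', h1', h2', h3'⟩ := hy
    exact ⟨T ∪ T', h1.union h1', Set.union_subset h2 h2',
      mul_mem (closure_mono Set.subset_union_left h3) (closure_mono Set.subset_union_right h3')⟩
  | inv x _ hx =>
    obtain ⟨T, h1, h2, h3⟩ := hx
    exact ⟨T, h1, h2, inv_mem h3⟩

theorem img_pre {T : Set G} (h : T ⊆ K) : Subtype.val '' (Subtype.val ⁻¹' T : Set K) = T :=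
  Set.image_preimage_eq_of_subset fun t ht => ⟨⟨t, h ht⟩, rfl⟩

variable [MulAction D K] (hs : ∀ (d : D) (x : K), ((d • x : K) : G) = d * x * (d : G)⁻¹)
include hs

theorem clo : Clo D (cl K) where
  ext S x hx := subset_closure ⟨x, hx, rfl⟩
  idem S T h x hx :=
    (closure_le (closure (Subtype.val '' T))).2 (by rintro _ ⟨y, hy, rfl⟩; exact h hy) hx
  fin S x hx := by
    obtain ⟨T, h1, h2, h3⟩ := fin_mem hx
    have hT : T ⊆ K := fun t ht => by obtain ⟨y, -, rfl⟩ := h2 ht; exact y.2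
    refine ⟨Subtype.val ⁻¹' T, h1.preimage Subtype.val_injective.injOn, fun y hy => ?_, ?_⟩
    · obtain ⟨z, hz, e⟩ := h2 hy
      rwa [← Subtype.ext e]
    · show _ ∈ Subgroup.closure _
      rwa [img_pre hT]
  eqv g S x hx := by
    have : closure (Subtype.val '' S) ≤
        (closure (Subtype.val '' act {g} S)).comap (MulAut.conj (g : G)).toMonoidHom := by
      rw [Subgroup.closure_le]
      rintro _ ⟨y, hy, rfl⟩
      exact subset_closure (k := Subtype.val '' act {g} S) ⟨g • y, mem_act rfl hy, hs g y⟩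
    show _ ∈ Subgroup.closure _
    rw [hs]
    exact this hx

theorem cb (hK : K ≤ W) {Γ : Subgroup G} {Γ' : Subgroup D} (hΓ : Bd W Γ)
    (h : ∀ g ∈ Γ', (g : G) ∈ Γ) : CB (cl K) Γ' := by
  intro x
  have hb : Bd W (Γ'.map D.subtype) := hΓ.mono (map_le_iff_le_comap.2 h)
  obtain ⟨T, h1, h2, h3⟩ := exists_finite_closure (hb x (hK x.2)).fg
  have hT : T ⊆ K := fun t ht => by
    obtain ⟨_, ⟨g, -, rfl⟩, _, rfl, rfl⟩ := h2 ht
    exact hs g x ▸ (g • x).2
  refine ⟨Subtype.val ⁻¹' T, h1.preimage Subtype.val_injective.injOn, fun g hg => ?_⟩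
  show _ ∈ Subgroup.closure _
  rw [img_pre hT, h3, hs]
  exact subset_closure ⟨g, ⟨g, hg, rfl⟩, x, rfl, rfl⟩

end LEMGx

theorem p_LEMG (hLEM : S_LEM) :
    S_LEMG := by
  intro G _ _ W D H M _ hLP hD hH hM hn hsup hB hL v hv
  have hK : closure (orb D {v}) ≤ W :=
    (closure_le _).2 (orb_subset D (Set.singleton_subset_iff.2 hv))
  letI := LEMGx.cact (le_normalizer_orb D {v})
  have hs : ∀ (d : D) (x : closure (orb D {v})),
      ((d • x : closure (orb D {v})) : G) = d * x * (d : G)⁻¹ := fun _ _ => rfl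
  have hc := LEMGx.clo hs
  have : Group.FG D := (Group.fg_iff_subgroup_fg D).2 hD
  have : (M.subgroupOf D).Normal := (normal_subgroupOf_iff_le_normalizer hM).2 hn
  obtain ⟨e, he⟩ := exists_der_eq_bot (M.subgroupOf D)
  obtain ⟨F, hF, hU⟩ := hLEM D (H.subgroupOf D) (M.subgroupOf D)
    (by rw [← subgroupOf_sup hH hM, subgroupOf_eq_top]; exact hsup) e _ (LEMGx.cl _)
    {⟨v, subset_closure (subset_orb D {v} rfl)⟩} hc (Set.finite_singleton _)
    (Set.eq_univ_of_forall fun x => closure_mono (by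
      rintro _ ⟨g, hg, _, rfl, rfl⟩
      exact ⟨_, mem_act (a := ⟨g, hg⟩) trivial rfl, rfl⟩) x.2)
    (by
      rw [he]
      intro a ha x
      rw [mem_bot.1 ha, one_smul]
      exact hc.ext _ rfl)
    (LEMGx.cb hs hK hB fun _ hg => hg)
    (fun Y hY hYM => by
      have hb := hL (Subtype.val '' Y) (hY.image _) (by rintro _ ⟨y, hy, rfl⟩; exact hYM hy)
      have hle : closure Y ≤ (closure (Subtype.val '' Y)).subgroupOf D :=
        (closure_le _).2 fun y hy => subset_closure (k := Subtype.val '' Y) ⟨y, hy, rfl⟩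
      exact LEMGx.cb hs hK hb fun _ hg => hle hg)
  refine (hLP (Subtype.val '' F) (hF.image _) ?_).le fun x hx => ?_
  · rintro _ ⟨y, -, rfl⟩
    exact hK y.2
  · exact Set.eq_univ_iff_forall.1 hU ⟨x, hx⟩

end Pool.Agent.P.MP_3540e7_al.T7
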