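import Pool.Agent.P.MP_3540e7_al.T7.Iface

/-! Step LFDT. -/

set_option autoImplicit false
set_option linter.unusedSectionVars false

namespace Pool.Agent.P.MP_3540e7_al.T7

open Subgroup T5
open scoped commutatorElement

theorem p_LFDT :
    S_LFDT := by
  intro G _ K _ V _ _ a ι W R T hW h hLB Y hY hYT v
  obtain ⟨n, hn, b, hb, e⟩ := h.span v
  have hQW : closure (orb (closure Y) {b}) ≤ W :=
    (closure_le _).2 (orb_subset _ (Set.singleton_subset_iff.2 hb))
  have hnor := le_normalizer_orb (closure Y) ({b} : Set G)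
  have hbQ : b ∈ closure (orb (closure Y) {b}) := subset_closure (subset_orb _ _ rfl)
  obtain ⟨F, hF, hFf⟩ := (fg_iff _).1 (hLB Y hY hYT b hb).fg
  generalize closure (orb (closure Y) {b}) = Q at hQW hnor hbQ hF
  have hFW : F ⊆ W := fun x hx => hQW (hF ▸ subset_closure hx)
  have hle : Submodule.span K (ι '' (Q : Set G)) ≤ Submodule.span K (ι '' F) := by
    refine Submodule.span_le.2 ?_
    rintro _ ⟨x, hx, rfl⟩
    exact h.mem_span hFW (hF ▸ hx)
  have : FiniteDimensional K (Submodule.span K (ι '' F)) :=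
    FiniteDimensional.span_of_finite K (hFf.image ι)
  refine ⟨Submodule.span K (ι '' (Q : Set G)), Submodule.finiteDimensional_of_le hle,
    mem_of_smul_mem hn ?_, fun g hg x hx => ?_⟩
  · rw [e]
    exact Submodule.subset_span ⟨b, hbQ, rfl⟩
  · have : Submodule.span K (ι '' (Q : Set G)) ≤
        (Submodule.span K (ι '' (Q : Set G))).comap (a g) := by
      refine Submodule.span_le.2 ?_
      rintro _ ⟨y, hy, rfl⟩
      exact Submodule.subset_span ⟨g * y * g⁻¹, (mem_normalizer_iff.1 (hnor hg) y).1 hy,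
        h.conj g y (hQW hy)⟩
    exact this hx

end Pool.Agent.P.MP_3540e7_al.T7
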