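import Pool.Agent.P.MP_3540e7_al.T7.Iface

/-! Step LNP. -/

set_option autoImplicit false
set_option linter.unusedSectionVars false

namespace Pool.Agent.P.MP_3540e7_al.T7

open Subgroup T5
open scoped commutatorElement

namespace LNPx

theorem iso {G : Type} [Group G] {Z : Subgroup G} {g : G} {p k : ℕ} (hp : p.Prime) (hk : ¬ p ∣ k)
    (h1 : g ^ p ∈ Z) (h2 : g ^ k ∈ Z) : g ∈ Z := by
  have h := Nat.gcd_eq_gcd_ab p k
  rw [(Nat.Prime.coprime_iff_not_dvd hp).2 hk] at h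
  have e : g = (g ^ p) ^ Nat.gcdA p k * (g ^ k) ^ Nat.gcdB p k := by
    rw [← zpow_natCast, ← zpow_natCast, ← zpow_mul, ← zpow_mul, ← zpow_add, ← h]
    simp
  rw [e]
  exact mul_mem (zpow_mem h1 _) (zpow_mem h2 _)

end LNPx

theorem p_LNP (hTR : S_TR) (hSH : S_SH) :
    S_LNP := by
  intro G _ W R _ _ p ok hL hT hok y v hv i j k k' hk hk' hR
  let F : Set G := (fun l => cj y l v) '' Set.Icc i j
  have hF : F.Finite := (Set.finite_Icc i j).image _
  have hFW : closure F ≤ W := (closure_le _).2 (by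
    rintro _ ⟨l, -, rfl⟩
    exact cj_mem y l hv)
  have hi : ∀ n, ok n → ∀ g ∈ W, g ^ n ∈ closure F ⊔ R → g ∈ closure F ⊔ R := fun n hn g hg h =>
    LNPx.iso hT.1 (hok n hn) (mem_sup_right (hT.2.2 g hg)) h
  have hZ := hSH G W R (closure F ⊔ R) y v i j k k' hv le_sup_right (hi k hk) (hi k' hk') hR
    fun l h1 h2 => mem_sup_left (subset_closure ⟨l, ⟨h1, h2⟩, rfl⟩)
  have hK : closure (orb (zpowers y) {v}) ≤ closure F ⊔ R := (closure_le _).2 (by
    rw [orb_zpowers]
    rintro _ ⟨l, rfl⟩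
    exact hZ l)
  refine hTR G W R (zpowers y) v hL.pc hL.lp
    ((fg_iff _).2 ⟨{y}, (zpowers_eq_closure y).symm, Set.finite_singleton y⟩) hv ?_
  have h1 : RN R (closure F ⊔ R) := rn_of_fg_comm hF fun a ha b hb =>
    hL.cm (commutator_mem_commutator (hFW (subset_closure ha)) (hFW (subset_closure hb)))
  exact (h1.inf_right' _ le_sup_right).mono le_rfl (le_inf hK le_rfl)

end Pool.Agent.P.MP_3540e7_al.T7
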