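import Pool.Agent.P.MP_3540e7_al.T7.Iface

/-! Step LNT. -/

set_option autoImplicit false
set_option linter.unusedSectionVars false

namespace Pool.Agent.P.MP_3540e7_al.T7

open Subgroup T5
open scoped commutatorElement

theorem p_LNT (hTR : S_TR) (hSH : S_SH) (hTAU : S_TAU) (hCNT : T5.S_CNT) (hFIN : T5.S_FIN) :
    S_LNT := by
  intro G _ _ W R _ _ ok hL hT hx hok y v hv i j k k' hk hk' hR
  obtain ⟨hij, h1, h2⟩ := hR
  obtain ⟨s, hs, r, hr, e1⟩ := (mem_sup_norm le_norm_top).1 h1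
  obtain ⟨s', hs', r', hr', e2⟩ := (mem_sup_norm le_norm_top).1 h2
  have hsub : ({r, r'} : Set G) ⊆ R := by
    rintro _ (rfl | rfl)
    · exact hr
    · exact hr'
  have hPn : Noeth (normalClosure ({r, r'} : Set G)) := hL.pc _ (Set.toFinite _) hsub
  have hPR : normalClosure ({r, r'} : Set G) ≤ R := normalClosure_le_normal hsub
  obtain ⟨FP, hFP, hFPf⟩ := (fg_iff _).1 hPn.fg
  have hRl : Rl (normalClosure ({r, r'} : Set G)) y v i j k k' := by
    refine ⟨hij, ?_, ?_⟩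
    · rw [← e1]
      exact mul_mem_sup hs (subset_normalClosure (Or.inl rfl))
    · rw [← e2]
      exact mul_mem_sup hs' (subset_normalClosure (Or.inr rfl))
  obtain ⟨x, hxc, hxn⟩ := hx (FP ∪ (fun l => cj y l v) '' Set.Icc i j)
    (hFPf.union ((Set.finite_Icc i j).image _)) (by
      rintro g (hg | ⟨l, -, rfl⟩)
      · exact hL.le (hPR (hFP ▸ subset_closure hg))
      · exact cj_mem y l hv)
  obtain ⟨τ, _, hτ, hiso⟩ := hTAU G W hL.lp hL.pn
  have hτR : τ ≤ R := by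
    intro g hg
    obtain ⟨hgW, hgf⟩ := (hτ g).1 hg
    obtain ⟨n, hn, hgn⟩ := isOfFinOrder_iff_pow_eq_one.1 hgf
    exact hT g hgW n hn (by rw [hgn]; exact one_mem _)
  have hFZ : ∀ f ∈ FP ∪ (fun l => cj y l v) '' Set.Icc i j, f ∈ CM τ x := by
    intro f hf
    rw [mem_CM, commutatorElement_eq_one_iff_mul_comm.2 (hxc f hf).symm]
    exact one_mem _
  have hPZ : normalClosure ({r, r'} : Set G) ≤ CM τ x := by
    rw [← hFP, closure_le]
    exact fun f hf => hFZ f (Or.inl hf)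
  have hall := hSH G W (normalClosure ({r, r'} : Set G)) (CM τ x) y v i j k k' hv hPZ
    (fun g hg h => mem_CM.2 (hiso x g hg k (hok k hk) (mem_CM.1 h)))
    (fun g hg h => mem_CM.2 (hiso x g hg k' (hok k' hk') (mem_CM.1 h))) hRl
    (fun l h1 h2 => hFZ _ (Or.inr ⟨l, ⟨h1, h2⟩, rfl⟩))
  have hKZ : closure (orb (zpowers y) {v}) ≤ CM τ x := by
    rw [closure_le, orb_zpowers]
    rintro _ ⟨l, rfl⟩
    exact hall l
  have hfin : ∀ P : Subgroup G, Noeth P → P ≤ τ → Finite P := by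
    intro P hP hPτ
    have h := hFIN G ⊥ P hP (fun g hg => by
      obtain ⟨n, hn, hgn⟩ := isOfFinOrder_iff_pow_eq_one.1 ((hτ g).1 (hPτ hg)).2
      exact ⟨n, hn, mem_bot.2 hgn⟩)
    rw [relIndex_bot_left] at h
    exact Nat.finite_of_card_ne_zero h
  have hidx := hCNT G τ x
    (fun F hF hFτ => hfin _ (hL.pc F hF (hFτ.trans hτR)) (normalClosure_le_normal hFτ))
    (hfin _ (hxn.le inf_le_left) inf_le_right)
  have hrn : RN τ (CM τ x) := (Noeth.rn_sup (A := τ) hxn).finiteIndex le_sup_right hidx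
  refine hTR G W R (zpowers y) v hL.pc hL.lp ?_ hv ?_
  · exact (fg_iff _).2 ⟨{y}, (zpowers_eq_closure y).symm, Set.finite_singleton y⟩
  · exact (hrn.inf_right' (closure (orb (zpowers y) {v})) (le_CM τ x)).mono
      (inf_le_inf_right _ hτR) (le_inf hKZ le_rfl)

end Pool.Agent.P.MP_3540e7_al.T7
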