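import Pool.Agent.P.MP_3540e7_al.T7.Iface

/-! Step LPX. -/

set_option autoImplicit false
set_option linter.unusedSectionVars false

namespace Pool.Agent.P.MP_3540e7_al.T7

open Subgroup T5
open scoped commutatorElement

theorem p_LPX :
    S_LPX := by
  intro G _ L R hc hR F hF hFL
  have hP : Noeth (normalClosure (Set.image2 (fun a b : G => ⁅a, b⁆) F F)) := by
    refine hR _ (hF.image2 _ hF) ?_
    rintro _ ⟨a, ha, b, hb, rfl⟩
    exact hc (commutator_mem_commutator (hFL ha) (hFL hb))
  have h2 := rn_of_fg_comm (K := normalClosure (Set.image2 (fun a b : G => ⁅a, b⁆) F F)) hF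
    fun a ha b hb => subset_normalClosure ⟨a, ha, b, hb, rfl⟩
  exact Noeth.le (RN.trans' hP h2 bot_le le_sup_right) le_sup_left

end Pool.Agent.P.MP_3540e7_al.T7
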