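import Pool.Agent.P.MP_3540e7_al.T7.Iface

/-! Step LX1. -/

set_option autoImplicit false
set_option linter.unusedSectionVars false

namespace Pool.Agent.P.MP_3540e7_al.T7

open Subgroup T5
open scoped commutatorElement

namespace LX1x

variable {D : Type} [Group D] {X : Type} [MulAction D X] {c : Set X → Set X} {F : Set X}
  {A A₀ : Subgroup D}

theorem gather {S : Set (XT D)} {t : Set D} {g : D} (ht : t.Finite)
    (h1 : ∃ E : Set (XT D), E.Finite ∧ E ⊆ S ∧ XT.r g ∈ ct c F A A₀ E)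
    (h2 : ∀ b ∈ t, ∃ E : Set (XT D), E.Finite ∧ E ⊆ S ∧ XT.l b ∈ ct c F A A₀ E) :
    ∃ E : Set (XT D), E.Finite ∧ E ⊆ S ∧ XT.r g ∈ ct c F A A₀ E ∧
      ∀ b ∈ t, XT.l b ∈ ct c F A A₀ E := by
  obtain ⟨E, e1, e2, e3⟩ := h1
  choose! f f1 f2 f3 using h2
  refine ⟨E ∪ ⋃ b ∈ t, f b, e1.union (ht.biUnion f1), Set.union_subset e2 (Set.iUnion₂_subset f2),
    ct_mono Set.subset_union_left e3, fun b hb => ct_mono ?_ (f3 b hb)⟩
  exact (Set.subset_biUnion_of_mem (u := f) hb).trans Set.subset_union_right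

theorem cls_fin (S : Set (XT D)) :
    Cls c F A A₀ {x | ∃ E : Set (XT D), E.Finite ∧ E ⊆ S ∧ x ∈ ct c F A A₀ E} where
  out a ha := ⟨∅, Set.finite_empty, Set.empty_subset _, (cls_ct ..).out a ha⟩
  com a ha := ⟨∅, Set.finite_empty, Set.empty_subset _, (cls_ct ..).com a ha⟩
  div a ha b hb := fun ⟨E, e1, e2, e3⟩ ⟨E', f1, f2, f3⟩ => ⟨E ∪ E', e1.union f1,
    Set.union_subset e2 f2, (cls_ct ..).div a ha b hb (ct_mono Set.subset_union_left e3)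
      (ct_mono Set.subset_union_right f3)⟩
  tra a ha g := fun ⟨E, e1, e2, e3⟩ => ⟨E, e1, e2, (cls_ct ..).tra a ha g e3⟩
  r1 g t a h1 h2 h3 h4 h5 h6 h7 :=
    let ⟨E, e1, e2, e3, e4⟩ := gather h2 h1 h4
    ⟨E, e1, e2, (cls_ct ..).r1 g t a e3 h2 h3 e4 h5 h6 h7⟩
  r2 g t g' h1 h2 h3 h4 h5 h6 :=
    let ⟨E, e1, e2, e3, e4⟩ := gather h2 h1 h4
    ⟨E, e1, e2, (cls_ct ..).r2 g t g' e3 h2 h3 e4 h5 h6⟩

theorem key (hc : Clo D c) (g : D) {u g₀ : D} {t : Set D} (h : act {u} F ⊆ Zs c F t g₀) :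
    act {g * u} F ⊆ Zs c F ((fun b => g * b * g⁻¹) '' t) (g * g₀) := by
  rintro _ ⟨_, rfl, x, hx, rfl⟩
  rw [mul_smul]
  refine hc.smul_mem ?_ (h (mem_act rfl hx))
  rintro _ ⟨s, hs, _, ⟨_, rfl, y, hy, rfl⟩, rfl⟩
  have h1 : g * s * g⁻¹ ∈ closure ((fun b => g * b * g⁻¹) '' t) :=
    (MonoidHom.map_closure (MulAut.conj g).toMonoidHom t).le ⟨s, hs, rfl⟩
  refine hc.ext _ ⟨_, h1, _, mem_act rfl hy, ?_⟩
  simp only [mul_smul, inv_smul_smul]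

theorem cls_eqv [hA : A.Normal] [h0 : A₀.Normal] (hc : Clo D c) (g : D) {Z : Set (XT D)}
    (hZ : Cls c F A A₀ Z) : Cls c F A A₀ {x | g • x ∈ Z} where
  out a ha := hZ.out _ fun h => ha (by simpa [mul_assoc] using h0.conj_mem _ h g⁻¹)
  com a ha := hZ.com _ (Subgroup.Normal.conj_mem inferInstance a ha g)
  div a ha b hb h1 h2 := by
    have := hZ.div _ (h0.conj_mem a ha g) _ (h0.conj_mem b hb g) h1 h2
    rwa [show g * a * g⁻¹ * (g * b * g⁻¹)⁻¹ = g * (a * b⁻¹) * g⁻¹ by group] at this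
  tra a ha u h1 := by
    have := hZ.tra _ (hA.conj_mem a ha g) _ h1
    rwa [show g * a * g⁻¹ * (g * u) = g * (a * u) by group] at this
  r1 u t a h1 h2 h3 h4 h5 h6 h7 := by
    refine hZ.r1 (g * u) ((fun b => g * b * g⁻¹) '' t) _ h1 (h2.image _) ?_ ?_
      (h0.conj_mem a h5 g) ?_ ?_
    · rintro _ ⟨b, hb, rfl⟩; exact h0.conj_mem b (h3 hb) g
    · rintro _ ⟨b, hb, rfl⟩; exact h4 b hb
    · rw [show g * a * g⁻¹ * (g * u) = g * (a * u) by group]; exact key hc g h6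
    · rw [show (g * a * g⁻¹)⁻¹ * (g * u) = g * (a⁻¹ * u) by group]; exact key hc g h7
  r2 u t u' h1 h2 h3 h4 h5 h6 := by
    refine hZ.r2 (g * u) ((fun b => g * b * g⁻¹) '' t) _ h1 (h2.image _) ?_ ?_
      (key hc g h5) (key hc g h6)
    · rintro _ ⟨b, hb, rfl⟩; exact h0.conj_mem b (h3 hb) g
    · rintro _ ⟨b, hb, rfl⟩; exact h4 b hb

end LX1x

theorem p_LX1 :
    S_LX1 := by
  intro D _ X _ c F A A₀ _ _ hc
  exact ⟨subset_ct F A A₀, fun S T h => ct_subset (cls_ct ..) h,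
    fun S => ct_subset (LX1x.cls_fin S) fun x hx => ⟨{x}, Set.finite_singleton x,
      Set.singleton_subset_iff.2 hx, subset_ct F A A₀ _ rfl⟩,
    fun g S => ct_subset (LX1x.cls_eqv hc g (cls_ct F A A₀ (act {g} S))) fun x hx =>
      subset_ct F A A₀ _ (mem_act rfl hx)⟩

end Pool.Agent.P.MP_3540e7_al.T7
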