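import Pool.Agent.P.MP_3540e7_al.T7.Iface

/-! Step LX2. -/

set_option autoImplicit false
set_option linter.unusedSectionVars false

namespace Pool.Agent.P.MP_3540e7_al.T7

open Subgroup T5
open scoped commutatorElement

namespace LX2x

variable {D : Type} [Group D] {X : Type} [MulAction D X] {c : Set X → Set X} {F : Set X}
  {A A₀ : Subgroup D} {Z : Set (XT D)}

theorem inv (h : Cls c F A A₀ Z) {a : D} (ha : a ∈ A₀) (h1 : XT.l a ∈ Z) : XT.l a⁻¹ ∈ Z := by
  simpa using h.div 1 (one_mem _) a ha (h.com 1 (one_mem _)) h1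

/-- the part of `A₀` that lies in a closed set -/
def sub (h : Cls c F A A₀ Z) : Subgroup D where
  carrier := {a | a ∈ A₀ ∧ XT.l a ∈ Z}
  one_mem' := ⟨one_mem _, h.com 1 (one_mem _)⟩
  inv_mem' ha := ⟨inv_mem ha.1, inv h ha.1 ha.2⟩
  mul_mem' ha hb := ⟨mul_mem ha.1 hb.1, by
    simpa using h.div _ ha.1 _ (inv_mem hb.1) ha.2 (inv h hb.1 hb.2)⟩

end LX2x

theorem p_LX2 :
    S_LX2 := by
  intro D _ X _ c F A hA Y hY
  refine ⟨Set.eq_univ_of_forall fun x Z hZ hS => ?_, fun a ha x Z hZ hS => ?_⟩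
  · cases x with
    | r g => simpa [smul_r] using hS (mem_act (Set.mem_univ g) (Or.inr rfl))
    | l b =>
      by_cases hb : b ∈ normalClosure Y
      · have : normalClosure Y ≤ LX2x.sub hZ := (closure_le _).2 fun z hz => by
          refine ⟨conjugatesOfSet_subset_normalClosure hz, ?_⟩
          obtain ⟨y, hy, e⟩ := Group.mem_conjugatesOfSet_iff.1 hz
          obtain ⟨g, rfl⟩ := isConj_iff.1 e
          exact hS ⟨g, trivial, XT.l y, Or.inl ⟨y, hy, rfl⟩, rfl⟩
        exact (this hb).2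
      · exact hZ.out b hb
  · cases x with
    | r g => exact hZ.tra a ha g (hS rfl)
    | l b =>
      rw [smul_l]
      by_cases hb : b ∈ normalClosure Y
      · have h1 : ⁅a, b⁆ ∈ LX2x.sub hZ := ⟨mul_mem (normalClosure_normal.conj_mem b hb a)
          (inv_mem hb), hZ.com _ (commutator_mem_commutator ha (normalClosure_le_normal hY hb))⟩
        simpa [commutatorElement_def] using (mul_mem h1 (⟨hb, hS rfl⟩ : b ∈ LX2x.sub hZ)).2
      · exact hZ.out _ fun h => hb (by simpa using normalClosure_normal.mem_comm h)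

end Pool.Agent.P.MP_3540e7_al.T7
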