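import Pool.Agent.P.MP_3540e7_al.T7.Iface

/-! Step LX3. -/

set_option autoImplicit false
set_option linter.unusedSectionVars false

namespace Pool.Agent.P.MP_3540e7_al.T7

open Subgroup T5
open scoped commutatorElement

namespace LX3x

variable {D : Type} [Group D] {X : Type} [MulAction D X] {c : Set X → Set X}

theorem orb_l (F : Set X) (A A₀ Γ : Subgroup D) [hN : A₀.Normal] (h : Clo D c) (hF : F.Finite)
    (hu : c (act (A₀ : Set D) F) = Set.univ) (hΓ : CB c Γ) (a : D) :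
    ∃ E : Set (XT D), E.Finite ∧ ∀ γ ∈ Γ, XT.l (γ * a * γ⁻¹) ∈ ct c F A A₀ E := by
  by_cases ha : a ∈ A₀
  swap
  · refine ⟨∅, Set.finite_empty, fun γ _ => (cls_ct F A A₀ ∅).out _ fun h' => ha ?_⟩
    have := hN.conj_mem _ h' γ⁻¹
    simpa [mul_assoc] using this
  obtain ⟨F1, hF1, h1⟩ := CB.fin h hΓ hF
  obtain ⟨F2, hF2, h2⟩ := CB.fin h hΓ
    (act_finite (A := ({a, a⁻¹} : Set D)) (Set.toFinite _) hF1)
  obtain ⟨t, ht, htA, h3⟩ := h.fin_act (A := (A₀ : Set D)) (S := F) hF2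
    (by rw [hu]; exact Set.subset_univ _)
  have h4 : c F2 ⊆ Zs c F t 1 := by
    refine h.idem _ _ (h3.trans (h.mono ?_))
    rintro _ ⟨b, hb, s, hs, rfl⟩
    exact ⟨b, subset_closure hb, _, mem_act (Set.mem_singleton 1) hs, by rw [one_smul]⟩
  have key : ∀ γ ∈ Γ, ∀ a' ∈ ({a, a⁻¹} : Set D), act {γ * a' * γ⁻¹ * 1} F ⊆ Zs c F t 1 := by
    rintro γ hγ a' ha' _ ⟨_, rfl, f, hf, rfl⟩
    have e : (γ * a' * γ⁻¹ * 1) • f = (γ * a') • (γ⁻¹ • f) := by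
      rw [mul_one, mul_smul (γ * a')]
    rw [e]
    refine h4 (h.smul_mem (S := F1) (fun s hs => ?_) (h1 _ (inv_mem hγ) f hf))
    rw [mul_smul]
    exact h2 γ hγ _ (mem_act ha' hs)
  refine ⟨XT.l '' t ∪ {XT.r 1}, (ht.image _).union (Set.finite_singleton _), fun γ hγ => ?_⟩
  refine (cls_ct F A A₀ _).r1 1 t _ (subset_ct F A A₀ _ (Or.inr rfl)) ht htA
    (fun b hb => subset_ct F A A₀ _ (Or.inl ⟨b, hb, rfl⟩)) (hN.conj_mem a ha γ)
    (key γ hγ a (Or.inl rfl)) ?_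
  have e : (γ * a * γ⁻¹)⁻¹ = γ * a⁻¹ * γ⁻¹ := by group
  rw [e]
  exact key γ hγ a⁻¹ (Or.inr rfl)

theorem orb_r (F : Set X) (A A₀ Γ : Subgroup D) [hN : A₀.Normal] (h : Clo D c) (hF : F.Finite)
    (hu : c (act (A₀ : Set D) F) = Set.univ) (hΓ : CB c Γ) (g : D) :
    ∃ E : Set (XT D), E.Finite ∧ ∀ γ ∈ Γ, XT.r (γ * g) ∈ ct c F A A₀ E := by
  have hu' : ∀ x : X, x ∈ c (act (A₀ : Set D) (act {g} F)) := by
    intro x
    have hx : g⁻¹ • x ∈ c (act (A₀ : Set D) F) := by rw [hu]; exact Set.mem_univ _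
    rw [← smul_inv_smul g x]
    refine h.smul_mem (fun s hs => h.ext _ ?_) hx
    obtain ⟨b, hb, f, hf, rfl⟩ := hs
    refine ⟨g * b * g⁻¹, hN.conj_mem b hb g, g • f, mem_act (Set.mem_singleton g) hf, ?_⟩
    rw [mul_smul, mul_smul, inv_smul_smul]
  obtain ⟨F1, hF1, h1⟩ := CB.fin h hΓ (act_finite (Set.finite_singleton g) hF)
  obtain ⟨t, ht, htA, h3⟩ := h.fin_act (A := (A₀ : Set D)) (S := act {g} F) hF1
    (fun x _ => hu' x)
  choose E hE1 hE2 using orb_l F A A₀ Γ h hF hu hΓ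
  refine ⟨(⋃ b ∈ t, E b) ∪ {XT.r g},
    (ht.biUnion fun b _ => hE1 b).union (Set.finite_singleton _), fun γ hγ => ?_⟩
  have hl : ∀ b ∈ t, ∀ δ ∈ Γ,
      XT.l (δ * b * δ⁻¹) ∈ ct c F A A₀ ((⋃ b ∈ t, E b) ∪ {XT.r g}) := fun b hb δ hδ =>
    ct_mono ((Set.subset_biUnion_of_mem (u := E) hb).trans Set.subset_union_left) (hE2 b δ hδ)
  have h5 : c F1 ⊆ c (act t (act {g} F)) := h.idem _ _ h3
  refine (cls_ct F A A₀ _).r2 g (t ∪ (fun b => γ * b * γ⁻¹) '' t) _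
    (subset_ct F A A₀ _ (Or.inr rfl)) (ht.union (ht.image _)) ?_ ?_ ?_ ?_
  · rintro _ (hb | ⟨b, hb, rfl⟩)
    · exact htA hb
    · exact hN.conj_mem b (htA hb) γ
  · rintro b (hb | ⟨b, hb, rfl⟩)
    · simpa using hl b hb 1 (one_mem _)
    · exact hl b hb γ hγ
  · rintro _ ⟨_, rfl, f, hf, rfl⟩
    rw [mul_smul]
    refine h.mono (act_mono ?_ le_rfl) (h5 (h1 γ hγ _ (mem_act (Set.mem_singleton g) hf)))
    exact Set.subset_union_left.trans subset_closure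
  · rintro _ ⟨g', hg', f, hf, rfl⟩
    rw [Set.mem_singleton_iff.1 hg', ← smul_inv_smul γ (g • f)]
    refine h.smul_mem (fun s hs => h.ext _ ?_)
      (h5 (h1 _ (inv_mem hγ) _ (mem_act (Set.mem_singleton g) hf)))
    obtain ⟨b, hb, _, ⟨g'', hg'', f', hf', rfl⟩, rfl⟩ := hs
    rw [Set.mem_singleton_iff.1 hg'']
    refine ⟨γ * b * γ⁻¹, subset_closure (Or.inr ⟨b, hb, rfl⟩), (γ * g) • f',
      mem_act (Set.mem_singleton _) hf', ?_⟩
    simp only [mul_smul, inv_smul_smul]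

end LX3x

theorem p_LX3 :
    S_LX3 := by
  intro D _ X _ c F A A₀ Γ _ h hF hu hΓ x
  cases x with
  | l a => exact LX3x.orb_l F A A₀ Γ h hF hu hΓ a
  | r g => exact LX3x.orb_r F A A₀ Γ h hF hu hΓ g

end Pool.Agent.P.MP_3540e7_al.T7
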