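import Pool.Agent.P.MP_3540e7_al.T7.Iface

/-! Step LX4. -/

set_option autoImplicit false
set_option linter.unusedSectionVars false

namespace Pool.Agent.P.MP_3540e7_al.T7

open Subgroup T5
open scoped commutatorElement

namespace LX4x

variable {D : Type} [Group D] {X : Type} [MulAction D X] {c : Set X → Set X}

/-- the stabiliser of a set inside `A` -/
def St (A : Subgroup D) (Y : Set X) : Subgroup D where
  carrier := {a | a ∈ A ∧ ∀ x ∈ Y, a • x ∈ Y ∧ a⁻¹ • x ∈ Y}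
  one_mem' := ⟨one_mem _, fun x hx => by simpa using hx⟩
  mul_mem' := fun {a b} ha hb => ⟨mul_mem ha.1 hb.1, fun x hx => by
    rw [mul_smul, mul_inv_rev, mul_smul]
    exact ⟨(ha.2 _ (hb.2 x hx).1).1, (hb.2 _ (ha.2 x hx).2).2⟩⟩
  inv_mem' := fun {a} ha => ⟨inv_mem ha.1, fun x hx => by
    rw [inv_inv]; exact (ha.2 x hx).symm⟩

theorem inv_act (h : Clo D c) (B : Subgroup D) (T : Set X) {a : D} (ha : a ∈ B) {x : X}
    (hx : x ∈ c (act (B : Set D) T)) : a • x ∈ c (act (B : Set D) T) := by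
  refine h.smul_mem ?_ hx
  rintro _ ⟨b, hb, s, hs, rfl⟩
  rw [← mul_smul]
  exact h.ext _ (mem_act (mul_mem ha hb) hs)

theorem act_le (h : Clo D c) {B B' : Subgroup D} (hB : B' ≤ B) {T T' : Set X}
    (hT : T' ⊆ c (act (B : Set D) T)) : c (act (B' : Set D) T') ⊆ c (act (B : Set D) T) := by
  refine h.idem _ _ ?_
  rintro _ ⟨b, hb, s, hs, rfl⟩
  exact inv_act h B T (hB hb) (hT hs)

theorem comm_le (h : Clo D c) {A : Subgroup D} [A.Normal] (hP : Pres c ⁅A, A⁆) (T : Set X) :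
    ⁅A, A⁆ ≤ St A (c T) := fun _ ha =>
  ⟨commutator_le_right A A ha, fun _ hx => ⟨hP.mem h ha hx, hP.mem h (inv_mem ha) hx⟩⟩

theorem conj_st (h : Clo D c) {A : Subgroup D} [A.Normal] (hP : Pres c ⁅A, A⁆) {T : Set X}
    {b s : D} (hb : b ∈ A) (hs : s ∈ St A (c T)) : b * s * b⁻¹ ∈ St A (c T) := by
  have := mul_mem (comm_le h hP T (commutator_mem_commutator hb hs.1)) hs
  simpa [commutatorElement_def] using this

theorem univ_g (h : Clo D c) {F : Set X} {A₀ : Subgroup D} [hn : A₀.Normal]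
    (hu : c (act (A₀ : Set D) F) = Set.univ) (g : D) (x : X) :
    x ∈ c (act (A₀ : Set D) (act {g} F)) := by
  rw [← smul_inv_smul g x]
  refine h.smul_mem ?_ (hu ▸ Set.mem_univ (g⁻¹ • x))
  rintro _ ⟨a, ha, f, hf, rfl⟩
  have : g • a • f = (g * a * g⁻¹) • g • f := by simp [mul_smul]
  rw [this]
  exact h.ext _ (mem_act (hn.conj_mem a ha g) (mem_act rfl hf))

/-- the closed subset of the auxiliary space -/
def Zst (c : Set X → Set X) (F : Set X) (A A₀ S : Subgroup D) : Set (XT D) :=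
  {x | match x with
    | .l a => a ∉ A₀ ∨ a ∈ S
    | .r g => St A (c (act (S : Set D) (act {g} F))) ≤ S}

theorem cls (h : Clo D c) (F : Set X) {A A₀ S : Subgroup D} (hA : A₀ ≤ A) (h1 : ⁅A, A⁆ ≤ S)
    (h2 : ∀ b ∈ A, ∀ s ∈ S, b * s * b⁻¹ ∈ S) : Cls c F A A₀ (Zst c F A A₀ S) := by
  have key : ∀ a ∈ A, ∀ (g g' : D), act {a * g} F ⊆ c (act (S : Set D) (act {g'} F)) →
      ∀ x ∈ c (act (S : Set D) (act {g} F)), a • x ∈ c (act (S : Set D) (act {g'} F)) := by
    intro a ha g g' hs x hx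
    refine h.smul_mem ?_ hx
    rintro _ ⟨s, hs', _, ⟨k, rfl, f, hf, rfl⟩, rfl⟩
    have : a • s • k • f = (a * s * a⁻¹) • (a * k) • f := by simp [mul_smul]
    rw [this]
    exact inv_act h S _ (h2 a ha s hs') (hs (mem_act rfl hf))
  have self : ∀ T : Set X, T ⊆ c (act (S : Set D) T) := fun T => (subset_act S T).trans (h.ext _)
  have zs : ∀ (g : D) (t : Set D), t ⊆ A₀ → (∀ b ∈ t, XT.l b ∈ Zst c F A A₀ S) →
      Zs c F t g ⊆ c (act (S : Set D) (act {g} F)) := fun g t ht hb =>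
    h.mono (act_mono ((closure_le S).2 fun b e => (hb b e).resolve_left fun n => n (ht e)) le_rfl)
  refine ⟨fun a ha => .inl ha, fun a ha => .inr (h1 ha), fun a ha b hb h3 h4 =>
    .inr (mul_mem (h3.resolve_left fun n => n ha) (inv_mem (h4.resolve_left fun n => n hb))),
    fun a ha g hg b hb => ?_, fun g t a hg _ ht hb ha h3 h4 => .inr (hg ⟨hA ha, fun x hx =>
      ⟨key a (hA ha) g g (h3.trans (zs g t ht hb)) x hx,
        key _ (inv_mem (hA ha)) g g (h4.trans (zs g t ht hb)) x hx⟩⟩),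
    fun g t g' hg _ ht hb h3 h4 => ?_⟩
  · have k1 := key a ha g _ (self _)
    have k2 := key a⁻¹ (inv_mem ha) (a * g) g (by rw [inv_mul_cancel_left]; exact self _)
    have : a⁻¹ * b * a ∈ S := by
      refine hg ⟨mul_mem (mul_mem (inv_mem ha) hb.1) ha, fun x hx => ?_⟩
      simp only [mul_inv_rev, inv_inv, mul_smul]
      exact ⟨k2 _ (hb.2 _ (k1 x hx)).1, k2 _ (hb.2 _ (k1 x hx)).2⟩
    simpa [mul_assoc] using h2 a ha _ this
  · have e : c (act (S : Set D) (act {g'} F)) = c (act (S : Set D) (act {g} F)) :=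
      (act_le h le_rfl (h3.trans (zs g t ht hb))).antisymm
        (act_le h le_rfl (h4.trans (zs g' t ht hb)))
    change St A _ ≤ S
    rw [e]
    exact hg

end LX4x

open LX4x in
theorem p_LX4 :
    S_LX4 := by
  intro D _ X _ c F A A₀ _ _ F' h hF hA hP hu hF' hct
  have h1 : ∀ g : D, ∃ t : Set D, t.Finite ∧ t ⊆ A₀ ∧ act {g} F ⊆ c (act t F) ∧
      F ⊆ c (act t (act {g} F)) := by
    intro g
    obtain ⟨t, a1, a2, a3⟩ := h.fin_act (A := A₀) (S := F)
      (act_finite (Set.finite_singleton g) hF) (hu ▸ Set.subset_univ _)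
    obtain ⟨t', b1, b2, b3⟩ := h.fin_act hF fun x _ => univ_g h hu g x
    exact ⟨t ∪ t', a1.union b1, Set.union_subset a2 b2,
      a3.trans (h.mono (act_mono Set.subset_union_left le_rfl)),
      b3.trans (h.mono (act_mono Set.subset_union_right le_rfl))⟩
  choose tg a1 a2 a3 a4 using h1
  obtain ⟨t, hf, ht, hl, hr⟩ : ∃ t : Set D, t.Finite ∧ t ⊆ A₀ ∧
      (∀ a ∈ A₀, XT.l a ∈ F' → a ∈ t) ∧ ∀ g, XT.r g ∈ F' → tg g ⊆ t := by
    refine ⟨(XT.l ⁻¹' F' ∩ A₀) ∪ ⋃ g ∈ XT.r ⁻¹' F', tg g, .union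
      ((hF'.preimage fun _ _ _ _ e => XT.l.inj e).inter_of_left _)
      ((hF'.preimage fun _ _ _ _ e => XT.r.inj e).biUnion fun g _ => a1 g),
      Set.union_subset Set.inter_subset_right (Set.iUnion₂_subset fun g _ => a2 g),
      fun a ha e => .inl ⟨e, ha⟩, fun g e =>
        (Set.subset_biUnion_of_mem (u := tg) e).trans Set.subset_union_right⟩
  refine ⟨t, hf, ht.trans hA, ?_⟩
  have hcl : closure t ≤ St A (c (act (closure t : Set D) F)) := fun a ha =>
    ⟨(closure_le A).2 (ht.trans hA) ha, fun x hx =>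
      ⟨inv_act h _ _ ha hx, inv_act h _ _ (inv_mem ha) hx⟩⟩
  have hs := ct_subset (S := F') (cls h F hA (comm_le h hP (act (closure t : Set D) F))
    fun b hb s hs => conj_st h hP hb hs) (by
      rintro (a | g) e
      · by_cases ha : a ∈ A₀
        · exact .inr (hcl (subset_closure (hl a ha e)))
        · exact .inl ha
      · have k : tg g ⊆ (closure t : Set D) := (hr g e).trans subset_closure
        refine le_of_eq (congrArg (St A) (Set.Subset.antisymm (h.idem _ _ ?_) (act_le h hcl ?_)))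
        · rintro _ ⟨s, hs, x, hx, rfl⟩
          exact (hs.2 x (h.mono (act_mono k le_rfl) (a3 g hx))).1
        · exact (a4 g).trans (h.mono (act_mono (k.trans hcl) le_rfl)))
  rw [hct] at hs
  refine Set.eq_univ_of_univ_subset (hu ▸ h.idem _ _ ?_)
  rintro _ ⟨a, ha, f, hf, rfl⟩
  have : a ∈ St A (c (act (closure t : Set D) F)) :=
    (hs (Set.mem_univ (XT.l a))).resolve_left fun n => n ha
  exact (this.2 f (h.ext _ (subset_act _ F hf))).1

end Pool.Agent.P.MP_3540e7_al.T7
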