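import Pool.Agent.P.MP_3540e7_al.T7.Iface

/-! Step MAIN. -/

set_option autoImplicit false
set_option linter.unusedSectionVars false

namespace Pool.Agent.P.MP_3540e7_al.T7

open Subgroup T5
open scoped commutatorElement

namespace MAINx

theorem der_der {G : Type} [Group G] (N : Subgroup G) : ∀ d, der ⁅N, N⁆ d = der N (d + 1)
  | 0 => rfl
  | d + 1 => by rw [der_succ, der_der N d, der_succ N (d + 1)]

end MAINx

theorem p_MAIN (hNA : S_NA) :
    S_MAIN := by
  have key : ∀ d, SB d := fun d => by
    induction d with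
    | zero =>
      intro G _ _ N _ _ _ h0 h
      rw [der_zero] at h0
      rwa [h0] at h
    | succ d ih =>
      intro G _ _ N _ hc hp h0 h
      exact hNA d ih G ⁅N, N⁆ N hc (der_le N 1) le_rfl (hp.mono (der_le N 1))
        ((MAINx.der_der N d).trans h0) h
  intro G _ _ N _ hc hp h
  obtain ⟨d, hd⟩ := exists_der_eq_bot ⁅N, N⁆
  exact hNA d (key d) G ⁅N, N⁆ N hc (der_le N 1) le_rfl hp hd h

end Pool.Agent.P.MP_3540e7_al.T7
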