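import Pool.Agent.P.MP_3540e7_al.T7.Iface

/-! Step MDT. -/

set_option autoImplicit false
set_option linter.unusedSectionVars false

namespace Pool.Agent.P.MP_3540e7_al.T7

open Subgroup T5
open scoped commutatorElement

namespace MDTx

theorem wn_sub {G : Type} [Group G] (H : ℤ → Subgroup G) (D : Subgroup G) (i j : ℤ) :
    Wn (fun j => (H j).subgroupOf D) i j = (Wn H i j).subgroupOf D := by
  ext g
  simp only [mem_Wn, mem_subgroupOf]

theorem inf_sub {G : Type} [Group G] (A B D : Subgroup G) :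
    A.subgroupOf D ⊓ B.subgroupOf D = (A ⊓ B).subgroupOf D := by
  ext g
  simp only [mem_inf, mem_subgroupOf]

end MDTx

theorem p_MDT :
    S_MDT := by
  intro G _ K _ V _ _ a D T U y e H h
  have hUD : U ≤ D := h.le.trans h.tle
  refine
    { le := fun g hg => h.le hg
      tle := le_top
      mem := mem_top _
      cm := ?_
      lfd := ?_
      uni := fun u hu v => h.uni u.1 hu v
      sh := h.sh
      li := h.li
      hle := fun j g hg => h.hle j hg
      hsh := fun j g => h.hsh j g.1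
      fix := fun j g hg => h.fix j g.1 hg
      kil := fun i j => ?_
      tidy := ?_ }
  · rw [commutator_le]
    intro g _ g' _
    exact h.cm (commutator_mem_commutator g.2 g'.2)
  · intro Y hY hYT v
    obtain ⟨S, h1, h2, h3⟩ := h.lfd (D.subtype '' Y) (hY.image _)
      (by rintro _ ⟨g, hg, rfl⟩; exact hYT hg) v
    refine ⟨S, h1, h2, fun g hg => h3 g.1 ?_⟩
    rw [← MonoidHom.map_closure]
    exact ⟨g, hg, rfl⟩
  · obtain ⟨x, hx, hf⟩ := h.kil (min i j) (max i j)
    rw [mem_Wn] at hx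
    have hxD : x ∈ D := h.tle (h.hle i (hx i (min_le_left _ _) (le_max_left _ _)))
    exact ⟨⟨x, hxD⟩, mem_Wn.2 fun k h1 h2 =>
      hx k ((min_le_left _ _).trans h1) (h2.trans (le_max_right _ _)), hf⟩
  · obtain ⟨m₀, hm⟩ := h.tidy
    refine ⟨m₀, fun m hm' u hu => ?_⟩
    rw [MDTx.wn_sub, MDTx.inf_sub] at hu
    obtain ⟨k, hk, hu'⟩ := hm m hm' u.1 hu
    refine ⟨k, hk, ?_⟩
    rw [MDTx.wn_sub, MDTx.wn_sub, MDTx.inf_sub, MDTx.inf_sub,
      ← subgroupOf_sup (inf_le_left.trans hUD) (inf_le_left.trans hUD)]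
    exact hu'

end Pool.Agent.P.MP_3540e7_al.T7
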