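import Pool.Agent.P.MP_3540e7_al.T7.Iface

/-! Step MT. -/

set_option autoImplicit false
set_option linter.unusedSectionVars false

namespace Pool.Agent.P.MP_3540e7_al.T7

open Subgroup T5
open scoped commutatorElement

theorem p_MT (hMDT : S_MDT) (hZM : S_ZM) (hZQ : S_ZQ) (hC1 : S_C1) (hC2 : S_C2) :
    S_MT := by
  intro G _ _ K _ V _ _ a D T U y e H h
  have h1 := hMDT G K V a D T U ⟨y, h.mem⟩ e H h
  obtain ⟨M, a', i1, i2, i3, i4⟩ := hZM D K V (a.comp D.subtype) e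
  have h2 := hZQ D K V _ _ _ _ e _ M a' h1 i1 i2 i3
  refine hC1 D K _ a' _ _ _ _ _ h2 i4 fun w hw => ?_
  by_contra h0
  exact hC2 D K _ a' _ _ _ _ _ w h2 i4 h0 hw

end Pool.Agent.P.MP_3540e7_al.T7
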