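import Pool.Agent.P.MP_3540e7_al.T7.Iface

/-! Step NA. -/

set_option autoImplicit false
set_option linter.unusedSectionVars false

namespace Pool.Agent.P.MP_3540e7_al.T7

open Subgroup T5
open scoped commutatorElement

namespace NAx

theorem der_sub {G : Type} [Group G] {L : Subgroup G} {d : ℕ} (hc : der L d = ⊥)
    (H : Subgroup G) : der (L.subgroupOf H) d = ⊥ := by
  rw [← map_eq_bot_iff_of_injective _ H.subtype_injective, der_map, eq_bot_iff, ← hc]
  exact der_mono (map_le_iff_le_comap.2 le_rfl) d

end NAx

theorem p_NA (hCORE : S_CORE) (hKIL : S_KIL) :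
    S_NA := by
  intro d hB
  have key : ∀ (n : ℕ) (G : Type) [Group G] [Group.IsSolvable G] (P : Type) [Group P]
      [Group.IsSolvable P] (f : G →* P) (L : Subgroup G) [L.Normal], HC G → L ≤ f.ker →
      ⁅f.ker, f.ker⁆ ≤ L → PN L → der L d = ⊥ → Noeth f.range → hl f.range = n →
      Noeth (⊤ : Subgroup G) := by
    intro n
    induction n using Nat.strong_induction_on with
    | _ n ih =>
      intro G _ _ P _ _ f L _ hC hLN hNN hp hc hr hn
      have hN : RN f.ker ⊤ := by
        have := RN.ker_inf f (H := ⊤) (by rwa [← MonoidHom.range_eq_map])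
        rwa [inf_top_eq] at this
      by_contra hG
      have hfi : ∀ F : Set G, F.Finite → ¬ Noeth (centralizer F) →
          (centralizer F ⊔ f.ker).FiniteIndex := by
        intro F hF h2
        by_contra h3
        apply h2
        set H := centralizer F
        have h4 : (H.map f).relIndex f.range = 0 := by
          rw [← index_comap, comap_map_eq]
          by_contra h5
          exact h3 ⟨h5⟩
        have h5 : (f.comp H.subtype).range = H.map f := by
          rw [MonoidHom.range_comp, range_subtype]
        refine noeth_of_top (ih _ (hn ▸ hl_lt hr.bdd (map_le_range f H) h4) H P (f.comp H.subtype)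
          (L.subgroupOf H) (hC.centralizer hF) (fun g hg => hLN hg) ?_ (hp.subgroupOf H)
          (NAx.der_sub hc H) (h5 ▸ hr.le (map_le_range f H)) (by rw [h5]))
        exact commutator_le.2 fun a ha b hb => hNN (commutator_mem_commutator ha hb)
      refine hCORE G L f.ker ⟨hC, hG, hLN, hNN, hp, hfi, fun F hF h2 => ?_⟩
      have h3 : ¬ RN (L ⊓ centralizer F) (centralizer F) := by
        intro h4
        apply h2
        have h5 := RN.comap (centralizer F).subtype
          (by rw [range_subtype]; exact inf_le_right) h4
        refine noeth_of_top (hB (centralizer F) (L.subgroupOf (centralizer F)) (hC.centralizer hF)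
          (hp.subgroupOf _) (NAx.der_sub hc _) (h5.mono (fun g hg => hg.1) fun g _ => g.2))
      obtain ⟨x, hx, hx2⟩ := hKIL G L f.ker (centralizer F) hLN hNN hN (hC F hF) h3
      refine ⟨x, hx, ?_⟩
      by_contra h6
      exact hx2 (hfi {x} (Set.finite_singleton x) h6)
  intro G _ _ L N _ _ hC hLN hNN hp hc hN
  refine key _ G (G ⧸ N) (QuotientGroup.mk' N) L hC ?_ ?_ hp hc ?_ rfl
  · rwa [QuotientGroup.ker_mk']
  · rwa [QuotientGroup.ker_mk']
  · rw [MonoidHom.range_eq_map]; exact (rn_iff_map le_top).1 hN

end Pool.Agent.P.MP_3540e7_al.T7
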