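import Pool.Agent.P.MP_3540e7_al.T7.Iface

/-! Step NIL. -/

set_option autoImplicit false
set_option linter.unusedSectionVars false

namespace Pool.Agent.P.MP_3540e7_al.T7

open Subgroup T5
open scoped commutatorElement

theorem p_NIL (hFLAG : S_FLAG) :
    S_NIL := by
  intro G _ _ K _ V _ _ a T U X _ u s hU hT hX huU huX hs
  obtain ⟨F, hF, hsF⟩ := Submodule.mem_span_finite_of_mem_span hs
  have h1 : ∀ x ∈ F, ∃ g ∈ X, x = a g (a u s - s) := fun x hx => hF hx
  choose! g hg hx using h1
  let Y : Set G := insert u (g '' F)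
  have hY : Y.Finite := (F.finite_toSet.image g).insert u
  have hYX : Y ⊆ X := by
    rintro _ (rfl | ⟨x, hx', rfl⟩)
    · exact huX
    · exact hg x hx'
  have hu : u ∈ closure Y := subset_closure (Set.mem_insert _ _)
  have hs' : s ∈ gen a (closure Y) (a u s - s) := by
    refine Submodule.span_mono (fun x hx' => ?_) hsF
    exact ⟨g x, subset_closure (Set.mem_insert_of_mem _ ⟨x, hx', rfl⟩), hx x hx'⟩
  obtain ⟨S, hS, hsS, hI⟩ := hT Y hY (hYX.trans hX) s
  obtain ⟨n, M, h0, hn, -, hM, hd⟩ := hFLAG G K V a U (closure Y) S hU hS hI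
  have key : ∀ i, s ∈ M i → s = 0 := by
    intro i
    induction i with
    | zero => rw [h0]; exact id
    | succ i ih => exact fun h => ih (gen_le (hM i) (hd i u ⟨huU, hu⟩ s h) hs')
  exact key n (hn ▸ hsS)

end Pool.Agent.P.MP_3540e7_al.T7
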