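import Pool.Agent.P.MP_3540e7_al.T7.Iface

/-! Step OB. -/

set_option autoImplicit false
set_option linter.unusedSectionVars false

namespace Pool.Agent.P.MP_3540e7_al.T7

open Subgroup T5
open scoped commutatorElement

theorem p_OB (hOB1 : S_OB1) (hEQ : S_EQ) :
    S_OB := by
  intro G _ _ K _ V _ _ a T U X x w hU hu hl hUX hXT hx hw hxw hm S hS hi
  have nU : U.Normal := normal_of_cm hU
  have nX : X.Normal := normal_of_cm (hU.trans hUX)
  obtain ⟨O, o1, o2, o3⟩ := hOB1 G K V a T X x hl hXT hx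
  have h1 : Iv a ⊤ O := fun d _ v hv => by
    have i1 : Iv a X (O.map (a d)) := by
      rintro g hg _ ⟨z, hz, rfl⟩
      refine ⟨a (d⁻¹ * g * d⁻¹⁻¹) z, o1 _ (nX.conj_mem g hg _) z hz, ?_⟩
      rw [← a_mul, ← a_mul]
      congr 2
      group
    have i2 : Inj a (d * x * d⁻¹) (O.map (a d)) := by
      rintro _ ⟨z, hz, rfl⟩ e
      rw [a_mul, a_inv_apply, a_mul] at e
      have := congrArg (a d⁻¹) e
      rw [a_inv_apply, a_inv_apply] at this
      rw [o2 z hz this, map_zero]
    refine o3 _ i1 (hEQ G K V a T U X _ _ x hu hl hXT i1 (nX.conj_mem x hx d) hx ?_ i2)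
      ⟨v, hv, rfl⟩
    have := hU (commutator_mem_commutator (mem_top d) (mem_top x⁻¹))
    convert this using 1
    rw [commutatorElement_def]
    group
  by_cases h : O = ⊥
  · exact le_bot_iff.1 (h ▸ o3 S hS hi)
  · exact absurd (o2 w (hm O h1 h) hxw) hw

end Pool.Agent.P.MP_3540e7_al.T7
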