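import Pool.Agent.P.MP_3540e7_al.T7.Iface

/-! Step OB1. -/

set_option autoImplicit false
set_option linter.unusedSectionVars false

namespace Pool.Agent.P.MP_3540e7_al.T7

open Subgroup T5
open scoped commutatorElement

namespace OB1x

variable {G : Type} [Group G] {K : Type} [Field K] {V : Type} [AddCommGroup V] [Module K V]
  {a : G →* Module.End K V} {T X : Subgroup G} {x : G}

theorem onto (hT : Lfd a T) (hx : x ∈ T) {S : Submodule K V} (hS : ∀ v ∈ S, a x v ∈ S)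
    (hI : Inj a x S) {z : V} (hz : z ∈ S) : ∃ s ∈ S, a x s - s = z := by
  obtain ⟨S₁, hfd, hz1, hiv⟩ := hT {x} (Set.finite_singleton x) (Set.singleton_subset_iff.2 hx) z
  have hfd' : FiniteDimensional K (S₁ ⊓ S : Submodule K V) :=
    Submodule.finiteDimensional_inf_left S₁ S
  have hmap : ∀ v ∈ S₁ ⊓ S, (a x - 1) v ∈ S₁ ⊓ S := fun v hv =>
    sub_mem (Submodule.mem_inf.2 ⟨hiv x (subset_closure rfl) v hv.1, hS v hv.2⟩) hv
  have hinj : Function.Injective ((a x - 1).restrict hmap) := by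
    rw [injective_iff_map_eq_zero]
    intro v hv
    have h1 : a x v - v = 0 := congrArg Subtype.val hv
    exact Subtype.ext (hI v v.2.2 (sub_eq_zero.1 h1))
  obtain ⟨s, hs⟩ := LinearMap.injective_iff_surjective.1 hinj ⟨z, hz1, hz⟩
  exact ⟨s, s.2.2, congrArg Subtype.val hs⟩

theorem iv_sup {S S' : Submodule K V} (h : Iv a X S) (h' : Iv a X S') : Iv a X (S ⊔ S') := by
  intro g hg v hv
  obtain ⟨s, hs, s', hs', rfl⟩ := Submodule.mem_sup.1 hv
  rw [map_add]
  exact Submodule.add_mem_sup (h g hg s hs) (h' g hg s' hs')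

theorem inj_sup (hT : Lfd a T) (hX : X ≤ T) (hx : x ∈ X) {S S' : Submodule K V} (h : Iv a X S)
    (h' : Iv a X S') (hI : Inj a x S) (hI' : Inj a x S') : Inj a x (S ⊔ S') := by
  intro v hv hfix
  obtain ⟨s, hs, s', hs', rfl⟩ := Submodule.mem_sup.1 hv
  rw [map_add] at hfix
  have e : a x s - s = -(a x s' - s') := by
    rw [eq_neg_iff_add_eq_zero, sub_add_sub_comm, hfix, sub_self]
  have hz : a x s - s ∈ S ⊓ S' :=
    ⟨sub_mem (h x hx s hs) hs, e ▸ neg_mem (sub_mem (h' x hx s' hs') hs')⟩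
  obtain ⟨t, ht, h3⟩ := onto hT (hX hx) (h.inf h' x hx) (fun w hw => hI w hw.1) hz
  have h4 : s - t = 0 := by
    refine hI _ (sub_mem hs ht.1) ?_
    rw [map_sub, sub_eq_sub_iff_sub_eq_sub, h3]
  have h5 : s = t := sub_eq_zero.1 h4
  subst h5
  refine hI' _ (add_mem ht.2 hs') ?_
  rw [map_add, hfix]

end OB1x

open OB1x in
theorem p_OB1 :
    S_OB1 := by
  intro G _ K _ V _ _ a T X x hT hX hx
  have hne : ({S : Submodule K V | Iv a X S ∧ Inj a x S}).Nonempty :=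
    ⟨⊥, fun g _ v hv => by rw [(Submodule.mem_bot K).1 hv, map_zero]; exact zero_mem _,
      fun v hv _ => (Submodule.mem_bot K).1 hv⟩
  have hdir : DirectedOn (· ≤ ·) {S : Submodule K V | Iv a X S ∧ Inj a x S} :=
    fun S hS S' hS' => ⟨S ⊔ S', ⟨iv_sup hS.1 hS'.1, inj_sup hT hX hx hS.1 hS'.1 hS.2 hS'.2⟩,
      le_sup_left, le_sup_right⟩
  refine ⟨sSup {S : Submodule K V | Iv a X S ∧ Inj a x S}, fun g hg v hv => ?_,
    fun v hv hfix => ?_, fun S h1 h2 => le_sSup ⟨h1, h2⟩⟩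
  · obtain ⟨S, hS, hv'⟩ := (Submodule.mem_sSup_of_directed hne hdir).1 hv
    exact le_sSup hS (hS.1 g hg v hv')
  · obtain ⟨S, hS, hv'⟩ := (Submodule.mem_sSup_of_directed hne hdir).1 hv
    exact hS.2 v hv' hfix

end Pool.Agent.P.MP_3540e7_al.T7
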