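import Pool.Agent.P.MP_3540e7_al.T7.Iface

/-! Step RED. -/

set_option autoImplicit false
set_option linter.unusedSectionVars false

namespace Pool.Agent.P.MP_3540e7_al.T7

open Subgroup T5
open scoped commutatorElement

theorem p_RED (hCW : S_CW) (hCWS : S_CWS) (hRED0 : S_RED0) :
    S_RED := by
  intro G _ _ N₁ N L R _ _ _ hR cf le ly tt
  by_contra n
  obtain ⟨J, w, hL, cw⟩ := hRED0 G N₁ N L R cf le ly n
  have hJ := le_normalizer_orb J {w}
  generalize closure (orb J {w}) = W at hL cw hJ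
  have hX : J ⊔ W ≤ normalizer (W : Set G) := sup_le hJ le_normalizer
  have n1 : (W.subgroupOf (J ⊔ W)).Normal := normal_subgroupOf_of_le_normalizer hX
  have n2 : ((R ⊓ W).subgroupOf (J ⊔ W)).Normal :=
    ⟨fun x hx g => ⟨hR.conj_mem _ hx.1 g, n1.conj_mem x hx.2 g⟩⟩
  refine hCW (J ⊔ W : Subgroup G) _ _ _ _ _ _
    (hCWS G N₁ N W (R ⊓ W) J (J ⊔ W) ⟨w, mem_sup_right cw.mem⟩ le_sup_left le_sup_right cw) ?_
  rcases tt with ⟨p, h1, h2, h3⟩ | h
  · refine Or.inl ⟨p, h1, fun b hb => ?_, fun b hb => ⟨h3 b (hL hb), pow_mem hb p⟩⟩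
    obtain ⟨k, k1, k2⟩ := h2 b (hL hb)
    exact ⟨k, k1, Subtype.ext k2⟩
  · exact Or.inr fun b hb k k1 k2 => ⟨h b (hL hb) k k1 k2.1, hb⟩

end Pool.Agent.P.MP_3540e7_al.T7
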