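import Pool.Agent.P.MP_3540e7_al.T7.Iface

/-! Step RED0. -/

set_option autoImplicit false
set_option linter.unusedSectionVars false

namespace Pool.Agent.P.MP_3540e7_al.T7

open Subgroup T5
open scoped commutatorElement

theorem p_RED0 (hBD1 : S_BD1) (hCH : T5.S_CH) (hB : T5.S_B) :
    S_RED0 := by
  intro G _ _ N₁ N L R _ _ _ hc hL hy hne
  obtain ⟨E, hE, hEL, w, hw, hn, hpc⟩ := hCH G L hne
  have safe : ∀ F : Set G, F.Finite → F ⊆ L → ¬ Noeth (centralizer F) := fun F hF hFL h =>
    hc.nn (hB G R L hc.hc hy.cm hy.pc F hF hFL h)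
  have ho : orb (centralizer E) {w} ⊆ L := orb_subset _ (by simpa using hw)
  have hW : closure (orb (centralizer E) {w}) ≤ L := (closure_le _).2 ho
  refine ⟨centralizer E, w, hW, ⟨inf_le_right,
    le_inf ((commutator_mono hW hW).trans hy.cm) (commutator_le_self _), hy.pc.mono inf_le_left,
    hy.lp.mono hW, hy.pn.mono hW⟩, hW.trans hL, hc.le, hc.cm, hc.pn,
    subset_closure ⟨1, one_mem _, w, rfl, by simp⟩, hn, hc.hc E hE,
    (hBD1 G L _ hy.lp).1 _ ho hpc, ?_, fun F hF hFW => ?_⟩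
  · have h2 := hc.fi _ (hE.union (Set.finite_singleton w)) (safe _
      (hE.union (Set.finite_singleton w)) (Set.union_subset hEL (by simpa using hw)))
    rw [centralizer_union] at h2
    have h3 : ((centralizer E ⊓ centralizer {w}) ⊔ N).relIndex (centralizer E) ≠ 0 :=
      (instFiniteIndex_subgroupOf _ _).index_ne_zero
    intro h0
    apply h3
    rw [← inf_relIndex_right]
    refine relIndex_eq_zero_of_le_left ?_ h0
    rintro g ⟨hg, hgJ⟩
    obtain ⟨x, hx, m, hm, rfl⟩ := (mem_sup_norm (by rw [normalizer_eq_top]; exact le_top)).1 hg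
    refine mul_mem (mem_sup_left hx) (mem_sup_right ⟨?_, hm⟩)
    have hx1 : x ∈ centralizer E := (mem_inf.1 hx).1
    have hg1 : x * m ∈ centralizer E := hgJ
    have := mul_mem (inv_mem hx1) hg1
    simpa using this
  · obtain ⟨x, hx, hx'⟩ := hc.kx _ (hE.union hF)
      (safe _ (hE.union hF) (Set.union_subset hEL (hFW.trans hW)))
    rw [centralizer_union] at hx
    exact ⟨x, ⟨⟨hx.1.1, hx.2⟩, hx.1.2⟩, hx'⟩

end Pool.Agent.P.MP_3540e7_al.T7
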