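import Pool.Agent.P.MP_3540e7_al.T7.Iface

/-! Step REL1. -/

set_option autoImplicit false
set_option linter.unusedSectionVars false

namespace Pool.Agent.P.MP_3540e7_al.T7

open Subgroup T5
open scoped commutatorElement

theorem p_REL1 :
    S_REL1 := by
  intro G _ K _ V _ _ a ι W R S b h hS hb hsp
  have hle : closure S ≤ W := (closure_le _).2 hS
  have hz : ∀ s ∈ W, ∀ z : ℤ, ι (s ^ z) = (z : K) • ι s := by
    intro s hs z
    obtain ⟨n, rfl | rfl⟩ := Int.eq_nat_or_neg z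
    · rw [zpow_natCast, h.pow hs, Int.cast_natCast]
    · rw [zpow_neg, zpow_natCast, h.inv (pow_mem hs n), h.pow hs, Int.cast_neg, Int.cast_natCast,
        neg_smul]
  have key : ∀ v ∈ Submodule.span K (ι '' S),
      ∃ k : ℕ, (k : K) ≠ 0 ∧ ∃ s ∈ closure S, (k : K) • v = ι s := by
    intro v hv
    induction hv using Submodule.span_induction with
    | mem x hx =>
      obtain ⟨s, hs, rfl⟩ := hx
      exact ⟨1, by simp, s, subset_closure hs, by simp⟩
    | zero => exact ⟨1, by simp, 1, one_mem _, by simp [h.one]⟩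
    | add x y _ _ ihx ihy =>
      obtain ⟨k, hk, s, hs, e⟩ := ihx
      obtain ⟨k', hk', s', hs', e'⟩ := ihy
      refine ⟨k * k', by rw [Nat.cast_mul]; exact mul_ne_zero hk hk', s ^ k' * s' ^ k,
        mul_mem (pow_mem hs _) (pow_mem hs' _), ?_⟩
      rw [h.add _ (pow_mem (hle hs) _) _ (pow_mem (hle hs') _), h.pow (hle hs), h.pow (hle hs'),
        ← e, ← e', Nat.cast_mul, smul_add, smul_smul, smul_smul, mul_comm (k' : K) k]
    | smul c x _ ih =>
      obtain ⟨k, hk, s, hs, e⟩ := ih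
      obtain ⟨m, n, hn, hc⟩ := h.prim c
      refine ⟨n * k, by rw [Nat.cast_mul]; exact mul_ne_zero hn hk, s ^ m, zpow_mem hs _, ?_⟩
      rw [hz s (hle hs), ← e, ← hc, Nat.cast_mul, smul_smul, smul_smul]
      congr 1
      ring
  obtain ⟨k, hk, s, hs, e⟩ := key _ hsp
  refine ⟨k, hk, ?_⟩
  have h1 : s⁻¹ * b ^ k ∈ R := by
    refine (h.ker _ (mul_mem (inv_mem (hle hs)) (pow_mem hb _))).1 ?_
    rw [h.add _ (inv_mem (hle hs)) _ (pow_mem hb _), h.inv (hle hs), h.pow hb, e, neg_add_cancel]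
  have h2 : b ^ k = s * (s⁻¹ * b ^ k) := by group
  rw [h2]
  exact mul_mem (mem_sup_left hs) (mem_sup_right h1)

end Pool.Agent.P.MP_3540e7_al.T7
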