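import Pool.Agent.P.MP_3540e7_al.T7.Iface

/-! Step REL2. -/

set_option autoImplicit false
set_option linter.unusedSectionVars false

namespace Pool.Agent.P.MP_3540e7_al.T7

open Subgroup T5
open scoped commutatorElement

namespace REL2x

theorem mem_span {K : Type} [Field K] {V : Type} [AddCommGroup V] [Module K V] {e : ℤ → V}
    {s : Finset ℤ} {g : ℤ → K} (h : ∑ i ∈ s, g i • e i = 0) {j : ℤ} (hj : j ∈ s) (hg : g j ≠ 0)
    {T : Set ℤ} (hT : ∀ i ∈ s, g i ≠ 0 → i ≠ j → i ∈ T) : e j ∈ Submodule.span K (e '' T) := by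
  rw [← Finset.add_sum_erase s _ hj] at h
  refine mem_of_smul_mem hg ?_
  rw [eq_neg_of_add_eq_zero_left h]
  refine neg_mem (Submodule.sum_mem _ fun i hi => ?_)
  by_cases h0 : g i = 0
  · rw [h0, zero_smul]; exact zero_mem _
  · exact Submodule.smul_mem _ _ (Submodule.subset_span
      ⟨i, hT i (Finset.mem_of_mem_erase hi) h0 (Finset.ne_of_mem_erase hi), rfl⟩)

end REL2x

theorem p_REL2 :
    S_REL2 := by
  intro K _ V _ _ e h
  classical
  obtain ⟨s, g, hs, k, hk, hgk⟩ := not_linearIndependent_iff.1 h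
  set t := s.filter fun i => g i ≠ 0 with ht
  have hne : t.Nonempty := ⟨k, Finset.mem_filter.2 ⟨hk, hgk⟩⟩
  have hi := Finset.mem_filter.1 (t.min'_mem hne)
  have hj := Finset.mem_filter.1 (t.max'_mem hne)
  refine ⟨t.min' hne, t.max' hne, t.min'_le_max' hne, ?_, ?_⟩
  · refine REL2x.mem_span hs hj.1 hj.2 fun i h1 h2 h3 => ?_
    have hm : i ∈ t := Finset.mem_filter.2 ⟨h1, h2⟩
    exact ⟨t.min'_le i hm, lt_of_le_of_ne (t.le_max' i hm) h3⟩
  · refine REL2x.mem_span hs hi.1 hi.2 fun i h1 h2 h3 => ?_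
    have hm : i ∈ t := Finset.mem_filter.2 ⟨h1, h2⟩
    exact ⟨lt_of_le_of_ne (t.min'_le i hm) h3.symm, t.le_max' i hm⟩

end Pool.Agent.P.MP_3540e7_al.T7
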