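import Pool.Agent.P.MP_3540e7_al.T7.Iface

/-! Step RHO. -/

set_option autoImplicit false
set_option linter.unusedSectionVars false

namespace Pool.Agent.P.MP_3540e7_al.T7

open Subgroup T5
open scoped commutatorElement

namespace RHOx

theorem self_mem {G : Type} [Group G] (g : G) : g ∈ normalClosure ({g} : Set G) :=
  subset_normalClosure rfl

theorem of_mem {G : Type} [Group G] {N : Subgroup G} [N.Normal] (h : Noeth N) {g : G}
    (hg : g ∈ N) : Noeth (normalClosure ({g} : Set G)) :=
  h.le (normalClosure_le_normal (Set.singleton_subset_iff.2 hg))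

/-- The elements whose normal closure is noetherian. -/
def rho (G : Type) [Group G] : Subgroup G where
  carrier := {g | Noeth (normalClosure {g})}
  mul_mem' {a b} ha hb :=
    of_mem (Noeth.sup ha hb) (mul_mem (mem_sup_left (self_mem a)) (mem_sup_right (self_mem b)))
  one_mem' := RN.of_le (normalClosure_le_normal (Set.singleton_subset_iff.2 (one_mem _)))
  inv_mem' {a} ha := of_mem ha (inv_mem (self_mem a))

end RHOx

theorem p_RHO :
    S_RHO := by
  intro G _
  exact ⟨RHOx.rho G, ⟨fun a ha g => RHOx.of_mem ha
      (normalClosure_normal.conj_mem a (RHOx.self_mem a) g)⟩, fun _ => Iff.rfl,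
    pc_of_single fun _ h => h,
    fun R hR g hg => hR {g} (Set.finite_singleton g) (Set.singleton_subset_iff.2 hg)⟩

end Pool.Agent.P.MP_3540e7_al.T7
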