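import Pool.Agent.P.MP_3540e7_al.T7.Iface

/-! Step ROOT. -/

set_option autoImplicit false
set_option linter.unusedSectionVars false

namespace Pool.Agent.P.MP_3540e7_al.T7

open Subgroup T5
open scoped commutatorElement

theorem p_ROOT (hTORS : S_TORS) (hROOT0 : S_ROOT0) :
    S_ROOT := by
  intro Q _ _ g h k hk hf
  have hm : ∀ a b : Q, IsOfFinOrder a → IsOfFinOrder b → IsOfFinOrder (a * b) := by
    intro a b ha hb
    have hS := hTORS (closure ({a, b} : Set Q))
      (((↑) : closure ({a, b} : Set Q) → Q) ⁻¹' {a, b}) closure_closure_coe_preimage (by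
        intro s hs
        refine (Function.Injective.isOfFinOrder_iff (f := (closure ({a, b} : Set Q)).subtype)
          Subtype.coe_injective).1 ?_
        change IsOfFinOrder (s : Q)
        rcases hs with e | e
        · rw [show (s : Q) = a from e]; exact ha
        · rw [show (s : Q) = b from e]; exact hb)
    exact (closure ({a, b} : Set Q)).subtype.isOfFinOrder (hS ⟨a * b, mul_mem
      (subset_closure (Or.inl rfl)) (subset_closure (Or.inr rfl))⟩)
  let τ : Subgroup Q :=
    { carrier := {x | IsOfFinOrder x}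
      one_mem' := IsOfFinOrder.one
      mul_mem' := fun ha hb => hm _ _ ha hb
      inv_mem' := fun ha => IsOfFinOrder.inv ha }
  have hN : τ.Normal := ⟨fun a ha x => (MulAut.conj x).toMonoidHom.isOfFinOrder ha⟩
  have key : ((g : Q ⧸ τ)) = (h : Q ⧸ τ) := by
    refine hROOT0 (Q ⧸ τ) (fun z _ hz => ?_) _ _ k hk ?_
    · obtain ⟨y, rfl⟩ := QuotientGroup.mk_surjective z
      obtain ⟨n, hn, e⟩ := isOfFinOrder_iff_pow_eq_one.1 hz
      rw [← QuotientGroup.mk_pow, QuotientGroup.eq_one_iff] at e
      exact (QuotientGroup.eq_one_iff y).2 (IsOfFinOrder.of_pow e hn.ne')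
    · rw [← mul_inv_eq_one, ← QuotientGroup.mk_pow, ← QuotientGroup.mk_pow,
        ← QuotientGroup.mk_inv, ← QuotientGroup.mk_mul, QuotientGroup.eq_one_iff]
      exact hf
  rw [← mul_inv_eq_one, ← QuotientGroup.mk_inv, ← QuotientGroup.mk_mul,
    QuotientGroup.eq_one_iff] at key
  exact key

end Pool.Agent.P.MP_3540e7_al.T7
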