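import Pool.Agent.P.MP_3540e7_al.T7.Iface

/-! Step ROOT0. -/

set_option autoImplicit false
set_option linter.unusedSectionVars false

namespace Pool.Agent.P.MP_3540e7_al.T7

open Subgroup T5
open scoped commutatorElement

namespace ROOT0x

variable {Q : Type} [Group Q]

theorem conj_pow' {g h c : Q} (hc : c ∈ center Q) (e : h * g * h⁻¹ = g * c) (n : ℕ) :
    h * g ^ n * h⁻¹ = g ^ n * c ^ n := by
  rw [← conj_pow, e, Commute.mul_pow (mem_center_iff.1 hc g)]

theorem step (hQ : ∀ z ∈ center Q, IsOfFinOrder z → z = 1) :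
    ∀ z ∈ center (Q ⧸ center Q), IsOfFinOrder z → z = 1 := by
  intro z hz hf
  obtain ⟨g, rfl⟩ := QuotientGroup.mk_surjective z
  obtain ⟨n, hn, e⟩ := isOfFinOrder_iff_pow_eq_one.1 hf
  rw [← QuotientGroup.mk_pow, QuotientGroup.eq_one_iff] at e
  rw [QuotientGroup.eq_one_iff, mem_center_iff]
  intro h
  have hc : g⁻¹ * (h * g * h⁻¹) ∈ center Q := by
    rw [← QuotientGroup.eq, QuotientGroup.mk_mul, QuotientGroup.mk_mul, mem_center_iff.1 hz,
      QuotientGroup.mk_inv, mul_inv_cancel_right]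
  have e1 := conj_pow' (g := g) (h := h) hc (by group) n
  rw [mem_center_iff.1 e h, mul_inv_cancel_right, left_eq_mul] at e1
  have e2 := hQ _ hc (isOfFinOrder_iff_pow_eq_one.2 ⟨n, hn, e1⟩)
  rw [inv_mul_eq_one, eq_mul_inv_iff_mul_eq] at e2
  exact e2.symm

end ROOT0x

open ROOT0x in
theorem p_ROOT0 :
    S_ROOT0 := by
  intro Q _ _
  refine Group.nilpotent_center_quotient_ind (P := fun Q _ _ =>
    (∀ z ∈ center Q, IsOfFinOrder z → z = 1) → ∀ (g h : Q) (k : ℕ), 0 < k → g ^ k = h ^ k → g = h)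
    Q (fun G _ _ _ g h _ _ _ => Subsingleton.elim g h) fun G _ _ ih hG g h k hk e => ?_
  have e1 := ih (step hG) (QuotientGroup.mk g) (QuotientGroup.mk h) k hk
    (by rw [← QuotientGroup.mk_pow, e, QuotientGroup.mk_pow])
  rw [QuotientGroup.eq] at e1
  have e3 : h ^ k = g ^ k * (g⁻¹ * h) ^ k := by
    rw [← Commute.mul_pow (mem_center_iff.1 e1 g), mul_inv_cancel_left]
  rw [← e, left_eq_mul] at e3
  exact inv_mul_eq_one.1 (hG _ e1 (isOfFinOrder_iff_pow_eq_one.2 ⟨k, hk, e3⟩))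

end Pool.Agent.P.MP_3540e7_al.T7
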