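import Pool.Agent.P.MP_3540e7_al.T7.Iface

/-! Step RPP. -/

set_option autoImplicit false
set_option linter.unusedSectionVars false

namespace Pool.Agent.P.MP_3540e7_al.T7

open Subgroup T5
open scoped commutatorElement

namespace RPPx

theorem lift (p : ℕ) [Fact p.Prime] (V : Type) [AddCommGroup V] [Module (ZMod p) V] (G : Type)
    [Group G] (f : G → V →+ V) (h1 : ∀ v, f 1 v = v) (hm : ∀ g h v, f (g * h) v = f g (f h v)) :
    ∃ ρ : G →* Module.End (ZMod p) V, ∀ g v, ρ g v = f g v :=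
  ⟨{ toFun := fun g => (f g).toZModLinearMap p
     map_one' := LinearMap.ext h1
     map_mul' := fun g h => LinearMap.ext (hm g h) }, fun _ _ => rfl⟩

end RPPx

theorem p_RPP :
    S_RPP := by
  classical
  intro G _ W R _ _ p _ hc hp
  let q := QuotientGroup.mk' R
  let A : Subgroup (G ⧸ R) := W.map q
  have hA : A.Normal := Normal.map ‹_› q (QuotientGroup.mk'_surjective R)
  have hcomm : ∀ x ∈ A, ∀ y ∈ A, x * y = y * x := by
    rintro _ ⟨b, hb, rfl⟩ _ ⟨c, hc', rfl⟩
    rw [← commutatorElement_eq_one_iff_mul_comm, ← map_commutatorElement]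
    exact (QuotientGroup.eq_one_iff _).2 (hc (commutator_mem_commutator hb hc'))
  let : CommGroup A := { (inferInstance : Group A) with
    mul_comm := fun a b => Subtype.ext (hcomm a.1 a.2 b.1 b.2) }
  have hpA : ∀ x : Additive A, p • x = 0 := by
    intro x
    obtain ⟨b, hb, e⟩ := (Additive.toMul x).2
    change (Additive.toMul x) ^ p = 1
    apply Subtype.ext
    rw [Subgroup.coe_pow, ← e, ← map_pow]
    exact (QuotientGroup.eq_one_iff _).2 (hp b hb)
  let : Module (ZMod p) (Additive A) := AddCommGroup.zmodModule hpA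
  obtain ⟨ρ, hρ⟩ := RPPx.lift p (Additive A) G
    (fun g => MonoidHom.toAdditive (MulAut.conjNormal (q g) : MulAut A).toMonoidHom)
    (fun a => by ext; simp) (fun g h a => by ext; simp)
  let ι : G → Additive A := fun g => if h : q g ∈ A then Additive.ofMul (⟨q g, h⟩ : A) else 0
  have hm : ∀ b ∈ W, q b ∈ A := fun b hb => ⟨b, hb, rfl⟩
  have hι : ∀ g (h : g ∈ W), ι g = Additive.ofMul (⟨q g, hm g h⟩ : A) := fun g h =>
    dif_pos (hm g h)
  refine ⟨Additive A, inferInstance, inferInstance, ρ, ι,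
    ⟨fun b hb c hc => ?_, fun g b hb => ?_, fun b hb => ?_, fun v => ?_, fun c => ?_⟩⟩
  · rw [hι _ hb, hι _ hc, hι _ (mul_mem hb hc), ← ofMul_mul]
    congr 1
  · rw [hι _ hb, hι _ (Normal.conj_mem ‹_› b hb g), hρ]
    rfl
  · rw [hι _ hb]
    change (⟨q b, hm b hb⟩ : A) = 1 ↔ _
    rw [Subtype.ext_iff]
    exact QuotientGroup.eq_one_iff _
  · obtain ⟨b, hb, e⟩ := (Additive.toMul v).2
    refine ⟨1, by simp, b, hb, ?_⟩
    rw [hι _ hb, Nat.cast_one, one_smul]
    exact congrArg Additive.ofMul (Subtype.ext e.symm : Additive.toMul v = ⟨q b, hm b hb⟩)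
  · exact ⟨c.val, 1, by simp, by simp⟩

end Pool.Agent.P.MP_3540e7_al.T7
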