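import Pool.Agent.P.MP_3540e7_al.T7.Iface

/-! Step RPT. -/

set_option autoImplicit false
set_option linter.unusedSectionVars false

namespace Pool.Agent.P.MP_3540e7_al.T7

open Subgroup T5
open scoped commutatorElement

theorem p_RPT (hRAT : T5.S_RAT) :
    S_RPT := by
  intro G _ W R _ _ hcm htf
  have hn : (W.map (QuotientGroup.mk' R)).Normal :=
    Subgroup.Normal.map inferInstance _ (QuotientGroup.mk'_surjective R)
  have hab : Ab (W.map (QuotientGroup.mk' R)) := by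
    rintro _ ⟨x, hx, rfl⟩ _ ⟨y, hy, rfl⟩
    rw [← commutatorElement_eq_one_iff_mul_comm, ← map_commutatorElement,
      QuotientGroup.mk'_apply, QuotientGroup.eq_one_iff]
    exact hcm (commutator_mem_commutator hx hy)
  obtain ⟨V, i1, i2, a, ι, hR, hk⟩ := hRAT (G ⧸ R) (W.map (QuotientGroup.mk' R)) hab
  refine ⟨V, i1, i2, a.comp (QuotientGroup.mk' R), fun g => ι (QuotientGroup.mk' R g),
    ⟨fun b hb c hc => ?_, fun g b hb => ?_, fun b hb => ⟨fun h => ?_, fun h => ?_⟩,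
      fun v => ?_, fun c => ?_⟩⟩
  · rw [map_mul]
    exact hR.add _ (mem_map_of_mem _ hb) _ (mem_map_of_mem _ hc)
  · rw [map_mul, map_mul, map_inv]
    exact hR.conj _ _ (mem_map_of_mem _ hb)
  · obtain ⟨n, hn0, hn1⟩ := hk _ (mem_map_of_mem _ hb) h
    rw [← map_pow, QuotientGroup.mk'_apply, QuotientGroup.eq_one_iff] at hn1
    exact htf b hb n hn0 hn1
  · have e : QuotientGroup.mk' R b = 1 := by
      rw [QuotientGroup.mk'_apply, QuotientGroup.eq_one_iff]; exact h
    rw [e]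
    exact hR.one
  · obtain ⟨n, hn0, _, ⟨b, hb, rfl⟩, h⟩ := hR.span v
    refine ⟨n, Nat.cast_ne_zero.2 hn0.ne', b, hb, ?_⟩
    rw [Nat.cast_smul_eq_nsmul]
    exact h
  · exact ⟨c.num, c.den, Nat.cast_ne_zero.2 c.den_ne_zero, Rat.den_mul_eq_num c⟩

end Pool.Agent.P.MP_3540e7_al.T7
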