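import Pool.Agent.P.MP_3540e7_al.T7.Iface

/-! Step SH. -/

set_option autoImplicit false
set_option linter.unusedSectionVars false

namespace Pool.Agent.P.MP_3540e7_al.T7

open Subgroup T5
open scoped commutatorElement

namespace SHx

theorem key {G : Type} [Group G] {W P Z : Subgroup G} [W.Normal] [hP : P.Normal] {y v : G}
    (hv : v ∈ W) (hZ : P ≤ Z) {k : ℕ} (hk : ∀ g ∈ W, g ^ k ∈ Z → g ∈ Z) {S : Set ℤ} {m : ℤ}
    (h : cj y m v ^ k ∈ closure ((fun l => cj y l v) '' S) ⊔ P) (n : ℤ)
    (hS : ∀ l ∈ S, cj y (n + l) v ∈ Z) : cj y (n + m) v ∈ Z := by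
  have : closure ((fun l => cj y l v) '' S) ⊔ P ≤ Z.comap (MulAut.conj (y ^ n)).toMonoidHom := by
    refine sup_le ((closure_le _).2 ?_) fun g hg => hZ (hP.conj_mem g hg _)
    rintro _ ⟨l, hl, rfl⟩
    have := hS l hl
    rwa [cj_add] at this
  refine hk _ (cj_mem y _ hv) ?_
  have := mem_comap.1 (this h)
  rw [map_pow] at this
  rw [cj_add]
  exact this

end SHx

theorem p_SH :
    S_SH := by
  intro G _ W P Z _ _ y v i j k k' hv hZ hk hk' ⟨hij, h1, h2⟩ h0 l
  have up : ∀ n : ℕ, ∀ l, i ≤ l → l ≤ j + n → cj y l v ∈ Z := fun n => by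
    induction n with
    | zero => simpa using h0
    | succ n ih =>
      intro l a b
      by_cases c : l ≤ j + n
      · exact ih l a c
      · rw [show l = (n + 1 : ℤ) + j by omega]
        exact SHx.key hv hZ hk h1 _ fun m hm => ih _ (by have := hm.1; omega)
          (by have := hm.2; omega)
  have dn : ∀ n : ℕ, ∀ l, i - n ≤ l → l ≤ j → cj y l v ∈ Z := fun n => by
    induction n with
    | zero => simpa using h0
    | succ n ih =>
      intro l a b
      by_cases c : i - n ≤ l
      · exact ih l c b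
      · rw [show l = -(n + 1 : ℤ) + i by omega]
        exact SHx.key hv hZ hk' h2 _ fun m hm => ih _ (by have := hm.1; omega)
          (by have := hm.2; omega)
  rcases le_total i l with c | c
  · exact up (l - j).toNat l c (by omega)
  · exact dn (i - l).toNat l (by omega) (by omega)

end Pool.Agent.P.MP_3540e7_al.T7
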