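import Pool.Agent.P.MP_3540e7_al.T7.Iface

/-! Step SIM. -/

set_option autoImplicit false
set_option linter.unusedSectionVars false

namespace Pool.Agent.P.MP_3540e7_al.T7

open Subgroup T5
open scoped commutatorElement

namespace SIMx

variable {G : Type} [Group G] {K : Type} [Field K] {V : Type} [AddCommGroup V] [Module K V]

theorem exists_fix {a : G →* Module.End K V} {X : Subgroup G} {x : G}
    (h : ∀ S : Submodule K V, Iv a X S → Inj a x S → S = ⊥) {S : Submodule K V}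
    (hS : Iv a X S) (hne : S ≠ ⊥) : ∃ s ∈ S, s ≠ 0 ∧ a x s = s := by
  by_contra hc
  refine hne (h S hS fun v hv hx => ?_)
  by_contra h0
  exact hc ⟨v, hv, h0, hx⟩

theorem mem_ker_iff (a : G →* Module.End K V) (x : G) (v : V) :
    v ∈ LinearMap.ker (a x - 1) ↔ a x v = v := by
  rw [LinearMap.mem_ker, LinearMap.sub_apply, Module.End.one_apply, sub_eq_zero]

end SIMx

theorem p_SIM (hNIL : S_NIL) :
    S_SIM := by
  intro G _ _ K _ V _ _ _ a T U X _ x hU hT hUX hXT hfd hO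
  classical
  have hex : ∃ n : ℕ, ∃ S : Submodule K V, Iv a X S ∧ S ≠ ⊥ ∧
      Module.finrank K (S ⊓ LinearMap.ker (a x - 1) : Submodule K V) = n :=
    ⟨_, ⊤, fun _ _ _ _ => Submodule.mem_top, top_ne_bot, rfl⟩
  obtain ⟨S₀, hS₀, hne, hrk⟩ := Nat.find_spec hex
  have hmin : ∀ S : Submodule K V, Iv a X S → S ≠ ⊥ →
      Module.finrank K (S₀ ⊓ LinearMap.ker (a x - 1) : Submodule K V) ≤
        Module.finrank K (S ⊓ LinearMap.ker (a x - 1) : Submodule K V) := by
    intro S hS hS'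
    rw [hrk]
    exact Nat.find_min' hex ⟨S, hS, hS', rfl⟩
  obtain ⟨s, hs, hs0, hxs⟩ := SIMx.exists_fix hO hS₀ hne
  refine ⟨s, hs0, hxs, fun u hu => ?_⟩
  by_contra hus
  have hs' : a u s - s ≠ 0 := sub_ne_zero.2 hus
  have hmem : a u s - s ∈ S₀ := sub_mem (hS₀ u (hUX hu) s hs) hs
  have hle : gen a X (a u s - s) ≤ S₀ := gen_le hS₀ hmem
  have hne' : gen a X (a u s - s) ≠ ⊥ := by
    intro h0
    have := mem_gen a X (a u s - s)
    rw [h0] at this
    exact hs' ((Submodule.mem_bot K).1 this)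
  have : FiniteDimensional K (S₀ ⊓ LinearMap.ker (a x - 1) : Submodule K V) :=
    Submodule.finiteDimensional_of_le inf_le_right
  have heq : gen a X (a u s - s) ⊓ LinearMap.ker (a x - 1) = S₀ ⊓ LinearMap.ker (a x - 1) :=
    Submodule.eq_of_le_of_finrank_le (inf_le_inf_right _ hle) (hmin _ (iv_gen a X _) hne')
  have hsm : s ∈ gen a X (a u s - s) ⊓ LinearMap.ker (a x - 1) := by
    rw [heq]
    exact ⟨hs, (SIMx.mem_ker_iff a x s).2 hxs⟩
  exact hs0 (hNIL G K V a T U X u s hU hT hXT hu (hUX hu) hsm.1)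

end Pool.Agent.P.MP_3540e7_al.T7
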