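import Pool.Agent.P.MP_3540e7_al.T7.Iface

/-! Step SU. -/

set_option autoImplicit false
set_option linter.unusedSectionVars false

namespace Pool.Agent.P.MP_3540e7_al.T7

open Subgroup T5
open scoped commutatorElement

namespace SUx

variable {G : Type} [Group G] {K : Type} [Field K] {V : Type} [AddCommGroup V] [Module K V]

/-- vectors of `S` fixed by `N` modulo `M` -/
def fx (a : G →* Module.End K V) (N : Subgroup G) (M S : Submodule K V) : Submodule K V :=
  S ⊓ ⨅ u ∈ N, M.comap (a u - 1)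

theorem mem_fx {a : G →* Module.End K V} {N : Subgroup G} {M S : Submodule K V} {s : V} :
    s ∈ fx a N M S ↔ s ∈ S ∧ ∀ u ∈ N, a u s - s ∈ M := by
  simp [fx, Submodule.mem_iInf]

end SUx

open SUx in
theorem p_SU (hSU0 : S_SU0) :
    S_SU := by
  intro G _ _ K _ V _ _ a U M S hu hle hne hf hM hS
  have step : ∀ k, (∃ s ∈ S, s ∉ M ∧ ∀ u ∈ der U (k + 1), a u s - s ∈ M) →
      ∃ s ∈ S, s ∉ M ∧ ∀ u ∈ der U k, a u s - s ∈ M := by
    rintro k ⟨s, h1, h2, h3⟩
    have hl : fx a (der U (k + 1)) M S ≤ S := inf_le_left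
    obtain ⟨t, k1, k2, k3⟩ := hSU0 G K V a (der U k) M (fx a (der U (k + 1)) M S)
      (fun u hu' => hu u (der_le U k hu'))
      (fun v hv => mem_fx.2 ⟨hle hv, fun u hu' => sub_mem (hM u (der_le U _ hu') v hv) hv⟩)
      (fun e => h2 (e ▸ mem_fx.2 ⟨h1, h3⟩)) (Submodule.finiteDimensional_of_le hl)
      (hM.mono (der_le U k))
      (fun g hg v hv => by
        have hg' := der_le U k hg
        obtain ⟨v1, v2⟩ := mem_fx.1 hv
        refine mem_fx.2 ⟨hS g hg' v v1, fun u hu' => ?_⟩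
        have h4 : g⁻¹ * u * g⁻¹⁻¹ ∈ der U (k + 1) :=
          (mem_normalizer_iff.1 (le_normalizer_der le_normalizer (k + 1) (inv_mem hg')) u).1 hu'
        have h5 := hM g hg' _ (v2 _ h4)
        rwa [map_sub, ← a_mul, show g * (g⁻¹ * u * g⁻¹⁻¹) = u * g by group, a_mul] at h5)
      (fun u hu1 u' hu2 v hv => by
        have h4 : ⁅u⁻¹, u'⁻¹⁆ ∈ der U (k + 1) :=
          commutator_mem_commutator (inv_mem hu1) (inv_mem hu2)
        have h5 := hM (u' * u) (der_le U k (mul_mem hu2 hu1)) _ ((mem_fx.1 hv).2 _ h4)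
        rwa [map_sub, ← a_mul, show u' * u * ⁅u⁻¹, u'⁻¹⁆ = u * u' by
          rw [commutatorElement_def]; group, a_mul, a_mul] at h5)
    exact ⟨t, hl k1, k2, k3⟩
  have all : ∀ k, (∃ s ∈ S, s ∉ M ∧ ∀ u ∈ der U k, a u s - s ∈ M) →
      ∃ s ∈ S, s ∉ M ∧ ∀ u ∈ U, a u s - s ∈ M := by
    intro k
    induction k with
    | zero => exact id
    | succ k ih => exact fun h => ih (step k h)
  obtain ⟨d, hd⟩ := exists_der_eq_bot U
  obtain ⟨s, h1, h2⟩ := SetLike.exists_of_lt (lt_of_le_of_ne hle hne)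
  refine all d ⟨s, h1, h2, fun u hu' => ?_⟩
  rw [hd, mem_bot] at hu'
  simp [hu']

end Pool.Agent.P.MP_3540e7_al.T7
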