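import Pool.Agent.P.MP_3540e7_al.T7.Iface

/-! Step SU0. -/

set_option autoImplicit false
set_option linter.unusedSectionVars false

namespace Pool.Agent.P.MP_3540e7_al.T7

open Subgroup T5
open scoped commutatorElement

namespace SU0x

theorem last {K V : Type} [Field K] [AddCommGroup V] [Module K V] (f : Module.End K V)
    (M S : Submodule K V) (hS : ∀ v ∈ S, f v ∈ S) (n : ℕ) :
    ∀ s ∈ S, s ∉ M → (f ^ n) s = 0 → ∃ t ∈ S, t ∉ M ∧ f t ∈ M := by
  induction n with
  | zero => exact fun s _ h e => absurd ((show s = 0 from e) ▸ M.zero_mem) h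
  | succ n ih =>
    intro s hs h e
    by_cases h1 : f s ∈ M
    · exact ⟨s, hs, h, h1⟩
    · exact ih (f s) (hS s hs) h1 (by rwa [pow_succ] at e)

end SU0x

theorem p_SU0 :
    S_SU0 := by
  intro G _ K _ V _ _ a U M S hu hM hne _ iM iS hc
  obtain ⟨S', ⟨h1, h2, h3⟩, hmin⟩ := (measure fun T : Submodule K V => Module.finrank K T).wf.has_min
    {T | T ≤ S ∧ ¬ T ≤ M ∧ Iv a U T} ⟨S, le_rfl, fun h => hne (le_antisymm hM h), iS⟩
  have := Submodule.finiteDimensional_of_le h1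
  obtain ⟨s, hs, hs'⟩ := SetLike.not_le_iff_exists.1 h2
  refine ⟨s, h1 hs, hs', fun u hU => ?_⟩
  have e : S' ⊓ M.comap (a u - 1) = S' := by
    refine Submodule.eq_of_le_of_finrank_le inf_le_left (not_lt.1 (hmin _
      ⟨inf_le_left.trans h1, fun h => ?_, fun g hg v hv => ⟨h3 g hg v hv.1, ?_⟩⟩))
    · obtain ⟨n, hn⟩ := hu u hU s
      obtain ⟨t, t1, t2, t3⟩ := SU0x.last (a u - 1) M S'
        (fun v hv => sub_mem (h3 u hU v hv) hv) n s hs hs' hn
      exact t2 (h ⟨t1, t3⟩)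
    · have := add_mem (hc u hU g hg v (h1 hv.1)) (iM g hg _ hv.2)
      show a u (a g v) - a g v ∈ M
      simpa using this
  exact (e.ge hs).2

end Pool.Agent.P.MP_3540e7_al.T7
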