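import Pool.Agent.P.MP_3540e7_al.T7.Iface

/-! Step TAU. -/

set_option autoImplicit false
set_option linter.unusedSectionVars false

namespace Pool.Agent.P.MP_3540e7_al.T7

open Subgroup T5
open scoped commutatorElement

theorem p_TAU (hTORL : S_TORL) (hROOT : S_ROOT) :
    S_TAU := by
  intro G _ W hN hL hP
  let τ : Subgroup G :=
    { carrier := {g | g ∈ W ∧ IsOfFinOrder g}
      one_mem' := ⟨W.one_mem, IsOfFinOrder.one⟩
      inv_mem' := fun h => ⟨W.inv_mem h.1, h.2.inv⟩
      mul_mem' := fun {a b} ha hb => ⟨W.mul_mem ha.1 hb.1,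
        hTORL G W {a, b} hL hP (by rintro _ (rfl | rfl); exacts [ha.1, hb.1])
          (by rintro _ (rfl | rfl); exacts [ha.2, hb.2]) _
          (mul_mem (subset_closure (by simp)) (subset_closure (by simp)))⟩ }
  refine ⟨τ, ⟨fun g hg x => ⟨hN.conj_mem g hg.1 x, (MulAut.conj x).toMonoidHom.isOfFinOrder hg.2⟩⟩,
    fun g => Iff.rfl, fun x g hg k hk h => ?_⟩
  have hg' : x * g * x⁻¹ ∈ W := hN.conj_mem g hg x
  refine ⟨W.mul_mem hg' (W.inv_mem hg), ?_⟩
  have hs : ({x * g * x⁻¹, g} : Set G) ⊆ W := by rintro _ (rfl | rfl); exacts [hg', hg]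
  let K := closure ({x * g * x⁻¹, g} : Set G)
  have := hP K ((closure_le _).2 hs) (hL _ (by simp) hs)
  have a1 := hROOT K ⟨x * g * x⁻¹, subset_closure (by simp)⟩ ⟨g, subset_closure (by simp)⟩ k hk
    (K.subtype_injective.isOfFinOrder_iff.1 (by
      simpa [commutatorElement_def, conj_pow] using h.2))
  exact K.subtype.isOfFinOrder a1

end Pool.Agent.P.MP_3540e7_al.T7
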