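import Pool.Agent.P.MP_3540e7_al.T7.Iface

/-! Step TDT. -/

set_option autoImplicit false
set_option linter.unusedSectionVars false

namespace Pool.Agent.P.MP_3540e7_al.T7

open Subgroup T5
open scoped commutatorElement

theorem p_TDT (hTIDY : S_TIDY) (hBD1 : S_BD1) (hMALN : T5.S_MALN) :
    S_TDT := by
  intro G _ _ W _ ok hW hok C hC hB E hE hEW
  have hn := le_normalizer_orb (C 0) E
  have h1 := hMALN G (C 0) _ ((hBD1 G W (C 0) hW).2 hB E hE hEW) hn
  obtain ⟨m₀, h2⟩ := hTIDY G C (C 0 ⊓ centralizer (closure (orb (C 0) E) : Set G)) hC inf_le_left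
    (le_normalizer_of_conj fun g hg j hj => ⟨(C 0).mul_mem ((C 0).mul_mem hg hj.1)
      ((C 0).inv_mem hg),
      mem_centralizer_iff.2 fun p hp => by
        have := mem_centralizer_iff.1 hj.2 _ ((mem_normalizer_iff.1 (hn (inv_mem hg)) p).1 hp)
        calc p * (g * j * g⁻¹) = g * (g⁻¹ * p * g⁻¹⁻¹ * j) * g⁻¹ := by group
          _ = g * j * g⁻¹ * p := by rw [this]; group⟩) h1
  refine ⟨m₀, fun m hm u hu => ?_⟩
  obtain ⟨k, k0, -, hk⟩ := exists_pow_mem_of_relIndex_ne_zero (h2 m hm) hu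
  exact ⟨k, hok k k0, sup_le_sup_left (inf_le_inf_right _ (inf_le_right.trans
    (centralizer_le ((subset_orb _ _).trans Subgroup.subset_closure)))) _ hk.1⟩

end Pool.Agent.P.MP_3540e7_al.T7
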