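import Pool.Agent.P.MP_3540e7_al.T7.Iface

/-! Step TIDY. -/

set_option autoImplicit false
set_option linter.unusedSectionVars false

namespace Pool.Agent.P.MP_3540e7_al.T7

open Subgroup T5
open scoped commutatorElement

theorem p_TIDY :
    S_TIDY := by
  intro G _ _ C K hC hK hn hR
  have hN : (K.subgroupOf (C 0)).Normal := (normal_subgroupOf_iff_le_normalizer hK).2 hn
  have h1 : RN (K.subgroupOf (C 0)) ⊤ := by
    have := RN.comap (C 0).subtype (by rw [range_subtype]; exact hK) hR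
    rwa [comap_subtype, comap_subtype, subgroupOf_self] at this
  have hB := ((rn_iff_map le_top).1 h1).bdd
  obtain ⟨f, hf⟩ : ∃ f : C 0 →* C 0 ⧸ K.subgroupOf (C 0), f = QuotientGroup.mk' _ := ⟨_, rfl⟩
  have hk : f.ker = K.subgroupOf (C 0) := by rw [hf, QuotientGroup.ker_mk']
  rw [← hf] at hB
  have hb : ∀ m, Bdd (((C m).subgroupOf (C 0)).map f) := fun m => hB.le (map_mono le_top)
  have hle : ∀ {a b : ℕ}, a ≤ b →
      ((C b).subgroupOf (C 0)).map f ≤ ((C a).subgroupOf (C 0)).map f := fun h =>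
    map_mono (comap_mono (hC h))
  obtain ⟨m₀, hm⟩ : ∃ m₀, ∀ m, hl (((C m₀).subgroupOf (C 0)).map f) ≤
      hl (((C m).subgroupOf (C 0)).map f) :=
    ⟨Function.argmin fun m => hl (((C m).subgroupOf (C 0)).map f),
      fun m => Function.argmin_le (fun m => hl (((C m).subgroupOf (C 0)).map f)) m⟩
  refine ⟨m₀, fun m hmm => ?_⟩
  have h2 : (((C (m + 1)).subgroupOf (C 0)).map f).relIndex
      (((C m).subgroupOf (C 0)).map f) ≠ 0 := fun h0 => by
    have a1 := hl_lt (hb m) (hle (Nat.le_succ m)) h0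
    have a2 := hl_mono (hb m₀) (hle hmm)
    have a3 := hm (m + 1)
    simp only [Nat.succ_eq_add_one] at a1
    omega
  have h3 : C (m + 1) ⊔ (K ⊓ C m) ≤ C m := sup_le (hC (Nat.le_succ m)) inf_le_right
  rw [← relIndex_subgroupOf (hC (Nat.zero_le m))]
  refine relIndex_ne_zero_of_map f (comap_mono h3) ?_ fun h0 =>
    h2 (relIndex_eq_zero_of_le_left (map_mono (comap_mono le_sup_left)) h0)
  rw [relIndex_eq_one.2]
  · exact one_ne_zero
  · rw [hk]
    exact fun x hx => ⟨hx.1, (le_sup_right : K ⊓ C m ≤ _) ⟨hx.1, hx.2⟩⟩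

end Pool.Agent.P.MP_3540e7_al.T7
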