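import Pool.Agent.P.MP_3540e7_al.T7.Iface

/-! Step TIDYF. -/

set_option autoImplicit false
set_option linter.unusedSectionVars false

namespace Pool.Agent.P.MP_3540e7_al.T7

open Subgroup T5
open scoped commutatorElement

namespace TIDYFx

theorem key {G : Type} [Group G] {A X K : Subgroup G} (h : A ≤ X) (h0 : K.relIndex X ≠ 0)
    (he : K.relIndex X ≤ K.relIndex A) : X ≤ A ⊔ (K ⊓ X) := by
  have hL : A ⊔ (K ⊓ X) ≤ X := sup_le h inf_le_right
  have h1 : K.relIndex (A ⊔ (K ⊓ X)) ≠ 0 := fun e => h0 (relIndex_eq_zero_of_le_right hL e)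
  have h2 : K.relIndex (A ⊔ (K ⊓ X)) = K.relIndex X :=
    le_antisymm (relIndex_le_of_le_right hL h0)
      (he.trans (relIndex_le_of_le_right le_sup_left h1))
  have h3 := relIndex_mul_relIndex (K ⊓ X) (A ⊔ (K ⊓ X)) X le_sup_right hL
  have h4 : (K ⊓ X).relIndex (A ⊔ (K ⊓ X)) = K.relIndex (A ⊔ (K ⊓ X)) := by
    rw [← inf_relIndex_right, inf_assoc, inf_eq_right.2 hL, inf_relIndex_right]
  rw [h4, h2, inf_relIndex_right] at h3
  exact relIndex_eq_one.1 (mul_left_cancel₀ h0 (h3.trans (mul_one _).symm))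

end TIDYFx

theorem p_TIDYF :
    S_TIDYF := by
  intro G _ C K hC h0
  have hn : ∀ m, K.relIndex (C m) ≠ 0 := fun m e =>
    h0 (relIndex_eq_zero_of_le_right (hC (Nat.zero_le m)) e)
  obtain ⟨_, ⟨m₀, rfl⟩, hm⟩ := wellFounded_lt.has_min (Set.range fun m => K.relIndex (C m))
    (Set.range_nonempty _)
  refine ⟨m₀, fun m hle => TIDYFx.key (hC (Nat.le_succ m)) (hn m) ?_⟩
  exact (relIndex_le_of_le_right (hC hle) (hn m₀)).trans (not_lt.1 (hm _ ⟨m + 1, rfl⟩))

end Pool.Agent.P.MP_3540e7_al.T7
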