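import Pool.Agent.P.MP_3540e7_al.T7.Iface

/-! Step TORL. -/

set_option autoImplicit false
set_option linter.unusedSectionVars false

namespace Pool.Agent.P.MP_3540e7_al.T7

open Subgroup T5
open scoped commutatorElement

theorem p_TORL (hTORS : S_TORS) :
    S_TORL := by
  intro G _ W S hL hP hS hs g hg
  have key : ∀ u ∈ closure S, ∃ T : Set G, T.Finite ∧ T ⊆ S ∧ u ∈ closure T := by
    intro u hu
    induction hu using closure_induction with
    | mem x hx => exact ⟨{x}, Set.finite_singleton x, by simpa using hx, subset_closure rfl⟩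
    | one => exact ⟨∅, Set.finite_empty, Set.empty_subset _, one_mem _⟩
    | mul x y _ _ hx hy =>
      obtain ⟨T, h1, h2, h3⟩ := hx
      obtain ⟨T', h1', h2', h3'⟩ := hy
      exact ⟨T ∪ T', h1.union h1', Set.union_subset h2 h2',
        mul_mem (closure_mono Set.subset_union_left h3) (closure_mono Set.subset_union_right h3')⟩
    | inv x _ hx =>
      obtain ⟨T, h1, h2, h3⟩ := hx
      exact ⟨T, h1, h2, inv_mem h3⟩
  obtain ⟨T, h1, h2, h3⟩ := key g hg
  have hn := hP (closure T) ((closure_le _).2 (h2.trans hS)) (hL T h1 (h2.trans hS))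
  have h4 := hTORS (closure T) (((↑) : closure T → G) ⁻¹' T) closure_closure_coe_preimage
    (fun s hs' => (closure T).subtype_injective.isOfFinOrder_iff.1 (hs _ (h2 hs'))) ⟨g, h3⟩
  exact (closure T).subtype.isOfFinOrder h4

end Pool.Agent.P.MP_3540e7_al.T7
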