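import Pool.Agent.P.MP_3540e7_al.T7.Iface

/-! Step TORS. -/

set_option autoImplicit false
set_option linter.unusedSectionVars false

namespace Pool.Agent.P.MP_3540e7_al.T7

open Subgroup T5
open scoped commutatorElement

namespace TORSx

/-- The central elements of finite order. -/
def zt (Q : Type) [Group Q] : Subgroup Q where
  carrier := {z | z ∈ center Q ∧ IsOfFinOrder z}
  one_mem' := ⟨one_mem _, IsOfFinOrder.one⟩
  mul_mem' := fun {a _} ha hb => ⟨mul_mem ha.1 hb.1,
    Commute.isOfFinOrder_mul (mem_center_iff.1 hb.1 a) ha.2 hb.2⟩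
  inv_mem' := fun {_} ha => ⟨inv_mem ha.1, ha.2.inv⟩

theorem comm_mem {Q : Type} [Group Q] {S : Set Q} (hS : Subgroup.closure S = ⊤)
    (ht : ∀ s ∈ S, IsOfFinOrder s) (x : Q) (hx : ∀ s, ⁅x, s⁆ ∈ center Q) (s : Q) :
    ⁅x, s⁆ ∈ zt Q := by
  let φ : Q →* Q := MonoidHom.mk' (fun s => ⁅x, s⁆) fun s t => by
    have h := mem_center_iff.1 (hx t) s
    calc ⁅x, s * t⁆ = ⁅x, s⁆ * (s * ⁅x, t⁆) * s⁻¹ := by
          simp only [commutatorElement_def]; group
      _ = ⁅x, s⁆ * ⁅x, t⁆ := by rw [h]; group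
  have h : Subgroup.closure S ≤ (zt Q).comap φ :=
    (Subgroup.closure_le _).2 fun s hs => ⟨hx s, φ.isOfFinOrder (ht s hs)⟩
  exact h (hS ▸ mem_top s)

theorem main (n : ℕ) : ∀ (Q : Type) [Group Q] (S : Set Q), Subgroup.closure S = ⊤ →
    (∀ s ∈ S, IsOfFinOrder s) → (⊤ : Subgroup Q).lowerCentralSeries n = ⊥ →
    ∀ g : Q, IsOfFinOrder g := by
  induction n with
  | zero =>
    intro Q _ S _ _ h g
    have : g = 1 := mem_bot.1 (h ▸ mem_top g)
    rw [this]
    exact IsOfFinOrder.one
  | succ n ih =>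
    intro Q _ S hS ht h g
    have hc : ∀ x ∈ (⊤ : Subgroup Q).lowerCentralSeries n, x ∈ center Q := fun x hx =>
      mem_center_iff.2 fun y => by
        have : ⁅x, y⁆ ∈ (⊤ : Subgroup Q).lowerCentralSeries (n + 1) :=
          commutator_mem_commutator hx (mem_top y)
        rw [h, mem_bot] at this
        exact (commutatorElement_eq_one_iff_mul_comm.1 this).symm
    have hz : (⊤ : Subgroup Q).lowerCentralSeries n ≤ zt Q := by
      cases n with
      | zero =>
        rw [Subgroup.lowerCentralSeries_zero, ← hS]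
        exact (Subgroup.closure_le _).2 fun s hs => ⟨hc s (mem_top s), ht s hs⟩
      | succ m =>
        rw [Subgroup.lowerCentralSeries_succ]
        exact commutator_le.2 fun x hx s _ => comm_mem hS ht x
          (fun t => hc _ (commutator_mem_commutator hx (mem_top t))) s
    let π := QuotientGroup.mk' ((⊤ : Subgroup Q).lowerCentralSeries n)
    have hπ : Function.Surjective π := QuotientGroup.mk'_surjective _
    have ht' : (⊤ : Subgroup Q).map π = ⊤ := map_top_of_surjective π hπ
    obtain ⟨k, hk, e⟩ := isOfFinOrder_iff_pow_eq_one.1 (ih _ (π '' S)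
      (by rw [← MonoidHom.map_closure, hS, ht'])
      (by rintro _ ⟨s, hs, rfl⟩; exact π.isOfFinOrder (ht s hs))
      (by rw [← ht', ← Subgroup.map_lowerCentralSeries, Subgroup.map_eq_bot_iff,
        QuotientGroup.ker_mk']) (π g))
    rw [← map_pow] at e
    exact (hz ((QuotientGroup.eq_one_iff _).1 e)).2.of_pow hk.ne'

end TORSx

theorem p_TORS :
    S_TORS := by
  intro Q _ _ S hS ht
  exact TORSx.main _ Q S hS ht Subgroup.lowerCentralSeries_nilpotencyClass

end Pool.Agent.P.MP_3540e7_al.T7
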