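import Pool.Agent.P.MP_3540e7_al.T7.Iface

/-! Step TR. -/

set_option autoImplicit false
set_option linter.unusedSectionVars false

namespace Pool.Agent.P.MP_3540e7_al.T7

open Subgroup T5
open scoped commutatorElement

theorem p_TR :
    S_TR := by
  intro G _ W R Γ _ _ v hR hW hΓ hv h
  set K := closure (orb Γ {v}) with hK
  have hKW : K ≤ W := (Subgroup.closure_le _).2 (orb_subset Γ (Set.singleton_subset_iff.2 hv))
  obtain ⟨S, hS, hSK, hSR⟩ := h.fg inf_le_right
  have hdec : ∀ z ∈ K, ∃ r ∈ R, z * r⁻¹ ∈ closure S := fun z hz => by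
    have : z ∈ closure S ⊔ R := by
      rw [← hSR] at hz
      exact (sup_le_sup_left inf_le_left _ : closure S ⊔ (R ⊓ K) ≤ closure S ⊔ R) hz
    obtain ⟨t, ht, r, hr, rfl⟩ := (mem_sup_norm le_norm_top).1 this
    exact ⟨r, hr, by simpa using ht⟩
  choose! r hr1 hr2 using hdec
  obtain ⟨D, hD, hDf⟩ := (fg_iff _).1 hΓ
  have hDΓ : ∀ d ∈ D, d ∈ Γ := fun d hd => hD ▸ subset_closure hd
  have hvK : v ∈ K := subset_closure (subset_orb Γ {v} rfl)
  have hcj : ∀ g ∈ Γ, ∀ z ∈ K, g * z * g⁻¹ ∈ K := fun g hg z hz =>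
    (mem_normalizer_iff.1 (le_normalizer_orb Γ {v} hg) z).1 hz
  set E : Set G := insert v (Set.image2 (fun d s => d * s * d⁻¹) D S ∪
    Set.image2 (fun d s => d⁻¹ * s * d) D S) with hE
  have hEf : E.Finite := ((hDf.image2 _ hS).union (hDf.image2 _ hS)).insert v
  have hEK : ∀ z ∈ E, z ∈ K := by
    rintro z (rfl | ⟨d, hd, s, hs, rfl⟩ | ⟨d, hd, s, hs, rfl⟩)
    · exact hvK
    · exact hcj d (hDΓ d hd) s (hSK hs)
    · simpa using hcj d⁻¹ (inv_mem (hDΓ d hd)) s (hSK hs)
  have hP : Noeth (normalClosure (r '' E)) :=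
    hR _ (hEf.image _) (by rintro _ ⟨z, hz, rfl⟩; exact hr1 z (hEK z hz))
  have hZ : Noeth (closure S ⊔ normalClosure (r '' E)) :=
    Noeth.sup (hW S hS fun s hs => hKW (hSK hs)) hP
  have hEZ : ∀ z ∈ E, z ∈ closure S ⊔ normalClosure (r '' E) := fun z hz => by
    have := mul_mem (mem_sup_left (T := normalClosure (r '' E)) (hr2 z (hEK z hz)))
      (mem_sup_right (S := closure S) (subset_normalClosure (s := r '' E) ⟨z, hz, rfl⟩))
    simpa using this
  have hN : Γ ≤ normalizer ((closure S ⊔ normalClosure (r '' E) : Subgroup G) : Set G) := by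
    rw [← hD]
    refine le_normalizer_of_gens (fun d hd => ?_) (fun d hd => ?_)
    · exact conj_mem_closure_sup le_sup_right fun s hs =>
        hEZ _ (.inr (.inl ⟨d, hd, s, hs, rfl⟩))
    · have := conj_mem_closure_sup (S := S) (R := normalClosure (r '' E)) (g := d⁻¹)
        (J := closure S ⊔ normalClosure (r '' E)) le_sup_right fun s hs => by
          rw [inv_inv]
          exact hEZ _ (.inr (.inr ⟨d, hd, s, hs, rfl⟩))
      simpa only [inv_inv] using this
  refine hZ.le ((Subgroup.closure_le _).2 ?_)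
  rintro _ ⟨g, hg, _, rfl, rfl⟩
  exact (mem_normalizer_iff.1 (hN hg) _).1 (hEZ _ (.inl rfl))

end Pool.Agent.P.MP_3540e7_al.T7
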