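import Pool.Agent.P.MP_3540e7_al.T7.Iface

/-! Step UNI. -/

set_option autoImplicit false
set_option linter.unusedSectionVars false

namespace Pool.Agent.P.MP_3540e7_al.T7

open Subgroup T5
open scoped commutatorElement

namespace UNIx

variable {G : Type} [Group G]

theorem noeth_sup {H Q : Subgroup G} (hH : Noeth H) (hQ : Noeth Q)
    (hn : H ≤ normalizer (Q : Set G)) : Noeth (H ⊔ Q) := by
  have h1 : Noeth (H.subgroupOf (normalizer (Q : Set G))) :=
    noeth_subgroupOf.2 (hH.le inf_le_right)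
  have h2 : Noeth (Q.subgroupOf (normalizer (Q : Set G))) :=
    noeth_subgroupOf.2 (hQ.le inf_le_right)
  have h3 := (h1.sup h2).map (normalizer (Q : Set G)).subtype
  rwa [Subgroup.map_sup, subgroupOf_map_subtype, subgroupOf_map_subtype, inf_eq_left.2 hn,
    inf_eq_left.2 le_normalizer] at h3

theorem fg_zpowers (u : G) : (zpowers u).FG :=
  (fg_iff _).2 ⟨{u}, (zpowers_eq_closure u).symm, Set.finite_singleton _⟩

theorem noeth_zpowers (u : G) : Noeth (zpowers u) := by
  refine noeth_of_comm ?_ (fg_zpowers u)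
  rintro _ ⟨k, rfl⟩ _ ⟨l, rfl⟩
  exact zpow_mul_comm u k l

/-- iterated commutators -/
def it (u b : G) : ℕ → G
  | 0 => b
  | n + 1 => ⁅u, it u b n⁆

theorem it_mem {W : Subgroup G} [h : W.Normal] (u : G) {b : G} (hb : b ∈ W) :
    ∀ n, it u b n ∈ W
  | 0 => hb
  | n + 1 => mul_mem (h.conj_mem _ (it_mem u hb n) u) (inv_mem (it_mem u hb n))

theorem it_lcs {M : Subgroup G} {u b : G} (hu : u ∈ M) (hb : b ∈ M) :
    ∀ n, it u b n ∈ M.lowerCentralSeries n
  | 0 => hb
  | n + 1 => by
    rw [Subgroup.lowerCentralSeries_succ, Subgroup.commutator_comm]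
    exact commutator_mem_commutator hu (it_lcs hu hb n)

theorem it_iota {K : Type} [Field K] {V : Type} [AddCommGroup V] [Module K V]
    {a : G →* Module.End K V} {ι : G → V} {W R : Subgroup G} [hW : W.Normal] (h : Rp W R a ι)
    (u : G) {b : G} (hb : b ∈ W) : ∀ n, ι (it u b n) = ((a u - 1) ^ n) (ι b)
  | 0 => rfl
  | n + 1 => by
    have h1 := it_mem u hb n
    have h2 : it u b (n + 1) = u * it u b n * u⁻¹ * (it u b n)⁻¹ := rfl
    rw [h2, h.add _ (hW.conj_mem _ h1 u) _ (inv_mem h1), h.conj u _ h1, h.inv h1, pow_succ',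
      Module.End.mul_apply, ← it_iota h u hb n, LinearMap.sub_apply, Module.End.one_apply,
      sub_eq_add_neg]

end UNIx

theorem p_UNI :
    S_UNI := by
  intro G _ K _ V _ _ a ι W R N₁ U _ h hW hU hP hL u hu v
  obtain ⟨n, hn, b, hb, he⟩ := h.span v
  have hz : zpowers u ≤ U := (zpowers_le).2 hu
  have hQ : Noeth (closure (orb (zpowers u) {b})) := hL.bd hz (UNIx.fg_zpowers u) b hb
  have hK := UNIx.noeth_sup (UNIx.noeth_zpowers u) hQ (le_normalizer_orb _ _)
  have hle : zpowers u ⊔ closure (orb (zpowers u) {b}) ≤ N₁ :=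
    sup_le (hz.trans hU)
      (((closure_le _).2 (orb_subset _ (Set.singleton_subset_iff.2 hb))).trans hW)
  obtain ⟨c, hc⟩ := (isNilpotent_iff_lowerCentralSeries _).1 (hP _ hle hK)
  have h1 := UNIx.it_lcs (M := zpowers u ⊔ closure (orb (zpowers u) {b})) (u := u) (b := b)
    (mem_sup_left (mem_zpowers u)) (mem_sup_right (subset_closure (subset_orb _ _ rfl))) c
  rw [hc, mem_bot] at h1
  have h2 := UNIx.it_iota h u hb c
  rw [h1, h.one, ← he, map_smul] at h2
  exact ⟨c, (smul_eq_zero.1 h2.symm).resolve_left hn⟩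

end Pool.Agent.P.MP_3540e7_al.T7
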