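import Pool.Agent.P.MP_3540e7_al.T7.Iface

/-! Step UPW. -/

set_option autoImplicit false
set_option linter.unusedSectionVars false

namespace Pool.Agent.P.MP_3540e7_al.T7

open Subgroup T5
open scoped commutatorElement

theorem p_UPW :
    S_UPW := by
  intro K _ V _ _ φ S v n k hS hn hk h
  have hψ : ∀ r : ℕ, ∀ s ∈ S, ((φ - 1) ^ r) s ∈ S := fun r => by
    induction r with
    | zero => intro s hs; simpa using hs
    | succ r ih =>
      intro s hs
      rw [pow_succ, Module.End.mul_apply]
      exact ih _ (S.sub_mem (hS s hs) hs)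
  have step : ∀ r : ℕ, ((φ - 1) ^ (r + 2)) v ∈ S → ((φ - 1) ^ (r + 1)) v ∈ S := fun r hr => by
    set z := ((φ - 1) ^ (r + 1)) v with hz
    have h1 : φ z - z ∈ S := by
      rw [pow_succ', Module.End.mul_apply] at hr
      exact hr
    have h2 : ∀ i : ℕ, (φ ^ i) z - z ∈ S := fun i => by
      induction i with
      | zero => simp
      | succ i ih =>
        have := S.add_mem (hS _ ih) h1
        rwa [map_sub, sub_add_sub_cancel, ← Module.End.mul_apply, ← pow_succ'] at this
    have hc : Commute (∑ i ∈ Finset.range k, φ ^ i) ((φ - 1) ^ r) :=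
      Commute.sum_left _ _ _ fun i _ =>
        ((Commute.refl φ).sub_right (Commute.one_right φ)).pow_pow i r
    have h3 : (∑ i ∈ Finset.range k, φ ^ i) z ∈ S := by
      rw [hz, ← Module.End.mul_apply, pow_succ, ← mul_assoc, hc.eq, mul_assoc, geom_sum_mul,
        Module.End.mul_apply]
      exact hψ r _ h
    have h4 := S.sub_mem h3 (S.sum_mem fun i (_ : i ∈ Finset.range k) => h2 i)
    rw [LinearMap.sum_apply, Finset.sum_sub_distrib, sub_sub_cancel, Finset.sum_const,
      Finset.card_range, ← Nat.cast_smul_eq_nsmul K] at h4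
    exact (S.smul_mem_iff hk).1 h4
  have all : ∀ m r : ℕ, ((φ - 1) ^ (r + m + 1)) v ∈ S → ((φ - 1) ^ (r + 1)) v ∈ S := fun m => by
    induction m with
    | zero => exact fun r hr => hr
    | succ m ih => exact fun r hr => ih r (step (r + m) hr)
  have := all n 0 (by
    rw [zero_add, pow_succ', Module.End.mul_apply, hn, map_zero]
    exact S.zero_mem)
  rwa [zero_add, pow_one] at this

end Pool.Agent.P.MP_3540e7_al.T7
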