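import Pool.Agent.P.MP_3540e7_al.T7.Iface

/-! Step WIN. -/

set_option autoImplicit false
set_option linter.unusedSectionVars false

namespace Pool.Agent.P.MP_3540e7_al.T7

open Subgroup T5
open scoped commutatorElement

namespace WINx

variable {K : Type} [Field K] {V : Type} [AddCommGroup V] [Module K V]

theorem step (χ : Module.End K V) (e : ℤ → V) (S : Submodule K V) (δ : ℤ)
    (h : ∀ j, χ (e j) = e (j + δ)) (hS : ∀ s ∈ S, χ s ∈ S) (A B : Set ℤ)
    (hAB : ∀ x ∈ A, x + δ ∈ B) (k : ℤ) (hk : e k ∈ S ⊔ Submodule.span K (e '' A)) :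
    e (k + δ) ∈ S ⊔ Submodule.span K (e '' B) := by
  have : S ⊔ Submodule.span K (e '' A) ≤ (S ⊔ Submodule.span K (e '' B)).comap χ := by
    refine sup_le (fun s hs => Submodule.mem_sup_left (hS s hs)) (Submodule.span_le.2 ?_)
    rintro _ ⟨x, hx, rfl⟩
    exact Submodule.mem_sup_right (Submodule.subset_span ⟨x + δ, hAB x hx, (h x).symm⟩)
  rw [← h]
  exact this hk

theorem shift (φ ψ : Module.End K V) (e : ℤ → V) (S : Submodule K V)
    (h1 : ∀ j, φ (e j) = e (j + 1)) (h2 : ∀ j, ψ (e (j + 1)) = e j) (s1 : ∀ s ∈ S, φ s ∈ S)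
    (s2 : ∀ s ∈ S, ψ s ∈ S) (A : Set ℤ) (k : ℤ) (hk : e k ∈ S ⊔ Submodule.span K (e '' A))
    (l : ℤ) : e (k + l) ∈ S ⊔ Submodule.span K (e '' {x | x - l ∈ A}) := by
  induction l using Int.induction_on with
  | zero => simpa using hk
  | succ l ih =>
    rw [← add_assoc]
    refine step φ e S 1 h1 s1 _ _ (fun x hx => ?_) _ ih
    rwa [Set.mem_ofPred_eq, show x + 1 - ((l : ℤ) + 1) = x - l by ring]
  | pred l ih =>
    rw [show k + (-(l : ℤ) - 1) = k + -(l : ℤ) + -1 by ring]
    refine step ψ e S (-1) (fun j => ?_) s2 _ _ (fun x hx => ?_) _ ih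
    · rw [← h2 (j + -1), show j + -1 + 1 = j by ring]
    · rwa [Set.mem_ofPred_eq, show x + -1 - (-(l : ℤ) - 1) = x - -l by ring]

theorem dep (e : ℤ → V) (S : Submodule K V) (h : S ⊓ Submodule.span K (Set.range e) ≠ ⊥) :
    ¬ LinearIndependent K fun j => S.mkQ (e j) := by
  intro hl
  refine h (eq_bot_iff.2 fun v hv => ?_)
  obtain ⟨h1, h2⟩ := Submodule.mem_inf.1 hv
  obtain ⟨c, rfl⟩ := Finsupp.mem_span_range_iff_exists_finsupp.1 h2
  have h3 : Finsupp.linearCombination K (fun j => S.mkQ (e j)) c = 0 := by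
    rw [← (Submodule.Quotient.mk_eq_zero S).2 h1, ← Submodule.mkQ_apply, map_finsuppSum,
      Finsupp.linearCombination_apply]
    simp only [map_smul]
  rw [linearIndependent_iff.1 hl c h3]
  simp

theorem lift (e : ℤ → V) (S : Submodule K V) (A : Set ℤ) (k : ℤ)
    (h : S.mkQ (e k) ∈ Submodule.span K ((fun j => S.mkQ (e j)) '' A)) :
    e k ∈ S ⊔ Submodule.span K (e '' A) := by
  rw [← Submodule.comap_map_mkQ, Submodule.mem_comap, Submodule.map_span, Set.image_image]
  exact h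

end WINx

theorem p_WIN (hREL2 : S_REL2) :
    S_WIN := by
  intro K _ V _ _ φ ψ e S _ h1 h2 s1 s2 hne
  obtain ⟨i, j, hij, a, b⟩ := hREL2 K _ _ (WINx.dep e S hne)
  have a' := WINx.shift φ ψ e S h1 h2 s1 s2 _ _ (WINx.lift e S _ _ a)
  have b' := WINx.shift φ ψ e S h1 h2 s1 s2 _ _ (WINx.lift e S _ _ b)
  obtain ⟨n, hn⟩ : ∃ n : ℕ, (n : ℤ) = j - i := ⟨(j - i).toNat, by omega⟩
  have key : ∀ (m : ℕ) (t : ℤ), -(m : ℤ) ≤ t → t ≤ n + m →
      e t ∈ S ⊔ Submodule.span K (e '' Set.Icc 0 n) := by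
    intro m
    induction m with
    | zero =>
      intro t t1 t2
      exact Submodule.mem_sup_right (Submodule.subset_span ⟨t, ⟨by omega, by omega⟩, rfl⟩)
    | succ m ih =>
      intro t t1 t2
      have c : ∀ A : Set ℤ, (∀ x ∈ A, -(m : ℤ) ≤ x ∧ x ≤ n + m) →
          S ⊔ Submodule.span K (e '' A) ≤ S ⊔ Submodule.span K (e '' Set.Icc 0 n) := fun A hA =>
        sup_le le_sup_left (Submodule.span_le.2 (by
          rintro _ ⟨x, hx, rfl⟩
          exact ih x (hA x hx).1 (hA x hx).2))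
      by_cases u1 : t < -(m : ℤ)
      · have := b' (t - i)
        rw [show i + (t - i) = t by ring] at this
        refine c _ (fun x hx => ?_) this
        simp only [Set.mem_ofPred_eq, Set.mem_Ioc] at hx
        omega
      by_cases u2 : n + m < t
      · have := a' (t - j)
        rw [show j + (t - j) = t by ring] at this
        refine c _ (fun x hx => ?_) this
        simp only [Set.mem_ofPred_eq, Set.mem_Ico] at hx
        omega
      exact ih t (by omega) (by omega)
  exact ⟨n, fun t => key t.natAbs t (by omega) (by omega)⟩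

end Pool.Agent.P.MP_3540e7_al.T7
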