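import Pool.Agent.P.MP_3540e7_al.T7.Iface

/-! Step WND. -/

set_option autoImplicit false
set_option linter.unusedSectionVars false

namespace Pool.Agent.P.MP_3540e7_al.T7

open Subgroup T5
open scoped commutatorElement

namespace WNDx

variable {G : Type} [Group G]

theorem key (y : G) (k : ℤ) (v g : G) : cj y k v * g = g * cj y k v ↔
    v * ((y ^ k)⁻¹ * g * y ^ k) = (y ^ k)⁻¹ * g * y ^ k * v := by
  rw [cj, ← mul_left_cancel_iff (a := (y ^ k)⁻¹), ← mul_right_cancel_iff (a := y ^ k)]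
  simp only [mul_assoc, inv_mul_cancel_left, inv_mul_cancel, mul_one]

/-- the conjugates of a subgroup -/
def sh (y : G) (A : Subgroup G) (k : ℤ) : Subgroup G :=
  A.comap (MulAut.conj (y ^ k)⁻¹).toMonoidHom

theorem mem_sh {y g : G} {A : Subgroup G} {k : ℤ} :
    g ∈ sh y A k ↔ (y ^ k)⁻¹ * g * y ^ k ∈ A := by
  rw [sh, mem_comap, MulEquiv.coe_toMonoidHom, MulAut.conj_apply, inv_inv]

end WNDx

open WNDx in
theorem p_WND :
    S_WND := by
  intro G _ N₁ N W R J T hW w w₀ y ok hc ht hw₀ hy hT hn hle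
  let E : Set G := {y⁻¹ * w * y, w, y * w * y⁻¹, w₀}
  have hE : E.Finite := Set.toFinite _
  have hEW : E ⊆ W := by
    rintro _ (rfl | rfl | rfl | rfl)
    · simpa using hW.conj_mem w hc.mem y⁻¹
    · exact hc.mem
    · exact hW.conj_mem w hc.mem y
    · exact hw₀
  let A : Subgroup G := J ⊓ N ⊓ centralizer E
  have h1 : ∀ j, sh y A j ≤ T := fun j g hg => by
    have a := mem_sh.1 hg
    have b := hle ⟨a.1, centralizer_le (fun v hv => by
      rcases hv with rfl | rfl <;> simp [E]) a.2⟩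
    have := (mem_normalizer_iff.1 (zpow_mem hn j) _).1 b
    simpa [mul_assoc] using this
  refine ⟨sh y A, h1, fun j g => ?_, fun j g hg => ?_, fun i j => ?_, ?_⟩
  · rw [mem_sh, mem_sh, show (y ^ (j + 1))⁻¹ * (y * g * y⁻¹) * y ^ (j + 1) =
      (y ^ j)⁻¹ * g * y ^ j by group]
  · rintro _ rfl
    exact (key y j w₀ g).2 ((mem_sh.1 hg).2 w₀ (by simp [E]))
  · obtain ⟨x, hx, hN⟩ := hc.kx (⋃ k ∈ Set.Icc i j, cj y k '' E)
      ((Set.finite_Icc i j).biUnion fun k _ => hE.image _)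
      (Set.iUnion₂_subset fun k _ => by
        rintro _ ⟨v, hv, rfl⟩
        exact cj_mem y k (hEW hv))
    refine ⟨x, mem_Wn.2 fun k a b => mem_sh.2 ⟨?_, fun v hv => (key y k v x).1 ?_⟩, hN⟩
    · exact (J ⊓ N).mul_mem ((J ⊓ N).mul_mem (inv_mem (zpow_mem hy k)) hx.1) (zpow_mem hy k)
    · exact hx.2 _ (Set.mem_biUnion (show k ∈ Set.Icc i j from ⟨a, b⟩) ⟨v, hv, rfl⟩)
  · obtain ⟨m₀, hm⟩ := ht (fun m => (T ⊓ N₁) ⊓ Wn (sh y A) 1 (m + 1 : ℕ))
      (fun m m' h g hg => ⟨hg.1, mem_Wn.2 fun k a b => mem_Wn.1 hg.2 k a (by omega)⟩)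
      (hc.bd.mono fun g hg => ⟨(hT hg.1.1).1, by
        intro v hv
        rw [Set.mem_singleton_iff.1 hv]
        have a := (key y 1 _ g).2 ((mem_sh.1 (mem_Wn.1 hg.2 1 le_rfl (by simp))).2
          (y⁻¹ * w * y) (by simp [E]))
        simpa [cj, mul_assoc] using a⟩) E hE hEW
    refine ⟨m₀ + 1, fun m h u hu => ?_⟩
    obtain ⟨m, rfl⟩ : ∃ n, m = n + 1 := ⟨m - 1, by omega⟩
    obtain ⟨k, hk, e⟩ := hm m (by omega) u hu
    refine ⟨k, hk, ?_⟩
    rw [sup_comm] at e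
    refine SetLike.le_def.1 (sup_le_sup ?_ ?_) e
    · refine fun g hg => ⟨hg.2.1, mem_Wn.2 fun l a b => ?_⟩
      rcases a.eq_or_lt with rfl | a
      · exact mem_sh.2 (by simpa using ⟨hT hg.2.1.1, hg.1⟩)
      · exact mem_Wn.1 hg.2.2 l a b
    · exact le_of_eq (by push_cast; rfl)

end Pool.Agent.P.MP_3540e7_al.T7
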