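import Pool.Agent.P.MP_3540e7_al.T7.Iface

/-! Step Y. -/

set_option autoImplicit false
set_option linter.unusedSectionVars false

namespace Pool.Agent.P.MP_3540e7_al.T7

open Subgroup T5
open scoped commutatorElement

theorem p_Y (hY1 : S_Y1) (hY2 : S_Y2) (hY3 : S_Y3) :
    S_Y := by
  intro G _ _ N₁ N W R J hN _ w h
  have h0 := hY1 G N₁ N W R J w h
  obtain ⟨k, k1, k2⟩ : ∃ k, ¬ LB W (der (J ⊓ N) k) ∧ LB W (der (J ⊓ N) (k + 1)) := by
    by_contra hc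
    have hall : ∀ k, ¬ LB W (der (J ⊓ N) k) := by
      intro k
      induction k with
      | zero => exact h0
      | succ k ih => exact fun h' => hc ⟨k, ih, h'⟩
    obtain ⟨d, hd⟩ := exists_der_eq_bot (J ⊓ N)
    exact hall d (hd ▸ (bd_bot W).lb)
  obtain ⟨y, hy, hb⟩ := hY2 G W _ h.ly.lp k2 k1
  have hJ : J ≤ normalizer ((J ⊓ N : Subgroup G) : Set G) :=
    le_normalizer_of_conj fun g hg j hj =>
      mem_inf.2 ⟨J.mul_mem (J.mul_mem hg hj.1) (J.inv_mem hg), hN.conj_mem j hj.2 g⟩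
  obtain ⟨T, t1, t2, t3, t4⟩ := hY3 G W J (J ⊓ N) _ w y h.ly.lp (der_le _ k) inf_le_left
    (le_normalizer_der hJ k) k2 h.bd hy
  exact ⟨y, der_le _ k hy, T, t1, t2, t3, t4, hb⟩

end Pool.Agent.P.MP_3540e7_al.T7
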