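import Pool.Agent.P.MP_3540e7_al.T7.Iface

/-! Step Y1. -/

set_option autoImplicit false
set_option linter.unusedSectionVars false

namespace Pool.Agent.P.MP_3540e7_al.T7

open Subgroup T5
open scoped commutatorElement

theorem p_Y1 (hLEMG : S_LEMG) (hBD2 : S_BD2) :
    S_Y1 := by
  intro G _ _ N₁ N W R J _ _ w hC h
  have hD : (J ⊓ centralizer {w}) ⊔ (J ⊓ N) ≤ J := sup_le inf_le_left inf_le_left
  exact hC.nn (hBD2 G W _ J hC.ly.lp (hLEMG G W _ _ _ hC.ly.lp (fg_of_relIndex hC.fg hD hC.fi)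
    le_sup_left le_sup_right (hD.trans (le_normalizer_inf le_normalizer le_norm_top)) le_rfl hC.bd h)
    hC.fi w hC.mem)

end Pool.Agent.P.MP_3540e7_al.T7
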