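import Pool.Agent.P.MP_3540e7_al.T7.Iface

/-! Step Y3. -/

set_option autoImplicit false
set_option linter.unusedSectionVars false

namespace Pool.Agent.P.MP_3540e7_al.T7

open Subgroup T5
open scoped commutatorElement

theorem p_Y3 (hLB2 : S_LB2) :
    S_Y3 := by
  intro G _ _ W J B M _ w y hW hMB hBJ hJ hMM hH hy
  set H : Subgroup G := J ⊓ centralizer {w} with hHd
  set S : Subgroup G := (H ⊓ M) ⊔ ⁅M, M⁆ with hSd
  set G2 : Subgroup G := B ⊓ centralizer {w, y * w * y⁻¹} with hGd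
  have hHM : H ≤ normalizer (M : Set G) := inf_le_left.trans hJ
  have hHC := le_normalizer_commutator hHM hHM
  have hS : LB W S := hLB2 G W _ _ hW (inf_le_left.trans hHC) (hH.lb.mono inf_le_left) hMM
  have hGH : G2 ≤ H := inf_le_inf hBJ (centralizer_le (by simp))
  have hHS : H ≤ normalizer (S : Set G) :=
    le_normalizer_sup (le_normalizer_inf le_normalizer hHM) hHC
  have hCM : ⁅M, M⁆ ≤ M := commutator_le.2 fun a ha b hb =>
    mul_mem (mul_mem (mul_mem ha hb) (inv_mem ha)) (inv_mem hb)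
  have hSM : S ≤ M := sup_le inf_le_right hCM
  have hMS : M ≤ normalizer (S : Set G) := le_normalizer_of_comm fun g hg j hj =>
    mem_sup_right (commutator_mem_commutator hg (hSM hj))
  have hs : ∀ h ∈ G2, y⁻¹ * h * y * h⁻¹ ∈ S := fun h hh => by
    have h1 : h ∈ H := hGH hh
    have h2 : h * y * h⁻¹ ∈ M := (mem_normalizer_iff.1 (hHM h1) y).1 hy
    have h3 := mem_centralizer_iff.1 hh.2 (y * w * y⁻¹) (by simp)
    refine mem_sup_left (mem_inf.2 ⟨mul_mem (mem_inf.2 ⟨?_, ?_⟩) (inv_mem h1), ?_⟩)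
    · have hyJ : y ∈ J := hBJ (hMB hy)
      exact mul_mem (mul_mem (inv_mem hyJ) (mem_inf.1 h1).1) hyJ
    · refine mem_centralizer_iff.2 fun x hx => ?_
      rw [Set.mem_singleton_iff.1 hx]
      calc w * (y⁻¹ * h * y) = y⁻¹ * (y * w * y⁻¹ * h) * y := by group
        _ = y⁻¹ * (h * (y * w * y⁻¹)) * y := by rw [h3]
        _ = y⁻¹ * h * y * w := by group
    · have := mul_mem (inv_mem hy) h2
      simpa only [mul_assoc] using this
  refine ⟨G2 ⊔ S, sup_le inf_le_left (hSM.trans hMB),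
    hLB2 G W _ _ hW (hGH.trans hHS) (hH.lb.mono hGH) hS, ?_, le_sup_left⟩
  refine le_normalizer_of_gens (S := {y}) (J := G2 ⊔ S) ?_ ?_ (subset_closure rfl)
  · intro g hg j hj
    rw [Set.mem_singleton_iff.1 hg]
    have : G2 ⊔ S ≤ (G2 ⊔ S).comap (MulAut.conj y).toMonoidHom := by
      refine sup_le (fun h hh => ?_) fun s hs' =>
        mem_sup_right ((mem_normalizer_iff.1 (hMS hy) s).1 hs')
      have a := (mem_normalizer_iff.1 (hMS hy) _).1 (inv_mem (hs h hh))
      have b : y * (y⁻¹ * h * y * h⁻¹)⁻¹ * y⁻¹ * h ∈ G2 ⊔ S :=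
        mul_mem (mem_sup_right a) (mem_sup_left hh)
      have e : y * (y⁻¹ * h * y * h⁻¹)⁻¹ * y⁻¹ * h = y * h * y⁻¹ := by group
      rw [e] at b
      exact b
    exact this hj
  · intro g hg j hj
    rw [Set.mem_singleton_iff.1 hg]
    have : G2 ⊔ S ≤ (G2 ⊔ S).comap (MulAut.conj y⁻¹).toMonoidHom := by
      refine sup_le (fun h hh => ?_) fun s hs' =>
        mem_sup_right ((mem_normalizer_iff.1 (hMS (inv_mem hy)) s).1 hs')
      have b : y⁻¹ * h * y * h⁻¹ * h ∈ G2 ⊔ S :=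
        mul_mem (mem_sup_right (hs h hh)) (mem_sup_left hh)
      have e : y⁻¹ * h * y * h⁻¹ * h = y⁻¹ * h * y⁻¹⁻¹ := by group
      rw [e] at b
      exact b
    have c : y⁻¹ * j * y⁻¹⁻¹ ∈ G2 ⊔ S := this hj
    rwa [inv_inv] at c

end Pool.Agent.P.MP_3540e7_al.T7
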