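import Pool.Agent.P.MP_3540e7_al.T7.Iface

/-! Step ZM. -/

set_option autoImplicit false
set_option linter.unusedSectionVars false

namespace Pool.Agent.P.MP_3540e7_al.T7

open Subgroup T5
open scoped commutatorElement

namespace ZMx

variable {G : Type} [Group G] {K : Type} [Field K] {V : Type} [AddCommGroup V] [Module K V]

theorem exists_max (a : G →* Module.End K V) (L : Submodule K V) :
    ∃ M, Maximal (fun M : Submodule K V => Iv a ⊤ M ∧ M ⊓ L = ⊥) M := by
  have := zorn_le_nonempty₀ {M : Submodule K V | Iv a ⊤ M ∧ M ⊓ L = ⊥} ?_ ⊥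
    ⟨fun g _ v hv => by rw [(Submodule.mem_bot K).1 hv, map_zero]; exact zero_mem _, bot_inf_eq _⟩
  · obtain ⟨M, -, hM⟩ := this
    exact ⟨M, hM⟩
  · intro c hc hch y hy
    refine ⟨sSup c, ⟨fun g hg v hv => ?_, ?_⟩, fun z hz => le_sSup hz⟩
    · obtain ⟨S, hS, hv⟩ := (Submodule.mem_sSup_of_directed ⟨y, hy⟩ hch.directedOn).1 hv
      exact le_sSup hS ((hc hS).1 g hg v hv)
    · refine eq_bot_iff.2 fun v hv => ?_
      obtain ⟨S, hS, h⟩ := (Submodule.mem_sSup_of_directed ⟨y, hy⟩ hch.directedOn).1 hv.1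
      exact (hc hS).2 ▸ (⟨h, hv.2⟩ : v ∈ S ⊓ L)

/-- The action on the quotient. -/
noncomputable def quo (a : G →* Module.End K V) (M : Submodule K V) (h : Iv a ⊤ M) :
    G →* Module.End K (V ⧸ M) where
  toFun g := M.mapQ M (a g) fun v hv => h g (mem_top g) v hv
  map_one' := by
    refine Submodule.linearMap_qext _ (LinearMap.ext fun v => ?_)
    simp
  map_mul' g g' := by
    refine Submodule.linearMap_qext _ (LinearMap.ext fun v => ?_)
    simp

end ZMx

theorem p_ZM :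
    S_ZM := by
  intro G _ K _ V _ _ a e
  obtain ⟨M, hM⟩ := ZMx.exists_max a (Submodule.span K (Set.range e))
  have hq : ∀ g v, ZMx.quo a M hM.1.1 g (M.mkQ v) = M.mkQ (a g v) := fun g v => rfl
  refine ⟨M, ZMx.quo a M hM.1.1, hM.1.1, hM.1.2, hq, fun S hS h0 hb => h0 ?_⟩
  have hle : M ≤ S.comap M.mkQ := Submodule.le_comap_mkQ M S
  have h1 : S.comap M.mkQ ≤ M := by
    refine hM.2 ⟨fun g hg v hv => ?_, eq_bot_iff.2 fun v hv => ?_⟩ hle
    · have := hS g hg _ hv
      rwa [hq] at this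
    · have h2 : M.mkQ v ∈ Submodule.span K (Set.range fun j => M.mkQ (e j)) := by
        have := Submodule.mem_map_of_mem (f := M.mkQ) hv.2
        rwa [Submodule.map_span, ← Set.range_comp] at this
      have h3 : M.mkQ v ∈ (⊥ : Submodule K (V ⧸ M)) := hb ▸ ⟨hv.1, h2⟩
      have h4 : v ∈ M := (Submodule.Quotient.mk_eq_zero M).1 ((Submodule.mem_bot K).1 h3)
      exact hM.1.2 ▸ (⟨h4, hv.2⟩ : v ∈ M ⊓ _)
  refine eq_bot_iff.2 fun x hx => ?_
  obtain ⟨v, rfl⟩ := M.mkQ_surjective x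
  exact (Submodule.mem_bot K).2 ((Submodule.Quotient.mk_eq_zero M).2 (h1 hx))

end Pool.Agent.P.MP_3540e7_al.T7
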