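import Pool.Agent.P.MP_3540e7_al.T7.Iface

/-! Step ZQ. -/

set_option autoImplicit false
set_option linter.unusedSectionVars false

namespace Pool.Agent.P.MP_3540e7_al.T7

open Subgroup T5
open scoped commutatorElement

theorem p_ZQ (hLINK : S_LINK) :
    S_ZQ := by
  intro G _ K _ V _ _ a T U y e H M a' h hM hd ha
  have ha1 : ∀ g v, (a' g - 1) (M.mkQ v) = M.mkQ ((a g - 1) v) := fun g v => by
    rw [LinearMap.sub_apply, LinearMap.sub_apply, ha, map_sub]; rfl
  have hpow : ∀ g (n : ℕ) v, ((a' g - 1) ^ n) (M.mkQ v) = M.mkQ (((a g - 1) ^ n) v) := by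
    intro g n
    induction n with
    | zero => intro v; rfl
    | succ n ih =>
      intro v
      rw [pow_succ, pow_succ, Module.End.mul_apply, Module.End.mul_apply, ha1, ih]
  refine ⟨h.le, h.tle, h.mem, h.cm, ?_, ?_, ?_, ?_, h.hle, h.hsh, ?_, ?_, h.tidy⟩
  · intro Y hY hT v
    obtain ⟨v, rfl⟩ := M.mkQ_surjective v
    obtain ⟨S, h1, h2, h3⟩ := h.lfd Y hY hT v
    refine ⟨S.map M.mkQ, inferInstance, Submodule.mem_map_of_mem h2, ?_⟩
    rintro g hg _ ⟨s, hs, rfl⟩
    rw [ha]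
    exact Submodule.mem_map_of_mem (h3 g hg s hs)
  · intro u hu v
    obtain ⟨v, rfl⟩ := M.mkQ_surjective v
    obtain ⟨n, hn⟩ := h.uni u hu v
    exact ⟨n, by rw [hpow, hn, map_zero]⟩
  · intro j
    rw [ha, h.sh]
  · exact h.li.map (f := M.mkQ) (by
      rw [Submodule.ker_mkQ, disjoint_iff, inf_comm]; exact hd)
  · intro j g hg
    rw [ha, h.fix j g hg]
  · intro i j
    obtain ⟨x, hx, hf⟩ := h.kil (min i j) (max i j)
    have hx' := mem_Wn.1 hx
    have hxT : x ∈ T := h.hle i (hx' i (min_le_left _ _) (le_max_left _ _))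
    refine ⟨x, mem_Wn.2 fun k h1 h2 =>
      hx' k ((min_le_left _ _).trans h1) (h2.trans (le_max_right _ _)), ?_⟩
    have := hLINK K V (a x - 1) M (fun v => by
      obtain ⟨S, h1, h2, h3⟩ := h.lfd {x} (Set.finite_singleton x)
        (Set.singleton_subset_iff.2 hxT) v
      exact ⟨S, h1, h2, fun s hs => sub_mem (h3 x (subset_closure rfl) s hs) hs⟩) hf
      fun s hs => sub_mem (hM x (mem_top x) s hs) hs
    refine Submodule.finiteDimensional_of_le (S₂ := (M.comap (a x - 1)).map M.mkQ) fun v hv => ?_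
    obtain ⟨v, rfl⟩ := M.mkQ_surjective v
    rw [LinearMap.mem_ker, ha1] at hv
    exact Submodule.mem_map_of_mem ((Submodule.Quotient.mk_eq_zero M).1 hv)

end Pool.Agent.P.MP_3540e7_al.T7
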