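import Pool.Agent.P.MP_3540e7_al.T5.All
import Pool.Agent.P.MP_3540e7_al.T7.TTORS
import Pool.Agent.P.MP_3540e7_al.T7.TROOT0
import Pool.Agent.P.MP_3540e7_al.T7.TROOT
import Pool.Agent.P.MP_3540e7_al.T7.TTORL
import Pool.Agent.P.MP_3540e7_al.T7.TTAU
import Pool.Agent.P.MP_3540e7_al.T7.TLPX
import Pool.Agent.P.MP_3540e7_al.T7.TRHO
import Pool.Agent.P.MP_3540e7_al.T7.THF0
import Pool.Agent.P.MP_3540e7_al.T7.THF
import Pool.Agent.P.MP_3540e7_al.T7.TFRT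
import Pool.Agent.P.MP_3540e7_al.T7.TFRP
import Pool.Agent.P.MP_3540e7_al.T7.TTR
import Pool.Agent.P.MP_3540e7_al.T7.TSH
import Pool.Agent.P.MP_3540e7_al.T7.TLNP
import Pool.Agent.P.MP_3540e7_al.T7.TLNT
import Pool.Agent.P.MP_3540e7_al.T7.TTIDY
import Pool.Agent.P.MP_3540e7_al.T7.TTIDYF
import Pool.Agent.P.MP_3540e7_al.T7.TBD1
import Pool.Agent.P.MP_3540e7_al.T7.TBD2
import Pool.Agent.P.MP_3540e7_al.T7.TTDT
import Pool.Agent.P.MP_3540e7_al.T7.TTDP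
import Pool.Agent.P.MP_3540e7_al.T7.TLA
import Pool.Agent.P.MP_3540e7_al.T7.TLB0
import Pool.Agent.P.MP_3540e7_al.T7.TLX1
import Pool.Agent.P.MP_3540e7_al.T7.TLX2
import Pool.Agent.P.MP_3540e7_al.T7.TLX3
import Pool.Agent.P.MP_3540e7_al.T7.TLX4
import Pool.Agent.P.MP_3540e7_al.T7.TLEM
import Pool.Agent.P.MP_3540e7_al.T7.TLEMG
import Pool.Agent.P.MP_3540e7_al.T7.TLB2
import Pool.Agent.P.MP_3540e7_al.T7.TY1
import Pool.Agent.P.MP_3540e7_al.T7.TY2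
import Pool.Agent.P.MP_3540e7_al.T7.TY3
import Pool.Agent.P.MP_3540e7_al.T7.TY
import Pool.Agent.P.MP_3540e7_al.T7.TRPT
import Pool.Agent.P.MP_3540e7_al.T7.TRPP
import Pool.Agent.P.MP_3540e7_al.T7.TLFDT
import Pool.Agent.P.MP_3540e7_al.T7.TUNI
import Pool.Agent.P.MP_3540e7_al.T7.TFRK
import Pool.Agent.P.MP_3540e7_al.T7.TREL1
import Pool.Agent.P.MP_3540e7_al.T7.TREL2
import Pool.Agent.P.MP_3540e7_al.T7.TCOK
import Pool.Agent.P.MP_3540e7_al.T7.TLINK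
import Pool.Agent.P.MP_3540e7_al.T7.TSU0
import Pool.Agent.P.MP_3540e7_al.T7.TSU
import Pool.Agent.P.MP_3540e7_al.T7.TFLAG
import Pool.Agent.P.MP_3540e7_al.T7.TEQ
import Pool.Agent.P.MP_3540e7_al.T7.TNIL
import Pool.Agent.P.MP_3540e7_al.T7.TOB1
import Pool.Agent.P.MP_3540e7_al.T7.TOB
import Pool.Agent.P.MP_3540e7_al.T7.TSIM
import Pool.Agent.P.MP_3540e7_al.T7.TFREE
import Pool.Agent.P.MP_3540e7_al.T7.TWIN
import Pool.Agent.P.MP_3540e7_al.T7.TC2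
import Pool.Agent.P.MP_3540e7_al.T7.TUPW
import Pool.Agent.P.MP_3540e7_al.T7.TC1A
import Pool.Agent.P.MP_3540e7_al.T7.TC1
import Pool.Agent.P.MP_3540e7_al.T7.TZQ
import Pool.Agent.P.MP_3540e7_al.T7.TZM
import Pool.Agent.P.MP_3540e7_al.T7.TMDT
import Pool.Agent.P.MP_3540e7_al.T7.TMT
import Pool.Agent.P.MP_3540e7_al.T7.TCYC
import Pool.Agent.P.MP_3540e7_al.T7.TWND
import Pool.Agent.P.MP_3540e7_al.T7.TEND
import Pool.Agent.P.MP_3540e7_al.T7.TCW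
import Pool.Agent.P.MP_3540e7_al.T7.TCWS
import Pool.Agent.P.MP_3540e7_al.T7.TRED0
import Pool.Agent.P.MP_3540e7_al.T7.TRED
import Pool.Agent.P.MP_3540e7_al.T7.TCFQ
import Pool.Agent.P.MP_3540e7_al.T7.TCT
import Pool.Agent.P.MP_3540e7_al.T7.TCL
import Pool.Agent.P.MP_3540e7_al.T7.TCORE
import Pool.Agent.P.MP_3540e7_al.T7.TKIL
import Pool.Agent.P.MP_3540e7_al.T7.TNA
import Pool.Agent.P.MP_3540e7_al.T7.TMAIN

/-! Assembly of the steps. -/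

set_option autoImplicit false

namespace Pool.Agent.P.MP_3540e7_al.T7

theorem q_TORS : S_TORS := p_TORS

theorem q_ROOT0 : S_ROOT0 := p_ROOT0

theorem q_ROOT : S_ROOT := p_ROOT q_TORS q_ROOT0

theorem q_TORL : S_TORL := p_TORL q_TORS

theorem q_TAU : S_TAU := p_TAU q_TORL q_ROOT

theorem q_LPX : S_LPX := p_LPX

theorem q_RHO : S_RHO := p_RHO

theorem q_HF0 : S_HF0 := p_HF0

theorem q_HF : S_HF := p_HF q_HF0

theorem q_FRT : S_FRT := p_FRT q_HF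

theorem q_FRP : S_FRP := p_FRP T5.q_CNT T5.q_FIN

theorem q_TR : S_TR := p_TR

theorem q_SH : S_SH := p_SH

theorem q_LNP : S_LNP := p_LNP q_TR q_SH

theorem q_LNT : S_LNT := p_LNT q_TR q_SH q_TAU T5.q_CNT T5.q_FIN

theorem q_TIDY : S_TIDY := p_TIDY

theorem q_TIDYF : S_TIDYF := p_TIDYF

theorem q_BD1 : S_BD1 := p_BD1

theorem q_BD2 : S_BD2 := p_BD2 q_BD1

theorem q_TDT : S_TDT := p_TDT q_TIDY q_BD1 T5.q_MALN

theorem q_TDP : S_TDP := p_TDP q_TIDYF q_BD1 T5.q_FIN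

theorem q_LA : S_LA := p_LA

theorem q_LB0 : S_LB0 := p_LB0

theorem q_LX1 : S_LX1 := p_LX1

theorem q_LX2 : S_LX2 := p_LX2

theorem q_LX3 : S_LX3 := p_LX3

theorem q_LX4 : S_LX4 := p_LX4

theorem q_LEM : S_LEM := p_LEM q_LA q_LB0 q_LX1 q_LX2 q_LX3 q_LX4

theorem q_LEMG : S_LEMG := p_LEMG q_LEM

theorem q_LB2 : S_LB2 := p_LB2 q_LEMG

theorem q_Y1 : S_Y1 := p_Y1 q_LEMG q_BD2

theorem q_Y2 : S_Y2 := p_Y2 q_LB2

theorem q_Y3 : S_Y3 := p_Y3 q_LB2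

theorem q_Y : S_Y := p_Y q_Y1 q_Y2 q_Y3

theorem q_RPT : S_RPT := p_RPT T5.q_RAT

theorem q_RPP : S_RPP := p_RPP

theorem q_LFDT : S_LFDT := p_LFDT

theorem q_UNI : S_UNI := p_UNI

theorem q_FRK : S_FRK := p_FRK

theorem q_REL1 : S_REL1 := p_REL1

theorem q_REL2 : S_REL2 := p_REL2

theorem q_COK : S_COK := p_COK

theorem q_LINK : S_LINK := p_LINK q_COK

theorem q_SU0 : S_SU0 := p_SU0

theorem q_SU : S_SU := p_SU q_SU0

theorem q_FLAG : S_FLAG := p_FLAG q_SU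

theorem q_EQ : S_EQ := p_EQ q_FLAG

theorem q_NIL : S_NIL := p_NIL q_FLAG

theorem q_OB1 : S_OB1 := p_OB1

theorem q_OB : S_OB := p_OB q_OB1 q_EQ

theorem q_SIM : S_SIM := p_SIM q_NIL

theorem q_FREE : S_FREE := p_FREE

theorem q_WIN : S_WIN := p_WIN q_REL2

theorem q_C2 : S_C2 := p_C2 q_OB q_SIM q_FREE

theorem q_UPW : S_UPW := p_UPW

theorem q_C1A : S_C1A := p_C1A q_WIN q_UPW

theorem q_C1 : S_C1 := p_C1 q_C1A

theorem q_ZQ : S_ZQ := p_ZQ q_LINK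

theorem q_ZM : S_ZM := p_ZM

theorem q_MDT : S_MDT := p_MDT

theorem q_MT : S_MT := p_MT q_MDT q_ZM q_ZQ q_C1 q_C2

theorem q_CYC : S_CYC := p_CYC

theorem q_WND : S_WND := p_WND

theorem q_END : S_END := p_END q_Y q_LFDT q_UNI q_FRK q_REL1 q_REL2 q_MT q_CYC q_WND

theorem q_CW : S_CW := p_CW q_END q_RPT q_RPP q_FRT q_FRP q_LNT q_LNP q_TDT q_TDP

theorem q_CWS : S_CWS := p_CWS

theorem q_RED0 : S_RED0 := p_RED0 q_BD1 T5.q_CH T5.q_B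

theorem q_RED : S_RED := p_RED q_CW q_CWS q_RED0

theorem q_CFQ : S_CFQ := p_CFQ T5.q_Q0C

theorem q_CT : S_CT := p_CT q_RED q_LPX q_TORL

theorem q_CL : S_CL := p_CL q_CT q_CFQ q_RED q_LPX q_RHO

theorem q_CORE : S_CORE := p_CORE q_CL T5.q_B

theorem q_KIL : S_KIL := p_KIL

theorem q_NA : S_NA := p_NA q_CORE q_KIL

theorem q_MAIN : S_MAIN := p_MAIN q_NA

end Pool.Agent.P.MP_3540e7_al.T7
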