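import Pool.Agent.P.MP_3540e7_al.T5.Iface

/-! Definitions and small tools for the case of nilpotent polycyclic subgroups. -/

set_option autoImplicit false

namespace Pool.Agent.P.MP_3540e7_al.T7

open Subgroup T5
open scoped commutatorElement

section groups

variable {G : Type} [Group G]

/-- polycyclic subgroups of `M` are nilpotent -/
def PN (M : Subgroup G) : Prop := ∀ K : Subgroup G, K ≤ M → Noeth K → Group.IsNilpotent K

/-- normal form of a counterexample -/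
structure Cf (N₁ N : Subgroup G) : Prop where
  hc : HC G
  nn : ¬ Noeth (⊤ : Subgroup G)
  le : N₁ ≤ N
  cm : ⁅N, N⁆ ≤ N₁
  pn : PN N₁
  fi : ∀ F : Set G, F.Finite → ¬ Noeth (centralizer F) → (centralizer F ⊔ N).FiniteIndex
  kx : ∀ F : Set G, F.Finite → ¬ Noeth (centralizer F) →
    ∃ x ∈ centralizer F ⊓ N, Noeth (centralizer {x})

/-- an abelian layer `L / R` over a subgroup `R` with polycyclic normal closures -/
structure Ly (L R : Subgroup G) : Prop where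
  le : R ≤ L
  cm : ⁅L, L⁆ ≤ R
  pc : PC R
  lp : LP L
  pn : PN L

/-- the layer has prime exponent and `L` is periodic -/
def Tor (p : ℕ) (L R : Subgroup G) : Prop := p.Prime ∧ Per ⊥ L ∧ ∀ b ∈ L, b ^ p ∈ R

/-- the layer is torsion-free -/
def Tf (L R : Subgroup G) : Prop := ∀ b ∈ L, ∀ n : ℕ, 0 < n → b ^ n ∈ R → b ∈ R

/-- one of the two kinds of layers -/
def TT (L R : Subgroup G) : Prop := (∃ p, Tor p L R) ∨ Tf L R

/-- the orbits of `Γ` in `W` generate polycyclic subgroups -/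
def Bd (W Γ : Subgroup G) : Prop := ∀ v ∈ W, Noeth (closure (orb Γ {v}))

/-- locally bounded -/
def LB (W Γ : Subgroup G) : Prop := ∀ Y : Set G, Y.Finite → Y ⊆ Γ → Bd W (closure Y)

/-- the situation after the chain bound -/
structure Cw (N₁ N W R J : Subgroup G) (w : G) : Prop where
  ly : Ly W R
  wle : W ≤ N₁
  le : N₁ ≤ N
  cm : ⁅N, N⁆ ≤ N₁
  pn : PN N₁
  mem : w ∈ W
  nn : ¬ Noeth (closure (orb J {w}))
  fg : J.FG
  bd : Bd W (J ⊓ centralizer {w})
  fi : ((J ⊓ centralizer {w}) ⊔ (J ⊓ N)).relIndex J ≠ 0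
  kx : ∀ F : Set G, F.Finite → F ⊆ W → ∃ x ∈ J ⊓ N ⊓ centralizer F, Noeth (centralizer {x})

/-- conjugate by a power -/
def cj (y : G) (l : ℤ) (v : G) : G := y ^ l * v * (y ^ l)⁻¹

/-- elements with polycyclic centralizer fix little in the layer -/
def Frk (ok : ℕ → Prop) (W R : Subgroup G) : Prop :=
  ∀ x : G, Noeth (centralizer {x}) → ∃ T : Set G, T.Finite ∧ T ⊆ W ∧
    ∀ b ∈ W, ⁅x, b⁆ ∈ R → ∃ k : ℕ, ok k ∧ b ^ k ∈ closure T ⊔ R

/-- a relation between the conjugates of `v` under powers of `y`, modulo `P` -/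
def Rl (P : Subgroup G) (y v : G) (i j : ℤ) (k k' : ℕ) : Prop :=
  i ≤ j ∧ cj y j v ^ k ∈ closure ((fun l => cj y l v) '' Set.Ico i j) ⊔ P ∧
    cj y i v ^ k' ∈ closure ((fun l => cj y l v) '' Set.Ioc i j) ⊔ P

/-- a relation bounds the orbit -/
def Lin (ok : ℕ → Prop) (W R : Subgroup G) : Prop :=
  ∀ y : G, ∀ v ∈ W, ∀ (i j : ℤ) (k k' : ℕ), ok k → ok k' → Rl R y v i j k k' →
    Noeth (closure (orb (zpowers y) {v}))

/-- descending chains of bounded subgroups become tidy -/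
def Tdy (ok : ℕ → Prop) (W : Subgroup G) : Prop :=
  ∀ C : ℕ → Subgroup G, Antitone C → Bd W (C 0) → ∀ E : Set G, E.Finite → E ⊆ W →
    ∃ m₀ : ℕ, ∀ m, m₀ ≤ m → ∀ u ∈ C m, ∃ k : ℕ, ok k ∧ u ^ k ∈ C (m + 1) ⊔ (centralizer E ⊓ C m)

/-- statement for an extra abelian layer on top -/
def SA (d : ℕ) : Prop :=
  ∀ (G : Type) [Group G] [Group.IsSolvable G] (N₁ N : Subgroup G) [N₁.Normal] [N.Normal], HC G →
    N₁ ≤ N → ⁅N, N⁆ ≤ N₁ → PN N₁ → der N₁ d = ⊥ → RN N ⊤ → Noeth (⊤ : Subgroup G)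

/-- statement without the extra layer -/
def SB (d : ℕ) : Prop :=
  ∀ (G : Type) [Group G] [Group.IsSolvable G] (N₁ : Subgroup G) [N₁.Normal], HC G →
    PN N₁ → der N₁ d = ⊥ → RN N₁ ⊤ → Noeth (⊤ : Subgroup G)

theorem PN.mono {M M' : Subgroup G} (h : PN M) (hM : M' ≤ M) : PN M' :=
  fun K hK => h K (hK.trans hM)

theorem PN.subgroupOf {M : Subgroup G} (h : PN M) (J : Subgroup G) : PN (M.subgroupOf J) := by
  intro K hK hn
  have := h (K.map J.subtype) (map_le_iff_le_comap.2 hK) (hn.map _)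
  exact Group.nilpotent_of_mulEquiv (K.equivMapOfInjective J.subtype J.subtype_injective).symm

theorem Bd.mono {W Γ Γ' : Subgroup G} (h : Bd W Γ) (hΓ : Γ' ≤ Γ) : Bd W Γ' :=
  fun v hv => (h v hv).le (closure_mono (orb_mono hΓ le_rfl))

theorem Bd.lb {W Γ : Subgroup G} (h : Bd W Γ) : LB W Γ :=
  fun _ _ hY => h.mono ((closure_le _).2 hY)

theorem LB.mono {W Γ Γ' : Subgroup G} (h : LB W Γ) (hΓ : Γ' ≤ Γ) : LB W Γ' :=
  fun Y hY hY' => h Y hY (hY'.trans hΓ)

theorem LB.bd {W Γ Γ' : Subgroup G} (h : LB W Γ) (hΓ : Γ' ≤ Γ) (hf : Γ'.FG) : Bd W Γ' := by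
  obtain ⟨U, hU, hUf⟩ := (fg_iff _).1 hf
  rw [← hU]
  exact h U hUf fun u hu => hΓ (hU ▸ subset_closure hu)

theorem bd_bot (W : Subgroup G) : Bd W ⊥ := by
  intro v _
  refine Noeth.le (noeth_of_comm (closure_comm (S := {v}) fun a ha b hb => by rw [ha, hb])
    ((fg_iff _).2 ⟨_, rfl, Set.finite_singleton _⟩)) (closure_mono ?_)
  rintro _ ⟨x, hx, _, rfl, rfl⟩
  rw [mem_bot.1 hx]
  simp

theorem le_normalizer_commutator {X A B : Subgroup G} (hA : X ≤ normalizer (A : Set G))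
    (hB : X ≤ normalizer (B : Set G)) : X ≤ normalizer ((⁅A, B⁆ : Subgroup G) : Set G) := by
  refine le_normalizer_of_conj fun g hg j hj => ?_
  have : ⁅A, B⁆ ≤ (⁅A, B⁆ : Subgroup G).comap (MulAut.conj g).toMonoidHom := by
    rw [commutator_le]
    intro a ha b hb
    rw [mem_comap, map_commutatorElement]
    exact commutator_mem_commutator ((mem_normalizer_iff.1 (hA hg) a).1 ha)
      ((mem_normalizer_iff.1 (hB hg) b).1 hb)
  exact this hj

theorem le_normalizer_der {X M : Subgroup G} (h : X ≤ normalizer (M : Set G)) :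
    ∀ k, X ≤ normalizer (der M k : Set G)
  | 0 => h
  | k + 1 => le_normalizer_commutator (le_normalizer_der h k) (le_normalizer_der h k)

theorem cj_zero (y v : G) : cj y 0 v = v := by simp [cj]

theorem cj_add (y : G) (l m : ℤ) (v : G) : cj y (l + m) v = cj y l (cj y m v) := by
  simp only [cj, zpow_add]; group

theorem cj_succ (y : G) (l : ℤ) (v : G) : cj y (l + 1) v = y * cj y l v * y⁻¹ := by
  simp only [cj]; group

theorem cj_mem {W : Subgroup G} [h : W.Normal] (y : G) (l : ℤ) {v : G} (hv : v ∈ W) :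
    cj y l v ∈ W := h.conj_mem v hv _

theorem orb_zpowers (y v : G) : orb (zpowers y) {v} = Set.range fun l => cj y l v := by
  ext x
  constructor
  · rintro ⟨_, ⟨l, rfl⟩, _, rfl, rfl⟩; exact ⟨l, rfl⟩
  · rintro ⟨l, rfl⟩; exact ⟨_, ⟨l, rfl⟩, _, rfl, rfl⟩

end groups

section closures

variable {D : Type} [Group D] {X : Type} [MulAction D X]

/-- translates of the elements of `S` by the elements of `A` -/
def act (A : Set D) (S : Set X) : Set X := {x | ∃ a ∈ A, ∃ s ∈ S, x = a • s}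

/-- a finitary equivariant closure operator -/
structure Clo (D : Type) [Group D] {X : Type} [MulAction D X] (c : Set X → Set X) : Prop where
  ext : ∀ S, S ⊆ c S
  idem : ∀ S T, S ⊆ c T → c S ⊆ c T
  fin : ∀ S, ∀ x ∈ c S, ∃ F : Set X, F.Finite ∧ F ⊆ S ∧ x ∈ c F
  eqv : ∀ (g : D) (S : Set X), ∀ x ∈ c S, g • x ∈ c (act {g} S)

/-- bounded orbits -/
def CB (c : Set X → Set X) (Γ : Subgroup D) : Prop :=
  ∀ x : X, ∃ F : Set X, F.Finite ∧ ∀ g ∈ Γ, g • x ∈ c F

/-- `A` preserves the closed sets -/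
def Pres (c : Set X → Set X) (A : Subgroup D) : Prop := ∀ a ∈ A, ∀ x : X, a • x ∈ c {x}

theorem mem_act {A : Set D} {S : Set X} {a : D} {s : X} (ha : a ∈ A) (hs : s ∈ S) :
    a • s ∈ act A S := ⟨a, ha, s, hs, rfl⟩

theorem act_mono {A A' : Set D} {S S' : Set X} (hA : A ⊆ A') (hS : S ⊆ S') :
    act A S ⊆ act A' S' := by
  rintro _ ⟨a, ha, s, hs, rfl⟩
  exact mem_act (hA ha) (hS hs)

theorem act_finite {A : Set D} {S : Set X} (hA : A.Finite) (hS : S.Finite) : (act A S).Finite := by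
  refine (hA.image2 (· • ·) hS).subset ?_
  rintro _ ⟨a, ha, s, hs, rfl⟩
  exact ⟨a, ha, s, hs, rfl⟩

theorem subset_act (A : Subgroup D) (S : Set X) : S ⊆ act (A : Set D) S :=
  fun s hs => ⟨1, one_mem _, s, hs, (one_smul _ _).symm⟩

variable {c : Set X → Set X}

theorem Clo.mono (h : Clo D c) {S T : Set X} (hS : S ⊆ T) : c S ⊆ c T :=
  h.idem S T (hS.trans (h.ext T))

/-- if `g` maps `S` into `c T` then it maps `c S` into `c T` -/
theorem Clo.smul_mem (h : Clo D c) {g : D} {S T : Set X} (hS : ∀ s ∈ S, g • s ∈ c T) {x : X}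
    (hx : x ∈ c S) : g • x ∈ c T := by
  refine h.idem _ _ ?_ (h.eqv g S x hx)
  rintro _ ⟨_, rfl, s, hs, rfl⟩
  exact hS s hs

theorem Clo.fin' (h : Clo D c) {S F : Set X} (hF : F.Finite) (hS : F ⊆ c S) :
    ∃ F' : Set X, F'.Finite ∧ F' ⊆ S ∧ F ⊆ c F' := by
  choose! f h1 h2 h3 using h.fin S
  refine ⟨⋃ x ∈ F, f x, hF.biUnion fun x hx => h1 x (hS hx),
    Set.iUnion₂_subset fun x hx => h2 x (hS hx), fun x hx => ?_⟩
  exact h.mono (Set.subset_biUnion_of_mem (u := f) hx) (h3 x (hS hx))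

/-- a finite part of the closure of `A S` needs only finitely many elements of `A` -/
theorem Clo.fin_act (h : Clo D c) {A : Set D} {S F : Set X} (hF : F.Finite)
    (hS : F ⊆ c (act A S)) : ∃ t : Set D, t.Finite ∧ t ⊆ A ∧ F ⊆ c (act t S) := by
  obtain ⟨F', h1, h2, h3⟩ := h.fin' hF hS
  have h4 : ∀ x ∈ F', ∃ a ∈ A, ∃ s ∈ S, x = a • s := fun x hx => h2 hx
  choose! a ha hs using h4
  refine ⟨a '' F', h1.image _, ?_, h3.trans (h.mono fun x hx => ?_)⟩
  · rintro _ ⟨x, hx, rfl⟩; exact ha x hx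
  · exact ⟨a x, ⟨x, hx, rfl⟩, hs x hx⟩

theorem CB.fin (h : Clo D c) {Γ : Subgroup D} (hΓ : CB c Γ) {E : Set X} (hE : E.Finite) :
    ∃ F : Set X, F.Finite ∧ ∀ g ∈ Γ, ∀ x ∈ E, g • x ∈ c F := by
  choose f h1 h2 using hΓ
  exact ⟨⋃ x ∈ E, f x, hE.biUnion fun x _ => h1 x, fun g hg x hx =>
    h.mono (Set.subset_biUnion_of_mem (u := f) hx) (h2 x g hg)⟩

theorem Pres.mem (h : Clo D c) {A : Subgroup D} (hA : Pres c A) {a : D} (ha : a ∈ A) {S : Set X}
    {x : X} (hx : x ∈ c S) : a • x ∈ c S :=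
  h.idem _ _ (Set.singleton_subset_iff.2 hx) (hA a ha x)

/-- two copies of the group: conjugation on the first, left translation on the second -/
inductive XT (D : Type) : Type
  | l : D → XT D
  | r : D → XT D

instance : MulAction D (XT D) where
  smul g x := match x with
    | .l a => .l (g * a * g⁻¹)
    | .r h => .r (g * h)
  one_smul x := by
    cases x with
    | l a => exact congrArg XT.l (by simp)
    | r h => exact congrArg XT.r (by simp)
  mul_smul g g' x := by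
    cases x with
    | l a => exact congrArg XT.l (by group)
    | r h => exact congrArg XT.r (by group)

theorem smul_l (g a : D) : g • (XT.l a : XT D) = XT.l (g * a * g⁻¹) := rfl

theorem smul_r (g h : D) : g • (XT.r h : XT D) = XT.r (g * h) := rfl

/-- the closed set spanned by `⟨t⟩ g F` -/
def Zs (c : Set X → Set X) (F : Set X) (t : Set D) (g : D) : Set X :=
  c (act (closure t : Set D) (act {g} F))

/-- closed subsets of the auxiliary space -/
structure Cls (c : Set X → Set X) (F : Set X) (A A₀ : Subgroup D) (Z : Set (XT D)) : Prop where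
  out : ∀ a, a ∉ A₀ → XT.l a ∈ Z
  com : ∀ a ∈ ⁅A, A⁆, XT.l a ∈ Z
  div : ∀ a ∈ A₀, ∀ b ∈ A₀, XT.l a ∈ Z → XT.l b ∈ Z → XT.l (a * b⁻¹) ∈ Z
  tra : ∀ a ∈ A, ∀ g, XT.r g ∈ Z → XT.r (a * g) ∈ Z
  r1 : ∀ (g : D) (t : Set D) (a : D), XT.r g ∈ Z → t.Finite → t ⊆ A₀ → (∀ b ∈ t, XT.l b ∈ Z) →
    a ∈ A₀ → act {a * g} F ⊆ Zs c F t g → act {a⁻¹ * g} F ⊆ Zs c F t g → XT.l a ∈ Z
  r2 : ∀ (g : D) (t : Set D) (g' : D), XT.r g ∈ Z → t.Finite → t ⊆ A₀ → (∀ b ∈ t, XT.l b ∈ Z) →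
    act {g'} F ⊆ Zs c F t g → act {g} F ⊆ Zs c F t g' → XT.r g' ∈ Z

/-- the closure operator of the auxiliary space -/
def ct (c : Set X → Set X) (F : Set X) (A A₀ : Subgroup D) (S : Set (XT D)) : Set (XT D) :=
  {x | ∀ Z, Cls c F A A₀ Z → S ⊆ Z → x ∈ Z}

theorem cls_ct (F : Set X) (A A₀ : Subgroup D) (S : Set (XT D)) :
    Cls c F A A₀ (ct c F A A₀ S) where
  out a ha _ hZ _ := hZ.out a ha
  com a ha _ hZ _ := hZ.com a ha
  div a ha b hb h1 h2 Z hZ hS := hZ.div a ha b hb (h1 Z hZ hS) (h2 Z hZ hS)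
  tra a ha g h1 Z hZ hS := hZ.tra a ha g (h1 Z hZ hS)
  r1 g t a h1 h2 h3 h4 h5 h6 h7 Z hZ hS :=
    hZ.r1 g t a (h1 Z hZ hS) h2 h3 (fun b hb => h4 b hb Z hZ hS) h5 h6 h7
  r2 g t g' h1 h2 h3 h4 h5 h6 Z hZ hS :=
    hZ.r2 g t g' (h1 Z hZ hS) h2 h3 (fun b hb => h4 b hb Z hZ hS) h5 h6

theorem subset_ct (F : Set X) (A A₀ : Subgroup D) (S : Set (XT D)) : S ⊆ ct c F A A₀ S :=
  fun _ hx _ _ hS => hS hx

theorem ct_subset {F : Set X} {A A₀ : Subgroup D} {S Z : Set (XT D)} (hZ : Cls c F A A₀ Z)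
    (hS : S ⊆ Z) : ct c F A A₀ S ⊆ Z := fun _ hx => hx Z hZ hS

theorem ct_mono {F : Set X} {A A₀ : Subgroup D} {S S' : Set (XT D)} (hS : S ⊆ S') :
    ct c F A A₀ S ⊆ ct c F A A₀ S' :=
  ct_subset (cls_ct F A A₀ S') (hS.trans (subset_ct F A A₀ S'))

end closures

section modules

variable {G : Type} [Group G] {K : Type} [Field K] {V : Type} [AddCommGroup V] [Module K V]

/-- a module over a prime field spanned by an equivariant additive image of `W`, kernel `R` -/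
structure Rp (W R : Subgroup G) (a : G →* Module.End K V) (ι : G → V) : Prop where
  add : ∀ b ∈ W, ∀ c ∈ W, ι (b * c) = ι b + ι c
  conj : ∀ g, ∀ b ∈ W, ι (g * b * g⁻¹) = a g (ι b)
  ker : ∀ b ∈ W, ι b = 0 ↔ b ∈ R
  span : ∀ v : V, ∃ n : ℕ, (n : K) ≠ 0 ∧ ∃ b ∈ W, (n : K) • v = ι b
  prim : ∀ c : K, ∃ (m : ℤ) (n : ℕ), (n : K) ≠ 0 ∧ (n : K) * c = m

/-- invariant subspace -/
def Iv (a : G →* Module.End K V) (Γ : Subgroup G) (S : Submodule K V) : Prop :=
  ∀ g ∈ Γ, ∀ v ∈ S, a g v ∈ S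

/-- locally unipotent elements -/
def Uni (a : G →* Module.End K V) (U : Subgroup G) : Prop :=
  ∀ u ∈ U, ∀ v : V, ∃ n : ℕ, ((a u - 1) ^ n) v = 0

/-- locally finite-dimensional action of the finitely generated subgroups -/
def Lfd (a : G →* Module.End K V) (T : Subgroup G) : Prop :=
  ∀ Y : Set G, Y.Finite → Y ⊆ T → ∀ v : V,
    ∃ S : Submodule K V, FiniteDimensional K S ∧ v ∈ S ∧ Iv a (closure Y) S

/-- `a g - 1` is injective on `S` -/
def Inj (a : G →* Module.End K V) (g : G) (S : Submodule K V) : Prop :=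
  ∀ v ∈ S, a g v = v → v = 0

/-- windows -/
def Wn (H : ℤ → Subgroup G) (i j : ℤ) : Subgroup G := ⨅ k ∈ Set.Icc i j, H k

/-- the data of the module theorem -/
structure Md (a : G →* Module.End K V) (D T U : Subgroup G) (y : G) (e : ℤ → V)
    (H : ℤ → Subgroup G) : Prop where
  le : U ≤ T
  tle : T ≤ D
  mem : y ∈ D
  cm : ⁅D, D⁆ ≤ U
  lfd : Lfd a T
  uni : Uni a U
  sh : ∀ j, a y (e j) = e (j + 1)
  li : LinearIndependent K e
  hle : ∀ j, H j ≤ T
  hsh : ∀ j g, g ∈ H j ↔ y * g * y⁻¹ ∈ H (j + 1)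
  fix : ∀ j, ∀ g ∈ H j, a g (e j) = e j
  kil : ∀ i j, ∃ x ∈ Wn H i j, FiniteDimensional K (LinearMap.ker (a x - 1))
  tidy : ∃ m₀ : ℕ, ∀ m : ℕ, m₀ ≤ m → ∀ u ∈ U ⊓ Wn H 1 m, ∃ k : ℕ, (k : K) ≠ 0 ∧
    u ^ k ∈ (U ⊓ Wn H 0 m) ⊔ (U ⊓ Wn H 1 (m + 1))

/-- every nonzero invariant subspace meets the span of the `e j` -/
def Ess (a : G →* Module.End K V) (e : ℤ → V) : Prop :=
  ∀ S : Submodule K V, Iv a ⊤ S → S ≠ ⊥ → S ⊓ Submodule.span K (Set.range e) ≠ ⊥

theorem mem_Wn {H : ℤ → Subgroup G} {i j : ℤ} {g : G} :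
    g ∈ Wn H i j ↔ ∀ k, i ≤ k → k ≤ j → g ∈ H k := by
  simp [Wn, mem_iInf]

theorem normal_of_cm {U : Subgroup G} (h : ⁅(⊤ : Subgroup G), ⊤⁆ ≤ U) : U.Normal :=
  ⟨fun u hu g => by
    have := U.mul_mem (h (commutator_mem_commutator (mem_top g) (mem_top u))) hu
    simpa [commutatorElement_def] using this⟩

theorem a_mul (a : G →* Module.End K V) (g h : G) (v : V) : a (g * h) v = a g (a h v) := by
  rw [map_mul]; rfl

theorem a_inv_apply (a : G →* Module.End K V) (g : G) (v : V) : a g⁻¹ (a g v) = v := by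
  rw [← a_mul, inv_mul_cancel, map_one]; rfl

theorem a_apply_inv (a : G →* Module.End K V) (g : G) (v : V) : a g (a g⁻¹ v) = v := by
  rw [← a_mul, mul_inv_cancel, map_one]; rfl

theorem Iv.mono {a : G →* Module.End K V} {Γ Γ' : Subgroup G} {S : Submodule K V} (h : Iv a Γ S)
    (hΓ : Γ' ≤ Γ) : Iv a Γ' S := fun g hg => h g (hΓ hg)

theorem Iv.inf {a : G →* Module.End K V} {Γ : Subgroup G} {S S' : Submodule K V} (h : Iv a Γ S)
    (h' : Iv a Γ S') : Iv a Γ (S ⊓ S') := fun g hg v hv => ⟨h g hg v hv.1, h' g hg v hv.2⟩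

/-- the invariant subspace generated by a vector -/
def gen (a : G →* Module.End K V) (Γ : Subgroup G) (v : V) : Submodule K V :=
  Submodule.span K {x | ∃ g ∈ Γ, x = a g v}

theorem mem_gen (a : G →* Module.End K V) (Γ : Subgroup G) (v : V) : v ∈ gen a Γ v :=
  Submodule.subset_span ⟨1, one_mem _, by rw [map_one]; rfl⟩

theorem iv_gen (a : G →* Module.End K V) (Γ : Subgroup G) (v : V) : Iv a Γ (gen a Γ v) := by
  intro g hg x hx
  have : gen a Γ v ≤ (gen a Γ v).comap (a g) := by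
    refine Submodule.span_le.2 ?_
    rintro _ ⟨h, hh, rfl⟩
    exact Submodule.subset_span ⟨g * h, mul_mem hg hh, (a_mul a g h v).symm⟩
  exact this hx

theorem gen_le {a : G →* Module.End K V} {Γ : Subgroup G} {v : V} {S : Submodule K V}
    (h : Iv a Γ S) (hv : v ∈ S) : gen a Γ v ≤ S := by
  refine Submodule.span_le.2 ?_
  rintro _ ⟨g, hg, rfl⟩
  exact h g hg v hv

variable {W R : Subgroup G} {a : G →* Module.End K V} {ι : G → V}

theorem Rp.one (h : Rp W R a ι) : ι 1 = 0 := by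
  have := h.add 1 (one_mem _) 1 (one_mem _)
  rw [one_mul] at this
  simpa using this

theorem Rp.inv (h : Rp W R a ι) {b : G} (hb : b ∈ W) : ι b⁻¹ = - ι b := by
  have := h.add b hb b⁻¹ (inv_mem hb)
  rw [mul_inv_cancel, h.one] at this
  exact eq_neg_of_add_eq_zero_right this.symm

theorem Rp.pow (h : Rp W R a ι) {b : G} (hb : b ∈ W) (n : ℕ) : ι (b ^ n) = (n : K) • ι b := by
  induction n with
  | zero => simp [h.one]
  | succ n ih => rw [pow_succ, h.add _ (pow_mem hb n) _ hb, ih, Nat.cast_succ, add_smul, one_smul]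

theorem Rp.mem_span (h : Rp W R a ι) {T : Set G} (hT : T ⊆ W) {b : G} (hb : b ∈ closure T) :
    ι b ∈ Submodule.span K (ι '' T) := by
  have hle : closure T ≤ W := (closure_le _).2 hT
  induction hb using closure_induction with
  | mem x hx => exact Submodule.subset_span ⟨x, hx, rfl⟩
  | one => rw [h.one]; exact zero_mem _
  | mul x y hx hy ihx ihy => rw [h.add x (hle hx) y (hle hy)]; exact add_mem ihx ihy
  | inv x hx ih => rw [h.inv (hle hx)]; exact neg_mem ih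

theorem mem_of_smul_mem {U : Submodule K V} {n : K} (hn : n ≠ 0) {v : V} (h : n • v ∈ U) :
    v ∈ U := (U.smul_mem_iff hn).1 h

end modules

end Pool.Agent.P.MP_3540e7_al.T7
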