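import Pool.Agent.P.MP_3540e7_al.T7.Base

/-! Statements of the steps. -/

set_option autoImplicit false

namespace Pool.Agent.P.MP_3540e7_al.T7

open Subgroup T5
open scoped commutatorElement

-- deps:
def S_TORS : Prop :=
  ∀ (Q : Type) [Group Q] [Group.IsNilpotent Q] (S : Set Q), closure S = ⊤ →
    (∀ s ∈ S, IsOfFinOrder s) → ∀ g : Q, IsOfFinOrder g

-- deps:
def S_ROOT0 : Prop :=
  ∀ (Q : Type) [Group Q] [Group.IsNilpotent Q], (∀ z ∈ center Q, IsOfFinOrder z → z = 1) →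
    ∀ (g h : Q) (k : ℕ), 0 < k → g ^ k = h ^ k → g = h

-- deps: TORS ROOT0
def S_ROOT : Prop :=
  ∀ (Q : Type) [Group Q] [Group.IsNilpotent Q] (g h : Q) (k : ℕ), 0 < k →
    IsOfFinOrder (g ^ k * (h ^ k)⁻¹) → IsOfFinOrder (g * h⁻¹)

-- deps: TORS
def S_TORL : Prop :=
  ∀ (G : Type) [Group G] (W : Subgroup G) (S : Set G), LP W → PN W → S ⊆ W →
    (∀ s ∈ S, IsOfFinOrder s) → ∀ g ∈ closure S, IsOfFinOrder g

-- deps: TORL ROOT
def S_TAU : Prop :=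
  ∀ (G : Type) [Group G] (W : Subgroup G) [W.Normal], LP W → PN W →
    ∃ (τ : Subgroup G) (_ : τ.Normal), (∀ g, g ∈ τ ↔ g ∈ W ∧ IsOfFinOrder g) ∧
      ∀ x : G, ∀ g ∈ W, ∀ k : ℕ, 0 < k → ⁅x, g ^ k⁆ ∈ τ → ⁅x, g⁆ ∈ τ

-- deps:
def S_LPX : Prop :=
  ∀ (G : Type) [Group G] (L R : Subgroup G), ⁅L, L⁆ ≤ R → PC R → LP L

-- deps:
def S_RHO : Prop :=
  ∀ (G : Type) [Group G], ∃ (ρ : Subgroup G) (_ : ρ.Normal),
    (∀ g, g ∈ ρ ↔ Noeth (normalClosure {g})) ∧ PC ρ ∧ ∀ R : Subgroup G, PC R → R ≤ ρ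

-- deps:
def S_HF0 : Prop :=
  ∀ (G : Type) [Group G] [Group.IsSolvable G] (Q P : Subgroup G) [Q.Normal] [P.Normal] (x : G)
    (c : ℕ), P ≤ Q → Noeth Q → gam Q c = ⊥ → (∀ g ∈ Q, ⁅x, g⁆ ∈ P) →
    hl Q ≤ hl (Q ⊓ centralizer {x}) + hl P

-- deps: HF0
def S_HF : Prop :=
  ∀ (G : Type) [Group G] [Group.IsSolvable G] (Q P : Subgroup G) [P.Normal] (x : G),
    P ≤ Q → Noeth Q → Group.IsNilpotent Q → (∀ g ∈ Q, ⁅x, g⁆ ∈ P) →
    hl Q ≤ hl (Q ⊓ centralizer {x}) + hl P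

-- deps: HF
def S_FRT : Prop :=
  ∀ (G : Type) [Group G] [Group.IsSolvable G] (W R : Subgroup G) [W.Normal] [R.Normal]
    (ok : ℕ → Prop), Ly W R → (∀ k, 0 < k → ok k) → Frk ok W R

-- deps: 5CNT 5FIN
def S_FRP : Prop :=
  ∀ (G : Type) [Group G] [Group.IsSolvable G] (W R : Subgroup G) [W.Normal] [R.Normal]
    (ok : ℕ → Prop), Ly W R → Per ⊥ W → ok 1 → Frk ok W R

-- deps:
def S_TR : Prop :=
  ∀ (G : Type) [Group G] (W R Γ : Subgroup G) [W.Normal] [R.Normal] (v : G), PC R → LP W → Γ.FG →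
    v ∈ W → RN (R ⊓ closure (orb Γ {v})) (closure (orb Γ {v})) → Noeth (closure (orb Γ {v}))

-- deps:
def S_SH : Prop :=
  ∀ (G : Type) [Group G] (W P Z : Subgroup G) [W.Normal] [P.Normal] (y v : G) (i j : ℤ)
    (k k' : ℕ), v ∈ W → P ≤ Z → (∀ g ∈ W, g ^ k ∈ Z → g ∈ Z) → (∀ g ∈ W, g ^ k' ∈ Z → g ∈ Z) →
    Rl P y v i j k k' → (∀ l, i ≤ l → l ≤ j → cj y l v ∈ Z) → ∀ l, cj y l v ∈ Z

-- deps: TR SH
def S_LNP : Prop :=
  ∀ (G : Type) [Group G] (W R : Subgroup G) [W.Normal] [R.Normal] (p : ℕ) (ok : ℕ → Prop),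
    Ly W R → Tor p W R → (∀ k, ok k → ¬ p ∣ k) → Lin ok W R

-- deps: TR SH TAU 5CNT 5FIN
def S_LNT : Prop :=
  ∀ (G : Type) [Group G] [Group.IsSolvable G] (W R : Subgroup G) [W.Normal] [R.Normal]
    (ok : ℕ → Prop), Ly W R → Tf W R →
    (∀ F : Set G, F.Finite → F ⊆ W → ∃ x ∈ centralizer F, Noeth (centralizer {x})) →
    (∀ k, ok k → 0 < k) → Lin ok W R

-- deps:
def S_TIDY : Prop :=
  ∀ (G : Type) [Group G] [Group.IsSolvable G] (C : ℕ → Subgroup G) (K : Subgroup G), Antitone C →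
    K ≤ C 0 → C 0 ≤ normalizer (K : Set G) → RN K (C 0) →
    ∃ m₀ : ℕ, ∀ m, m₀ ≤ m → (C (m + 1) ⊔ (K ⊓ C m)).relIndex (C m) ≠ 0

-- deps:
def S_TIDYF : Prop :=
  ∀ (G : Type) [Group G] (C : ℕ → Subgroup G) (K : Subgroup G), Antitone C →
    K.relIndex (C 0) ≠ 0 → ∃ m₀ : ℕ, ∀ m, m₀ ≤ m → C m ≤ C (m + 1) ⊔ (K ⊓ C m)

-- deps:
def S_BD1 : Prop :=
  ∀ (G : Type) [Group G] (W Γ : Subgroup G) [W.Normal], LP W →
    (∀ S : Set G, S ⊆ W → (∀ s ∈ S, Noeth (closure (orb Γ {s}))) →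
      ∀ v ∈ closure S, Noeth (closure (orb Γ {v}))) ∧
    (Bd W Γ → ∀ E : Set G, E.Finite → E ⊆ W → Noeth (closure (orb Γ E)))

-- deps: BD1
def S_BD2 : Prop :=
  ∀ (G : Type) [Group G] (W H Γ : Subgroup G) [W.Normal], LP W → Bd W H → H.relIndex Γ ≠ 0 →
    Bd W Γ

-- deps: TIDY BD1 5MALN
def S_TDT : Prop :=
  ∀ (G : Type) [Group G] [Group.IsSolvable G] (W : Subgroup G) [W.Normal] (ok : ℕ → Prop),
    LP W → (∀ k, 0 < k → ok k) → Tdy ok W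

-- deps: TIDYF BD1 5FIN
def S_TDP : Prop :=
  ∀ (G : Type) [Group G] [Group.IsSolvable G] (W : Subgroup G) [W.Normal] (ok : ℕ → Prop),
    LP W → Per ⊥ W → ok 1 → Tdy ok W

-- deps:
def S_LA : Prop :=
  ∀ (D : Type) [Group D] (X : Type) [MulAction D X] (c : Set X → Set X) (A : Subgroup D)
    [A.Normal], Clo D c →
    Clo D (fun S => c (act (A : Set D) S)) ∧ Pres (fun S => c (act (A : Set D) S)) A ∧
      ∀ Γ : Subgroup D, CB c Γ → CB (fun S => c (act (A : Set D) S)) Γ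

-- deps:
def S_LB0 : Prop :=
  ∀ (D : Type) [Group D] [Group.FG D] (X : Type) [MulAction D X] (c : Set X → Set X)
    (A : Subgroup D) [A.Normal] (F₀ F : Set X), Clo D c → F₀.Finite → F.Finite →
    c (act (Set.univ : Set D) F₀) = Set.univ → c (act (A : Set D) F) = Set.univ →
    ∃ Y : Set D, Y.Finite ∧ Y ⊆ A ∧ c (act (normalClosure Y : Set D) F) = Set.univ

-- deps:
def S_LX1 : Prop :=
  ∀ (D : Type) [Group D] (X : Type) [MulAction D X] (c : Set X → Set X) (F : Set X)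
    (A A₀ : Subgroup D) [A.Normal] [A₀.Normal], Clo D c → Clo D (ct c F A A₀)

-- deps:
def S_LX2 : Prop :=
  ∀ (D : Type) [Group D] (X : Type) [MulAction D X] (c : Set X → Set X) (F : Set X)
    (A : Subgroup D) [A.Normal] (Y : Set D), Y ⊆ A →
    ct c F A (normalClosure Y) (act (Set.univ : Set D) (XT.l '' Y ∪ {XT.r 1})) = Set.univ ∧
      Pres (ct c F A (normalClosure Y)) A

-- deps:
def S_LX3 : Prop :=
  ∀ (D : Type) [Group D] (X : Type) [MulAction D X] (c : Set X → Set X) (F : Set X)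
    (A A₀ Γ : Subgroup D) [A₀.Normal], Clo D c → F.Finite →
    c (act (A₀ : Set D) F) = Set.univ → CB c Γ → CB (ct c F A A₀) Γ

-- deps:
def S_LX4 : Prop :=
  ∀ (D : Type) [Group D] (X : Type) [MulAction D X] (c : Set X → Set X) (F : Set X)
    (A A₀ : Subgroup D) [A.Normal] [A₀.Normal] (F' : Set (XT D)), Clo D c → F.Finite → A₀ ≤ A →
    Pres c ⁅A, A⁆ → c (act (A₀ : Set D) F) = Set.univ → F'.Finite → ct c F A A₀ F' = Set.univ →
    ∃ t : Set D, t.Finite ∧ t ⊆ A ∧ c (act (closure t : Set D) F) = Set.univ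

-- deps: LA LB0 LX1 LX2 LX3 LX4
def S_LEM : Prop :=
  ∀ (D : Type) [Group D] [Group.FG D] (H N : Subgroup D) [N.Normal], H ⊔ N = ⊤ →
    ∀ (e : ℕ) (X : Type) [MulAction D X] (c : Set X → Set X) (F₀ : Set X), Clo D c → F₀.Finite →
    c (act (Set.univ : Set D) F₀) = Set.univ → Pres c (der N e) → CB c H →
    (∀ Y : Set D, Y.Finite → Y ⊆ N → CB c (closure Y)) →
    ∃ F : Set X, F.Finite ∧ c F = Set.univ

-- deps: LEM
def S_LEMG : Prop :=
  ∀ (G : Type) [Group G] [Group.IsSolvable G] (W D H M : Subgroup G) [W.Normal], LP W → D.FG →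
    H ≤ D → M ≤ D → D ≤ normalizer (M : Set G) → D ≤ H ⊔ M → Bd W H → LB W M → Bd W D

-- deps: LEMG
def S_LB2 : Prop :=
  ∀ (G : Type) [Group G] [Group.IsSolvable G] (W Γ M : Subgroup G) [W.Normal], LP W →
    Γ ≤ normalizer (M : Set G) → LB W Γ → LB W M → LB W (Γ ⊔ M)

-- deps: LEMG BD2
def S_Y1 : Prop :=
  ∀ (G : Type) [Group G] [Group.IsSolvable G] (N₁ N W R J : Subgroup G) [N.Normal] [W.Normal]
    (w : G), Cw N₁ N W R J w → ¬ LB W (J ⊓ N)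

-- deps: LB2
def S_Y2 : Prop :=
  ∀ (G : Type) [Group G] [Group.IsSolvable G] (W M : Subgroup G) [W.Normal], LP W →
    LB W ⁅M, M⁆ → ¬ LB W M → ∃ y ∈ M, ¬ Bd W (zpowers y)

-- deps: LB2
def S_Y3 : Prop :=
  ∀ (G : Type) [Group G] [Group.IsSolvable G] (W J B M : Subgroup G) [W.Normal] (w y : G), LP W →
    M ≤ B → B ≤ J → J ≤ normalizer (M : Set G) → LB W ⁅M, M⁆ → Bd W (J ⊓ centralizer {w}) →
    y ∈ M → ∃ T : Subgroup G, T ≤ B ∧ LB W T ∧ y ∈ normalizer (T : Set G) ∧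
      B ⊓ centralizer {w, y * w * y⁻¹} ≤ T

-- deps: Y1 Y2 Y3
def S_Y : Prop :=
  ∀ (G : Type) [Group G] [Group.IsSolvable G] (N₁ N W R J : Subgroup G) [N.Normal] [W.Normal]
    (w : G), Cw N₁ N W R J w →
    ∃ y ∈ J ⊓ N, ∃ T : Subgroup G, T ≤ J ⊓ N ∧ LB W T ∧ y ∈ normalizer (T : Set G) ∧
      J ⊓ N ⊓ centralizer {w, y * w * y⁻¹} ≤ T ∧ ¬ Bd W (zpowers y)

-- deps: 5RAT
def S_RPT : Prop :=
  ∀ (G : Type) [Group G] (W R : Subgroup G) [W.Normal] [R.Normal], ⁅W, W⁆ ≤ R → Tf W R →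
    ∃ (V : Type) (_ : AddCommGroup V) (_ : Module ℚ V) (a : G →* Module.End ℚ V) (ι : G → V),
      Rp W R a ι

-- deps:
def S_RPP : Prop :=
  ∀ (G : Type) [Group G] (W R : Subgroup G) [W.Normal] [R.Normal] (p : ℕ) [Fact p.Prime],
    ⁅W, W⁆ ≤ R → (∀ b ∈ W, b ^ p ∈ R) →
    ∃ (V : Type) (_ : AddCommGroup V) (_ : Module (ZMod p) V) (a : G →* Module.End (ZMod p) V)
      (ι : G → V), Rp W R a ι

-- deps:
def S_LFDT : Prop :=
  ∀ (G : Type) [Group G] (K : Type) [Field K] (V : Type) [AddCommGroup V] [Module K V]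
    (a : G →* Module.End K V) (ι : G → V) (W R T : Subgroup G) [W.Normal], Rp W R a ι →
    LB W T → Lfd a T

-- deps:
def S_UNI : Prop :=
  ∀ (G : Type) [Group G] (K : Type) [Field K] (V : Type) [AddCommGroup V] [Module K V]
    (a : G →* Module.End K V) (ι : G → V) (W R N₁ U : Subgroup G) [W.Normal], Rp W R a ι →
    W ≤ N₁ → U ≤ N₁ → PN N₁ → LB W U → Uni a U

-- deps:
def S_FRK : Prop :=
  ∀ (G : Type) [Group G] (K : Type) [Field K] (V : Type) [AddCommGroup V] [Module K V]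
    (a : G →* Module.End K V) (ι : G → V) (W R : Subgroup G) [W.Normal] [R.Normal], Rp W R a ι →
    R ≤ W → Frk (fun k => (k : K) ≠ 0) W R →
    ∀ x : G, Noeth (centralizer {x}) → FiniteDimensional K (LinearMap.ker (a x - 1))

-- deps:
def S_REL1 : Prop :=
  ∀ (G : Type) [Group G] (K : Type) [Field K] (V : Type) [AddCommGroup V] [Module K V]
    (a : G →* Module.End K V) (ι : G → V) (W R : Subgroup G) (S : Set G) (b : G), Rp W R a ι →
    S ⊆ W → b ∈ W → ι b ∈ Submodule.span K (ι '' S) →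
    ∃ k : ℕ, (k : K) ≠ 0 ∧ b ^ k ∈ closure S ⊔ R

-- deps:
def S_REL2 : Prop :=
  ∀ (K : Type) [Field K] (V : Type) [AddCommGroup V] [Module K V] (e : ℤ → V),
    ¬ LinearIndependent K e → ∃ i j : ℤ, i ≤ j ∧ e j ∈ Submodule.span K (e '' Set.Ico i j) ∧
      e i ∈ Submodule.span K (e '' Set.Ioc i j)

-- deps:
def S_COK : Prop :=
  ∀ (K : Type) [Field K] (V : Type) [AddCommGroup V] [Module K V] (φ : Module.End K V),
    (∀ v : V, ∃ S : Submodule K V, FiniteDimensional K S ∧ v ∈ S ∧ ∀ s ∈ S, φ s ∈ S) →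
    FiniteDimensional K (LinearMap.ker φ) →
    ∃ U : Submodule K V, FiniteDimensional K U ∧ U ⊔ LinearMap.range φ = ⊤

-- deps: COK
def S_LINK : Prop :=
  ∀ (K : Type) [Field K] (V : Type) [AddCommGroup V] [Module K V] (φ : Module.End K V)
    (M : Submodule K V),
    (∀ v : V, ∃ S : Submodule K V, FiniteDimensional K S ∧ v ∈ S ∧ ∀ s ∈ S, φ s ∈ S) →
    FiniteDimensional K (LinearMap.ker φ) → (∀ s ∈ M, φ s ∈ M) →
    FiniteDimensional K ((M.comap φ).map M.mkQ)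

-- deps:
def S_SU0 : Prop :=
  ∀ (G : Type) [Group G] (K : Type) [Field K] (V : Type) [AddCommGroup V] [Module K V]
    (a : G →* Module.End K V) (U : Subgroup G) (M S : Submodule K V), Uni a U → M ≤ S → M ≠ S →
    FiniteDimensional K S → Iv a U M → Iv a U S →
    (∀ u ∈ U, ∀ u' ∈ U, ∀ s ∈ S, a u (a u' s) - a u' (a u s) ∈ M) →
    ∃ s ∈ S, s ∉ M ∧ ∀ u ∈ U, a u s - s ∈ M

-- deps: SU0
def S_SU : Prop :=
  ∀ (G : Type) [Group G] [Group.IsSolvable G] (K : Type) [Field K] (V : Type) [AddCommGroup V]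
    [Module K V] (a : G →* Module.End K V) (U : Subgroup G) (M S : Submodule K V), Uni a U →
    M ≤ S → M ≠ S → FiniteDimensional K S → Iv a U M → Iv a U S →
    ∃ s ∈ S, s ∉ M ∧ ∀ u ∈ U, a u s - s ∈ M

-- deps: SU
def S_FLAG : Prop :=
  ∀ (G : Type) [Group G] [Group.IsSolvable G] (K : Type) [Field K] (V : Type) [AddCommGroup V]
    [Module K V] (a : G →* Module.End K V) (U Γ : Subgroup G) [U.Normal] (S : Submodule K V),
    Uni a U → FiniteDimensional K S → Iv a Γ S →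
    ∃ (n : ℕ) (M : ℕ → Submodule K V), M 0 = ⊥ ∧ M n = S ∧ (∀ i, M i ≤ S) ∧ (∀ i, Iv a Γ (M i)) ∧
      ∀ i, ∀ u ∈ U ⊓ Γ, ∀ v ∈ M (i + 1), a u v - v ∈ M i

-- deps: FLAG
def S_EQ : Prop :=
  ∀ (G : Type) [Group G] [Group.IsSolvable G] (K : Type) [Field K] (V : Type) [AddCommGroup V]
    [Module K V] (a : G →* Module.End K V) (T U X : Subgroup G) [U.Normal] (S : Submodule K V)
    (g g' : G), Uni a U → Lfd a T → X ≤ T → Iv a X S → g ∈ X → g' ∈ X → g⁻¹ * g' ∈ U →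
    Inj a g S → Inj a g' S

-- deps: FLAG
def S_NIL : Prop :=
  ∀ (G : Type) [Group G] [Group.IsSolvable G] (K : Type) [Field K] (V : Type) [AddCommGroup V]
    [Module K V] (a : G →* Module.End K V) (T U X : Subgroup G) [U.Normal] (u : G) (s : V),
    Uni a U → Lfd a T → X ≤ T → u ∈ U → u ∈ X → s ∈ gen a X (a u s - s) → s = 0

-- deps:
def S_OB1 : Prop :=
  ∀ (G : Type) [Group G] (K : Type) [Field K] (V : Type) [AddCommGroup V] [Module K V]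
    (a : G →* Module.End K V) (T X : Subgroup G) (x : G), Lfd a T → X ≤ T → x ∈ X →
    ∃ O : Submodule K V, Iv a X O ∧ Inj a x O ∧
      ∀ S : Submodule K V, Iv a X S → Inj a x S → S ≤ O

-- deps: OB1 EQ
def S_OB : Prop :=
  ∀ (G : Type) [Group G] [Group.IsSolvable G] (K : Type) [Field K] (V : Type) [AddCommGroup V]
    [Module K V] (a : G →* Module.End K V) (T U X : Subgroup G) (x : G) (w : V),
    ⁅(⊤ : Subgroup G), ⊤⁆ ≤ U → Uni a U → Lfd a T → U ≤ X → X ≤ T → x ∈ X → w ≠ 0 → a x w = w →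
    (∀ S : Submodule K V, Iv a ⊤ S → S ≠ ⊥ → w ∈ S) →
    ∀ S : Submodule K V, Iv a X S → Inj a x S → S = ⊥

-- deps: NIL
def S_SIM : Prop :=
  ∀ (G : Type) [Group G] [Group.IsSolvable G] (K : Type) [Field K] (V : Type) [AddCommGroup V]
    [Module K V] [Nontrivial V] (a : G →* Module.End K V) (T U X : Subgroup G) [U.Normal] (x : G),
    Uni a U → Lfd a T → U ≤ X → X ≤ T → FiniteDimensional K (LinearMap.ker (a x - 1)) →
    (∀ S : Submodule K V, Iv a X S → Inj a x S → S = ⊥) →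
    ∃ s : V, s ≠ 0 ∧ a x s = s ∧ ∀ u ∈ U, a u s = s

-- deps:
def S_FREE : Prop :=
  ∀ (K : Type) [Field K] (V : Type) [AddCommGroup V] [Module K V] (φ : Module.End K V)
    (e : ℤ → V) (S : Submodule K V), LinearIndependent K e → (∀ j, φ (e j) = e (j + 1)) →
    FiniteDimensional K S → (∀ s ∈ S, φ s ∈ S) → S ⊓ Submodule.span K (Set.range e) = ⊥

-- deps: REL2
def S_WIN : Prop :=
  ∀ (K : Type) [Field K] (V : Type) [AddCommGroup V] [Module K V] (φ ψ : Module.End K V)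
    (e : ℤ → V) (S : Submodule K V), LinearIndependent K e → (∀ j, φ (e j) = e (j + 1)) →
    (∀ j, ψ (e (j + 1)) = e j) → (∀ s ∈ S, φ s ∈ S) → (∀ s ∈ S, ψ s ∈ S) →
    S ⊓ Submodule.span K (Set.range e) ≠ ⊥ →
    ∃ n : ℕ, ∀ j, e j ∈ S ⊔ Submodule.span K (e '' Set.Icc 0 n)

-- deps: OB SIM FREE
def S_C2 : Prop :=
  ∀ (G : Type) [Group G] [Group.IsSolvable G] (K : Type) [Field K] (V : Type) [AddCommGroup V]
    [Module K V] (a : G →* Module.End K V) (T U : Subgroup G) (y : G) (e : ℤ → V)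
    (H : ℤ → Subgroup G) (w : V), Md a ⊤ T U y e H → Ess a e → w ≠ 0 →
    (∀ S : Submodule K V, Iv a ⊤ S → S ≠ ⊥ → w ∈ S) → False

-- deps:
def S_UPW : Prop :=
  ∀ (K : Type) [Field K] (V : Type) [AddCommGroup V] [Module K V] (φ : Module.End K V)
    (S : Submodule K V) (v : V) (n k : ℕ), (∀ s ∈ S, φ s ∈ S) → ((φ - 1) ^ n) v = 0 →
    (k : K) ≠ 0 → (φ ^ k) v - v ∈ S → φ v - v ∈ S

-- deps: WIN UPW
def S_C1A : Prop :=
  ∀ (G : Type) [Group G] (K : Type) [Field K] (V : Type) [AddCommGroup V]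
    [Module K V] (a : G →* Module.End K V) (T U : Subgroup G) (y : G) (e : ℤ → V)
    (H : ℤ → Subgroup G), Md a ⊤ T U y e H → Ess a e →
    ∃ m₀ : ℕ, ∀ S : Submodule K V, Iv a ⊤ S → S ≠ ⊥ →
      ∀ u ∈ U ⊓ Wn H 1 m₀, ∀ j, a u (e j) - e j ∈ S

-- deps: C1A
def S_C1 : Prop :=
  ∀ (G : Type) [Group G] (K : Type) [Field K] (V : Type) [AddCommGroup V]
    [Module K V] (a : G →* Module.End K V) (T U : Subgroup G) (y : G) (e : ℤ → V)
    (H : ℤ → Subgroup G), Md a ⊤ T U y e H → Ess a e →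
    (∀ w : V, (∀ S : Submodule K V, Iv a ⊤ S → S ≠ ⊥ → w ∈ S) → w = 0) → False

-- deps: LINK
def S_ZQ : Prop :=
  ∀ (G : Type) [Group G] (K : Type) [Field K] (V : Type) [AddCommGroup V]
    [Module K V] (a : G →* Module.End K V) (T U : Subgroup G) (y : G) (e : ℤ → V)
    (H : ℤ → Subgroup G) (M : Submodule K V) (a' : G →* Module.End K (V ⧸ M)),
    Md a ⊤ T U y e H → Iv a ⊤ M → M ⊓ Submodule.span K (Set.range e) = ⊥ →
    (∀ g v, a' g (M.mkQ v) = M.mkQ (a g v)) → Md a' ⊤ T U y (fun j => M.mkQ (e j)) H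

-- deps:
def S_ZM : Prop :=
  ∀ (G : Type) [Group G] (K : Type) [Field K] (V : Type) [AddCommGroup V]
    [Module K V] (a : G →* Module.End K V) (e : ℤ → V),
    ∃ (M : Submodule K V) (a' : G →* Module.End K (V ⧸ M)), Iv a ⊤ M ∧
      M ⊓ Submodule.span K (Set.range e) = ⊥ ∧ (∀ g v, a' g (M.mkQ v) = M.mkQ (a g v)) ∧
      Ess a' (fun j => M.mkQ (e j))

-- deps:
def S_MDT : Prop :=
  ∀ (G : Type) [Group G] (K : Type) [Field K] (V : Type) [AddCommGroup V]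
    [Module K V] (a : G →* Module.End K V) (D T U : Subgroup G) (y : D) (e : ℤ → V)
    (H : ℤ → Subgroup G), Md a D T U y e H →
    Md (a.comp D.subtype) ⊤ (T.subgroupOf D) (U.subgroupOf D) y e fun j => (H j).subgroupOf D

-- deps: MDT ZM ZQ C1 C2
def S_MT : Prop :=
  ∀ (G : Type) [Group G] [Group.IsSolvable G] (K : Type) [Field K] (V : Type) [AddCommGroup V]
    [Module K V] (a : G →* Module.End K V) (D T U : Subgroup G) (y : G) (e : ℤ → V)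
    (H : ℤ → Subgroup G), Md a D T U y e H → False

-- deps:
def S_CYC : Prop :=
  ∀ (G : Type) [Group G] (T : Subgroup G) (y : G), y ∈ normalizer (T : Set G) →
    ⁅T ⊔ zpowers y, T ⊔ zpowers y⁆ ≤ T

-- deps:
def S_WND : Prop :=
  ∀ (G : Type) [Group G] (N₁ N W R J T : Subgroup G) [W.Normal] (w w₀ y : G) (ok : ℕ → Prop),
    Cw N₁ N W R J w → Tdy ok W → w₀ ∈ W → y ∈ J ⊓ N → T ≤ J ⊓ N → y ∈ normalizer (T : Set G) →
    J ⊓ N ⊓ centralizer {w, y * w * y⁻¹} ≤ T →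
    ∃ H : ℤ → Subgroup G, (∀ j, H j ≤ T) ∧ (∀ j g, g ∈ H j ↔ y * g * y⁻¹ ∈ H (j + 1)) ∧
      (∀ j, H j ≤ centralizer {cj y j w₀}) ∧ (∀ i j, ∃ x ∈ Wn H i j, Noeth (centralizer {x})) ∧
      ∃ m₀ : ℕ, ∀ m : ℕ, m₀ ≤ m → ∀ u ∈ (T ⊓ N₁) ⊓ Wn H 1 m, ∃ k : ℕ, ok k ∧
        u ^ k ∈ ((T ⊓ N₁) ⊓ Wn H 0 m) ⊔ ((T ⊓ N₁) ⊓ Wn H 1 (m + 1))

-- deps: Y LFDT UNI FRK REL1 REL2 MT CYC WND
def S_END : Prop :=
  ∀ (G : Type) [Group G] [Group.IsSolvable G] (K : Type) [Field K] (V : Type) [AddCommGroup V]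
    [Module K V] (a : G →* Module.End K V) (ι : G → V) (N₁ N W R J : Subgroup G) [N₁.Normal]
    [N.Normal] [W.Normal] [R.Normal] (w : G), Cw N₁ N W R J w → Rp W R a ι →
    Frk (fun k => (k : K) ≠ 0) W R → Lin (fun k => (k : K) ≠ 0) W R →
    Tdy (fun k => (k : K) ≠ 0) W → False

-- deps: END RPT RPP FRT FRP LNT LNP TDT TDP
def S_CW : Prop :=
  ∀ (G : Type) [Group G] [Group.IsSolvable G] (N₁ N W R J : Subgroup G) [N₁.Normal]
    [N.Normal] [W.Normal] [R.Normal] (w : G), Cw N₁ N W R J w → TT W R → False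

-- deps:
def S_CWS : Prop :=
  ∀ (G : Type) [Group G] (N₁ N W R J X : Subgroup G) (w : X), J ≤ X → W ≤ X →
    Cw N₁ N W R J w → Cw (N₁.subgroupOf X) (N.subgroupOf X) (W.subgroupOf X) (R.subgroupOf X)
      (J.subgroupOf X) w

-- deps: BD1 5CH 5B
def S_RED0 : Prop :=
  ∀ (G : Type) [Group G] [Group.IsSolvable G] (N₁ N L R : Subgroup G)
    [N.Normal] [L.Normal] [R.Normal], Cf N₁ N → L ≤ N₁ → Ly L R → ¬ PC L →
    ∃ (J : Subgroup G) (w : G), closure (orb J {w}) ≤ L ∧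
      Cw N₁ N (closure (orb J {w})) (R ⊓ closure (orb J {w})) J w

-- deps: CW CWS RED0
def S_RED : Prop :=
  ∀ (G : Type) [Group G] [Group.IsSolvable G] (N₁ N L R : Subgroup G) [N₁.Normal]
    [N.Normal] [L.Normal] [R.Normal], Cf N₁ N → L ≤ N₁ → Ly L R → TT L R → PC L

-- deps: 5Q0C
def S_CFQ : Prop :=
  ∀ (G : Type) [Group G] [Group.IsSolvable G] (N₁ N P : Subgroup G) [P.Normal], Noeth P →
    Cf N₁ N → Cf (N₁.map (QuotientGroup.mk' P)) (N.map (QuotientGroup.mk' P))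

-- deps: RED LPX TORL
def S_CT : Prop :=
  ∀ (G : Type) [Group G] [Group.IsSolvable G] (N₁ N L : Subgroup G) [N₁.Normal] [N.Normal]
    [L.Normal] (g : G) (p : ℕ), Cf N₁ N → L ≤ N₁ → PC ⁅L, L⁆ → g ∈ L → p.Prime → g ^ p = 1 →
    Noeth (normalClosure {g})

-- deps: CT CFQ RED LPX RHO
def S_CL : Prop :=
  ∀ (G : Type) [Group G] [Group.IsSolvable G] (N₁ N L : Subgroup G) [N₁.Normal] [N.Normal]
    [L.Normal], Cf N₁ N → L ≤ N₁ → PC ⁅L, L⁆ → PC L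

-- deps: CL 5B
def S_CORE : Prop :=
  ∀ (G : Type) [Group G] [Group.IsSolvable G] (N₁ N : Subgroup G) [N₁.Normal] [N.Normal],
    Cf N₁ N → False

-- deps:
def S_KIL : Prop :=
  ∀ (G : Type) [Group G] [Group.IsSolvable G] (N₁ N H : Subgroup G) [N₁.Normal] [N.Normal],
    N₁ ≤ N → ⁅N, N⁆ ≤ N₁ → RN N ⊤ → H.FG → ¬ RN (N₁ ⊓ H) H →
    ∃ x ∈ H ⊓ N, ¬ (centralizer {x} ⊔ N).FiniteIndex

-- deps: CORE KIL
def S_NA : Prop := ∀ d : ℕ, SB d → SA d

-- deps: NA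
def S_MAIN : Prop :=
  ∀ (G : Type) [Group G] [Group.IsSolvable G] (N : Subgroup G) [N.Normal], HC G →
    PN ⁅N, N⁆ → RN N ⊤ → Noeth (⊤ : Subgroup G)

end Pool.Agent.P.MP_3540e7_al.T7
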