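import Pool.Agent.P.MP_3540e7_al.T7.Iface

/-! Step C2. -/

set_option autoImplicit false
set_option linter.unusedSectionVars false

namespace Pool.Agent.P.MP_3540e7_al.T7

open Subgroup T5
open scoped commutatorElement

namespace C2x

variable {G : Type} [Group G] {K : Type} [Field K] {V : Type} [AddCommGroup V] [Module K V]

/-- the vectors fixed by `x` and by `U` -/
def fx (a : G →* Module.End K V) (U : Subgroup G) (x : G) : Submodule K V where
  carrier := {v | a x v = v ∧ ∀ u ∈ U, a u v = v}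
  add_mem' h h' := ⟨by rw [map_add, h.1, h'.1], fun u hu => by rw [map_add, h.2 u hu, h'.2 u hu]⟩
  zero_mem' := ⟨map_zero _, fun _ _ => map_zero _⟩
  smul_mem' c _ h := ⟨by rw [map_smul, h.1], fun u hu => by rw [map_smul, h.2 u hu]⟩

theorem iv_fx (a : G →* Module.End K V) {U : Subgroup G} (h : ⁅(⊤ : Subgroup G), ⊤⁆ ≤ U) (x : G) :
    Iv a ⊤ (fx a U x) := by
  intro g _ v hv
  refine ⟨?_, fun u hu => ?_⟩
  · have m := h (commutator_mem_commutator (mem_top x⁻¹) (mem_top g⁻¹))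
    have e : x * g = g * (x * ⁅x⁻¹, g⁻¹⁆) := by rw [commutatorElement_def]; group
    rw [← a_mul, e, a_mul, a_mul, hv.2 _ m, hv.1]
  · have e : u * g = g * (g⁻¹ * u * g⁻¹⁻¹) := by group
    rw [← a_mul, e, a_mul, hv.2 _ ((normal_of_cm h).conj_mem u hu _)]

theorem win {a : G →* Module.End K V} {e : ℤ → V} {H : ℤ → Subgroup G}
    (h : ∀ j, ∀ g ∈ H j, a g (e j) = e j) {v : V} (hv : v ∈ Submodule.span K (Set.range e)) :
    ∃ n : ℕ, ∀ g ∈ Wn H (-n) n, a g v = v := by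
  induction hv using Submodule.span_induction with
  | mem _ hx =>
    obtain ⟨j, rfl⟩ := hx
    exact ⟨j.natAbs, fun g hg => h j g (mem_Wn.1 hg j (by omega) (by omega))⟩
  | zero => exact ⟨0, fun _ _ => map_zero _⟩
  | add x y _ _ hx hy =>
    obtain ⟨n, hn⟩ := hx
    obtain ⟨m, hm⟩ := hy
    refine ⟨n + m, fun g hg => ?_⟩
    rw [map_add, hn g (mem_Wn.2 fun k _ _ => mem_Wn.1 hg k (by omega) (by omega)),
      hm g (mem_Wn.2 fun k _ _ => mem_Wn.1 hg k (by omega) (by omega))]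
  | smul c x _ hx =>
    obtain ⟨n, hn⟩ := hx
    exact ⟨n, fun g hg => by rw [map_smul, hn g hg]⟩

end C2x

theorem p_C2 (hOB : S_OB) (hSIM : S_SIM) (hFREE : S_FREE) :
    S_C2 := by
  intro G _ _ K _ V _ _ a T U y e H w md ess hw hall
  have : Nontrivial V := ⟨w, 0, hw⟩
  have := normal_of_cm md.cm
  have iv : Iv a ⊤ (sInf {S : Submodule K V | Iv a ⊤ S ∧ S ≠ ⊥}) := fun g hg v hv =>
    Submodule.mem_sInf.2 fun S hS => hS.1 g hg v (Submodule.mem_sInf.1 hv S hS)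
  obtain ⟨v, ⟨v1, v2⟩, v0⟩ := (Submodule.ne_bot_iff _).1 (ess _ iv ((Submodule.ne_bot_iff _).2
    ⟨w, Submodule.mem_sInf.2 fun S hS => hall S hS.1 hS.2, hw⟩))
  obtain ⟨n, hn⟩ := C2x.win md.fix v2
  obtain ⟨x, hx, fd⟩ := md.kil (-n) n
  have hT : U ⊔ zpowers x ≤ T :=
    sup_le md.le (zpowers_le.2 (md.hle 0 (mem_Wn.1 hx 0 (by omega) (by omega))))
  obtain ⟨s, s0, s1⟩ := hSIM G K V a T U _ x md.uni md.lfd le_sup_left hT fd
    (hOB G K V a T U _ x v md.cm md.uni md.lfd le_sup_left hT (mem_sup_right (mem_zpowers x)) v0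
      (hn x hx) fun S h1 h2 => Submodule.mem_sInf.1 v1 S ⟨h1, h2⟩)
  have le : C2x.fx a U x ≤ LinearMap.ker (a x - 1) := fun u hu => sub_eq_zero.2 hu.1
  exact ess _ (C2x.iv_fx a md.cm x) ((Submodule.ne_bot_iff _).2 ⟨s, s1, s0⟩)
    (hFREE K V (a y) e _ md.li md.sh (Submodule.finiteDimensional_of_le le)
      (C2x.iv_fx a md.cm x y (mem_top y)))

end Pool.Agent.P.MP_3540e7_al.T7
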