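import Pool.Agent.P.MP_3540e7_al.T7.Iface

/-! Step CW. -/

set_option autoImplicit false
set_option linter.unusedSectionVars false

namespace Pool.Agent.P.MP_3540e7_al.T7

open Subgroup T5
open scoped commutatorElement

theorem p_CW (hEND : S_END) (hRPT : S_RPT) (hRPP : S_RPP) (hFRT : S_FRT) (hFRP : S_FRP) (hLNT : S_LNT) (hLNP : S_LNP) (hTDT : S_TDT) (hTDP : S_TDP) :
    S_CW := by
  intro G _ _ N₁ N W R J _ _ _ _ w h ht
  rcases ht with ⟨p, hp⟩ | ht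
  · have : Fact p.Prime := ⟨hp.1⟩
    obtain ⟨V, _, _, a, ι, hr⟩ := hRPP G W R p h.ly.cm hp.2.2
    exact hEND G (ZMod p) V a ι N₁ N W R J w h hr
      (hFRP G W R _ h.ly hp.2.1 (by simp))
      (hLNP G W R p _ h.ly hp fun k hk hd => hk ((ZMod.natCast_eq_zero_iff k p).2 hd))
      (hTDP G W _ h.ly.lp hp.2.1 (by simp))
  · obtain ⟨V, _, _, a, ι, hr⟩ := hRPT G W R h.ly.cm ht
    have h1 : ∀ k : ℕ, 0 < k → (k : ℚ) ≠ 0 := fun k hk => Nat.cast_ne_zero.2 hk.ne'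
    refine hEND G ℚ V a ι N₁ N W R J w h hr (hFRT G W R _ h.ly h1)
      (hLNT G W R _ h.ly ht (fun F hF hW => ?_)
        fun k hk => Nat.pos_of_ne_zero (Nat.cast_ne_zero.1 hk)) (hTDT G W _ h.ly.lp h1)
    obtain ⟨x, hx, hn⟩ := h.kx F hF hW
    exact ⟨x, hx.2, hn⟩

end Pool.Agent.P.MP_3540e7_al.T7
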