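import Pool.Agent.P.MP_3540e7_al.T7.Iface

/-! Step FRT. -/

set_option autoImplicit false
set_option linter.unusedSectionVars false

namespace Pool.Agent.P.MP_3540e7_al.T7

open Subgroup T5
open scoped commutatorElement

theorem p_FRT (hHF : S_HF) :
    S_FRT := by
  intro G _ _ W R _ _ ok h hok x hx
  by_contra hc
  push Not at hc
  have key : ∀ r : ℕ, ∃ T : Set G, T.Finite ∧ T ⊆ W ∧ (∀ t ∈ T, ⁅x, t⁆ ∈ R) ∧
      ∀ (P : Subgroup G) [P.Normal], Noeth P → P ≤ R → hl P + r ≤ hl (closure T ⊔ P) := by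
    intro r
    induction r with
    | zero => exact ⟨∅, Set.finite_empty, Set.empty_subset _, by simp, fun P _ _ _ => by simp⟩
    | succ r ih =>
      obtain ⟨T, h1, h2, h3, h4⟩ := ih
      obtain ⟨b, b1, b2, b3⟩ := hc T h1 h2
      have a := Set.insert_subset b1 h2
      refine ⟨insert b T, h1.insert b, a, Set.forall_mem_insert.2 ⟨b2, h3⟩, fun P _ hP hR => ?_⟩
      refine (h4 P hP hR).trans_lt (hl_lt ((h.lp _ (h1.insert b) a).sup hP).bdd
        (sup_le_sup_right (closure_mono (Set.subset_insert b T)) P) (by_contra fun c => ?_))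
      obtain ⟨k, k0, -, k1⟩ := exists_pow_mem_of_relIndex_ne_zero c
        (mem_sup_left (subset_closure (Set.mem_insert b T)))
      exact b3 k (hok k k0) (sup_le_sup_left hR _ k1.1)
  obtain ⟨T, h1, h2, h3, h4⟩ := key (hl (centralizer {x}) + 1)
  have a : (fun t => ⁅x, t⁆) '' T ⊆ R := Set.image_subset_iff.2 h3
  have hP := h.pc _ (h1.image _) a
  have hR := normalClosure_le_normal a
  have hQ := (h.lp T h1 h2).sup hP
  have b := hHF G _ _ x le_sup_right hQ (h.pn _ (sup_le ((closure_le _).2 h2) (hR.trans h.le)) hQ)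
    fun g hg => mem_CM.1 (sup_le ((closure_le _).2 fun t ht =>
      mem_CM.2 (subset_normalClosure (Set.mem_image_of_mem _ ht))) (le_CM _ x) hg)
  have c := h4 _ hP hR
  have d := hl_mono hx.bdd (inf_le_right (a := closure T ⊔ normalClosure ((fun t => ⁅x, t⁆) '' T)))
  omega

end Pool.Agent.P.MP_3540e7_al.T7
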