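import Pool.Agent.P.MP_3540e7_al.T7.Iface

/-! Step LINK. -/

set_option autoImplicit false
set_option linter.unusedSectionVars false

namespace Pool.Agent.P.MP_3540e7_al.T7

open Subgroup T5
open scoped commutatorElement

namespace LINKx

variable {K : Type} [Field K] {V V' : Type} [AddCommGroup V] [Module K V] [AddCommGroup V']
  [Module K V']

theorem fd_comap (f : V →ₗ[K] V') (U : Submodule K V') [FiniteDimensional K U]
    [FiniteDimensional K (LinearMap.ker f)] : FiniteDimensional K (U.comap f) := by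
  have h1 : FiniteDimensional K ((U.comap f).map f) :=
    Submodule.finiteDimensional_of_le (Submodule.map_comap_le f U)
  have h2 : FiniteDimensional K (U.comap f ⊓ LinearMap.ker f : Submodule K V) :=
    Submodule.finiteDimensional_of_le inf_le_right
  exact Module.Finite.iff_fg.2 (Submodule.fg_of_fg_map_of_fg_inf_ker f
    (Module.Finite.iff_fg.1 h1) (Module.Finite.iff_fg.1 h2))

end LINKx

theorem p_LINK (hCOK : S_COK) :
    S_LINK := by
  intro K _ V _ _ φ M hloc hker hM
  have hs : FiniteDimensional K (LinearMap.ker M.subtype) := by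
    rw [Submodule.ker_subtype]
    infer_instance
  obtain ⟨U', hU', hsup⟩ := hCOK K M (φ.restrict hM) (fun v => by
    obtain ⟨S, hS, hv, hφ⟩ := hloc v
    exact ⟨S.comap M.subtype, LINKx.fd_comap _ _, hv, fun s hs => hφ s hs⟩) (by
    have h1 := LINKx.fd_comap M.subtype (LinearMap.ker φ)
    refine Submodule.finiteDimensional_of_le (S₂ := (LinearMap.ker φ).comap M.subtype) ?_
    intro v hv
    exact congrArg Subtype.val (LinearMap.mem_ker.1 hv))
  have h2 := LINKx.fd_comap φ (U'.map M.subtype)
  refine Submodule.finiteDimensional_of_le (S₂ := ((U'.map M.subtype).comap φ).map M.mkQ) ?_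
  rintro _ ⟨v, hv, rfl⟩
  have h3 : (⟨φ v, hv⟩ : M) ∈ U' ⊔ LinearMap.range (φ.restrict hM) := hsup ▸ Submodule.mem_top
  obtain ⟨u, hu, _, ⟨m, rfl⟩, h4⟩ := Submodule.mem_sup.1 h3
  have h5 : (u : V) + φ m = φ v := congrArg Subtype.val h4
  refine ⟨v - m, ⟨u, hu, ?_⟩, ?_⟩
  · rw [map_sub, ← h5, add_sub_cancel_right]
    rfl
  · rw [map_sub, Submodule.mkQ_apply M m, (Submodule.Quotient.mk_eq_zero M).2 m.2, sub_zero]

end Pool.Agent.P.MP_3540e7_al.T7
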