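import Pool.Agent.P.MP_3540e7_al.T7.Iface

/-! Step TDP. -/

set_option autoImplicit false
set_option linter.unusedSectionVars false

namespace Pool.Agent.P.MP_3540e7_al.T7

open Subgroup T5
open scoped commutatorElement

theorem p_TDP (hTIDYF : S_TIDYF) (hBD1 : S_BD1) (hFIN : T5.S_FIN) :
    S_TDP := by
  intro G _ _ W _ ok hLP hPer h1 C hC hB E hE hEW
  have hP := (hBD1 G W (C 0) hLP).2 hB E hE hEW
  have hle : closure (orb (C 0) E) ≤ W := (closure_le _).2 (orb_subset _ hEW)
  have hn := le_normalizer_orb (C 0) E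
  have hsub : E ⊆ closure (orb (C 0) E) := (subset_orb _ E).trans subset_closure
  generalize closure (orb (C 0) E) = P at hP hle hn hsub
  have hf := hFIN G ⊥ P hP fun g hg => hPer g (hle hg)
  rw [relIndex_bot_left] at hf
  have : Finite P := Nat.finite_of_card_ne_zero hf
  have h2 : (centralizer (P : Set G)).relIndex (normalizer (P : Set G)) ≠ 0 := by
    rw [relIndex, ← normalizerMonoidHom_ker]
    exact (finiteIndex_ker _).index_ne_zero
  obtain ⟨m₀, hm⟩ := hTIDYF G C (centralizer (P : Set G)) hC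
    fun h => h2 (relIndex_eq_zero_of_le_right hn h)
  refine ⟨m₀, fun m h u hu => ⟨1, h1, ?_⟩⟩
  rw [pow_one]
  exact sup_le_sup_left (inf_le_inf_right _ (centralizer_le hsub)) _ (hm m h hu)

end Pool.Agent.P.MP_3540e7_al.T7
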