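import Pool.Agent.P.MP_3540e7_al.T7.Iface

/-! Step Y2. -/

set_option autoImplicit false
set_option linter.unusedSectionVars false

namespace Pool.Agent.P.MP_3540e7_al.T7

open Subgroup T5
open scoped commutatorElement

theorem p_Y2 (hLB2 : S_LB2) :
    S_Y2 := by
  intro G _ _ W M _ hW hMM hM
  by_contra hc
  push Not at hc
  have key : ∀ Y : Set G, Y.Finite → Y ⊆ M → LB W (closure Y ⊔ ⁅M, M⁆) := by
    intro Y hY
    induction Y, hY using Set.Finite.induction_on with
    | empty => intro _; rw [Subgroup.closure_empty, bot_sup_eq]; exact hMM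
    | @insert g Y _ _ ih =>
      intro hsub
      have hg : g ∈ M := hsub (Set.mem_insert _ _)
      have hYM : Y ⊆ M := (Set.subset_insert _ _).trans hsub
      have hle : closure Y ⊔ ⁅M, M⁆ ≤ M :=
        sup_le ((Subgroup.closure_le _).2 hYM) (commutator_le_self M)
      have hn : zpowers g ≤ normalizer ((closure Y ⊔ ⁅M, M⁆ : Subgroup G) : Set G) :=
        le_normalizer_of_comm fun x hx j hj =>
          mem_sup_right (commutator_mem_commutator (zpowers_le.2 hg hx) (hle hj))
      refine (hLB2 G W _ _ hW hn (hc g hg).lb (ih hYM)).mono (sup_le ?_ ?_)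
      · refine (Subgroup.closure_le _).2 ?_
        rintro x (rfl | hx)
        · exact mem_sup_left (mem_zpowers _)
        · exact mem_sup_right (mem_sup_left (subset_closure hx))
      · exact le_sup_right.trans le_sup_right
  refine hM fun Y hY hYM => ?_
  exact key Y hY hYM Y hY fun y hy => mem_sup_left (subset_closure hy)

end Pool.Agent.P.MP_3540e7_al.T7
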